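import Pool.Agent.W3.Cplx

/-!
Exactness of the complex of chains with coefficients in submodules `J F`, from the flats above `C`.

`P` is a finite poset, `ρ` strictly monotone.

Proofs.
* `adm_bd`: if `bd z c ≠ 0` then `z (insert F c) ≠ 0` for some `F ∉ c`; subsets of chains are chains;
  `z (insert F c) ∈ J G` for `G ∈ c`.
* `injOn_of_chain`: `ρ` is injective on chains.
* `red_one`: one `F` which is not above `C` is removed: suppose `z` is admissible, a cycle, and for
  all `c` with `z c ≠ 0`, `F ∈ c` and all `G ∈ c`: `G ≤ F` or `φ ≤ G`; `F < φ`, `J F ≤ J φ`. Then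
  `w := cone φ (z restricted to the c ∋ F)` is admissible in degree `j + 1`:
  `w c ≠ 0` implies `φ ∈ c`, `F ∈ c.erase φ`, `z (c.erase φ) ≠ 0`, so `c` is a chain; the coefficient is
  in `J G` for `G ∈ c.erase φ`, and in `J φ ⊇ J F`. By `bd_cone_restrict`, `z - bd w` vanishes on all
  `c ∋ F` (its hypothesis `hz`: `G ∈ c`, `ρ G = ρ φ`; if `G ≤ F` then `ρ G ≤ ρ F < ρ φ`, so `φ ≤ G`, and
  `φ = G` by strict monotonicity). If `z c ≠ bd w c` then `c` consists of members of sets in the
  support of `z`, and `φ`: `c ⊆ insert φ c1` with `z c1 ≠ 0` or so; this is needed for `red`.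
* `red`: induction on the number of `F` which are not above `C` and occur in some `c` with `z c ≠ 0`.
  Let `F` be such an element with `ρ F` maximal. If `J F = ⊥` then `z c = 0` for `F ∈ c`, a contradiction.
  Otherwise let `φ` be as in `hφ`: `F ≤ φ`, `C ≤ φ`, so `F ≠ φ`. If `z c ≠ 0`, `F, G ∈ c` then `G ≤ F` or
  `F < G`, and then `C ≤ G` by maximality (`ρ F < ρ G`), so `φ ≤ G`. So `red_one` applies; `z - bd w` is
  admissible and a cycle (`bd_bd`) and has fewer bad elements: `F` has gone, `φ` is not bad, and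
  the elements of `c` with `w c' ≠ 0` are `φ` or occur in `z`. Add the two `w`.
* `col`: by `red` we may assume that `z` is supported on sets of elements above `C`. Then
  `w := cone C z` satisfies `bd w = z` by `bd_cone` (an element `F ≥ C` with `ρ F = ρ C` is `C`), and is
  admissible: `w c ≠ 0` implies `C ∈ c`, `z (c.erase C) ≠ 0`, so `c` is a chain, the coefficient is in
  `J G` for `G ∈ c.erase C`, and in `J C` by `hstar`.
-/

set_option autoImplicit false

namespace Pool.Agent.W3

open Finset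

variable {P V k : Type*} [Fintype P] [PartialOrder P] [Field k] [AddCommGroup V] [Module k V]
  {ρ : P → ℕ} {J : P → Submodule k V}

theorem exists_of_bd_ne {z : Finset P → V} {c : Finset P} (h : bd ρ z c ≠ 0) :
    ∃ F, F ∉ c ∧ ∃ c' : Finset P, z c' ≠ 0 ∧ (∀ G, G ∈ c' ↔ G = F ∨ G ∈ c) := by
  classical
  unfold bd at h
  obtain ⟨F, hF, hne⟩ := Finset.exists_ne_zero_of_sum_ne_zero h
  rw [Finset.mem_sdiff] at hF
  refine ⟨F, hF.2, _, fun h0 => hne (by rw [h0, smul_zero]), ?_⟩
  intro G
  rw [Finset.mem_insert]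

theorem adm_bd {j : ℕ} {z : Finset P → V} (hz : Adm J (j + 1) z) : Adm J j (bd ρ z) := by
  classical
  refine ⟨?_, ?_, ?_⟩
  · intro c hc
    obtain ⟨F, _, c', h1, h2⟩ := exists_of_bd_ne hc
    refine (hz.chain c' h1).mono ?_
    intro G hG
    exact Finset.mem_coe.mpr ((h2 G).mpr (Or.inr (Finset.mem_coe.mp hG)))
  · intro c hc
    obtain ⟨F, hF, c', h1, h2⟩ := exists_of_bd_ne hc
    have h3 := hz.card c' h1
    have h4 : c' = insert F c := by
      ext G
      rw [h2, Finset.mem_insert]
    rw [h4, Finset.card_insert_of_notMem hF] at h3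
    omega
  · intro c G hG
    unfold bd
    refine Submodule.sum_mem _ fun F _ => ?_
    exact zsmul_mem (hz.mem _ G (Finset.mem_insert_of_mem hG)) _

theorem adm_sub {j : ℕ} {z w : Finset P → V} (hz : Adm J j z) (hw : Adm J j w) :
    Adm J j (fun c => z c - w c) := by
  refine ⟨?_, ?_, ?_⟩
  · intro c hc
    by_cases h : z c = 0
    · have : w c ≠ 0 := by
        intro h1
        apply hc
        simp [h, h1]
      exact hw.chain c this
    · exact hz.chain c h
  · intro c hc
    by_cases h : z c = 0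
    · have : w c ≠ 0 := by
        intro h1
        apply hc
        simp [h, h1]
      exact hw.card c this
    · exact hz.card c h
  · intro c F hF
    exact sub_mem (hz.mem c F hF) (hw.mem c F hF)

theorem adm_add {j : ℕ} {z w : Finset P → V} (hz : Adm J j z) (hw : Adm J j w) :
    Adm J j (fun c => z c + w c) := by
  refine ⟨?_, ?_, ?_⟩
  · intro c hc
    by_cases h : z c = 0
    · have : w c ≠ 0 := by
        intro h1
        apply hc
        simp [h, h1]
      exact hw.chain c this
    · exact hz.chain c h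
  · intro c hc
    by_cases h : z c = 0
    · have : w c ≠ 0 := by
        intro h1
        apply hc
        simp [h, h1]
      exact hw.card c this
    · exact hz.card c h
  · intro c F hF
    exact add_mem (hz.mem c F hF) (hw.mem c F hF)

omit [Fintype P] in
theorem injOn_of_chain (hρ : StrictMono ρ) {c : Finset P}
    (hc : IsChain (· ≤ ·) (c : Set P)) : Set.InjOn ρ (c : Set P) := by
  intro F hF G hG h
  by_contra hne
  rcases hc hF hG hne with h1 | h1
  · have := hρ (lt_of_le_of_ne h1 hne)
    omega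
  · have := hρ (lt_of_le_of_ne h1 (Ne.symm hne))
    omega

omit [Fintype P] in
theorem eq_of_le_of_rho (hρ : StrictMono ρ) {F G : P} (h : F ≤ G) (h2 : ρ G = ρ F) : G = F := by
  by_contra hne
  have := hρ (lt_of_le_of_ne h (Ne.symm hne))
  omega

omit [Fintype P] in
theorem adm_zero (j : ℕ) : Adm J j (fun _ => (0 : V)) :=
  ⟨fun _ h => absurd rfl h, fun _ h => absurd rfl h, fun _ F _ => (J F).zero_mem⟩

omit [Fintype P] in
/-- the cone of an admissible function over `C` is admissible -/
theorem adm_cone {j : ℕ} {z : Finset P → V} (hz : Adm J j z) (C : P)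
    (hle : ∀ c, z c ≠ 0 → ∀ G ∈ c, C ≤ G ∨ G ≤ C) (hJ : ∀ c, C ∉ c → z c ∈ J C) :
    Adm J (j + 1) (cone ρ C z) := by
  classical
  have key : ∀ c, cone ρ C z c ≠ 0 → ∃ c', C ∉ c' ∧ z c' ≠ 0 ∧ c = insert C c' := by
    intro c hc
    unfold cone at hc
    split_ifs at hc with h
    · refine ⟨_, ?_, fun h0 => hc (by rw [h0, smul_zero]), ?_⟩
      · rw [Finset.mem_erase]
        exact fun h => h.1 rfl
      · ext G
        rw [Finset.mem_insert, Finset.mem_erase]
        constructor
        · intro hG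
          by_cases hGC : G = C
          · exact Or.inl hGC
          · exact Or.inr ⟨hGC, hG⟩
        · rintro (rfl | hG)
          · exact h
          · exact hG.2
    · exact absurd rfl hc
  refine ⟨?_, ?_, ?_⟩
  · intro c hc
    obtain ⟨c', h1, h2, rfl⟩ := key c hc
    rw [Finset.coe_insert]
    refine (hz.chain c' h2).insert ?_
    intro G hG _
    exact hle c' h2 G (Finset.mem_coe.mp hG)
  · intro c hc
    obtain ⟨c', h1, h2, rfl⟩ := key c hc
    rw [Finset.card_insert_of_notMem h1, hz.card c' h2]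
  · intro c G hG
    by_cases h0 : cone ρ C z c = 0
    · rw [h0]
      exact (J G).zero_mem
    · unfold cone at h0 ⊢
      split_ifs at h0 ⊢ with h
      · apply zsmul_mem
        by_cases hGC : G = C
        · subst hGC
          apply hJ
          rw [Finset.mem_erase]
          exact fun h => h.1 rfl
        · apply hz.mem
          rw [Finset.mem_erase]
          exact ⟨hGC, hG⟩
      · exact absurd rfl h0

open Classical in
/-- the elements not above `C` that occur in the support of `z` -/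
noncomputable def badSet (C : P) (z : Finset P → V) : Finset P :=
  Finset.univ.filter (fun F => ¬ C ≤ F ∧ ∃ c : Finset P, F ∈ c ∧ z c ≠ 0)

theorem mem_badSet {C : P} {z : Finset P → V} {F : P} :
    F ∈ badSet C z ↔ ¬ C ≤ F ∧ ∃ c : Finset P, F ∈ c ∧ z c ≠ 0 := by
  classical
  unfold badSet
  rw [Finset.mem_filter]
  simp

theorem red_aux (hρ : StrictMono ρ) (C : P)
    (hφ : ∀ F, J F = ⊥ ∨ ∃ φ, F ≤ φ ∧ C ≤ φ ∧ J F ≤ J φ ∧ ∀ G, F ≤ G → C ≤ G → φ ≤ G)
    {j : ℕ} (n : ℕ) : ∀ z : Finset P → V, (badSet C z).card ≤ n → Adm J j z →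
    (∀ c, bd ρ z c = 0) → ∃ w : Finset P → V, Adm J (j + 1) w ∧
      ∀ c, z c - bd ρ w c ≠ 0 → ∀ F ∈ c, C ≤ F := by
  classical
  induction n with
  | zero =>
    intro z hb hz hcyc
    refine ⟨fun _ => 0, adm_zero _, ?_⟩
    intro c hc F hF
    by_contra hCF
    have hb0 : badSet C z = ∅ := Finset.card_eq_zero.mp (by omega)
    have h0 : bd ρ (fun _ : Finset P => (0 : V)) c = 0 := by
      unfold bd
      simp
    rw [h0, sub_zero] at hc
    have : F ∈ badSet C z := mem_badSet.mpr ⟨hCF, c, hF, hc⟩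
    rw [hb0] at this
    exact absurd this (Finset.notMem_empty F)
  | succ n ih =>
    intro z hb hz hcyc
    rcases (badSet C z).eq_empty_or_nonempty with hb0 | hbne
    · exact ih z (by rw [hb0]; simp) hz hcyc
    obtain ⟨F, hF, hmax⟩ := Finset.exists_max_image (badSet C z) ρ hbne
    obtain ⟨hCF, c0, hFc0, hzc0⟩ := mem_badSet.mp hF
    rcases hφ F with hbot | ⟨φ, h1, h2, h3, h4⟩
    · exfalso
      have := hz.mem c0 F hFc0
      rw [hbot, Submodule.mem_bot] at this
      exact hzc0 this
    have hFφ : F ≠ φ := by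
      rintro rfl
      exact hCF h2
    have hlt : ρ F < ρ φ := hρ (lt_of_le_of_ne h1 hFφ)
    have K : ∀ c, z c ≠ 0 → F ∈ c → ∀ G ∈ c, G ≤ F ∨ φ ≤ G := by
      intro c hc hFc G hG
      by_cases hGF : G = F
      · exact Or.inl hGF.le
      rcases hz.chain c hc (Finset.mem_coe.mpr hG) (Finset.mem_coe.mpr hFc) hGF with h5 | h5
      · exact Or.inl h5
      · right
        have h6 : ρ F < ρ G := hρ (lt_of_le_of_ne h5 (Ne.symm hGF))
        by_cases hCG : C ≤ G
        · exact h4 G h5 hCG
        · exfalso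
          have := hmax G (mem_badSet.mpr ⟨hCG, c, hG, hc⟩)
          omega
    have hzr : ∀ c, z c ≠ 0 → F ∈ c → ∀ G ∈ c, ρ G = ρ φ → G = φ := by
      intro c hc hFc G hG hρG
      rcases K c hc hFc G hG with h5 | h5
      · exfalso
        have := hρ.monotone h5
        omega
      · exact eq_of_le_of_rho hρ h5 hρG
    set z' : Finset P → V := fun c => if F ∈ c then z c else 0 with hz'
    have hz'adm : Adm J j z' := by
      refine ⟨?_, ?_, ?_⟩
      · intro c hc
        apply hz.chain
        intro h0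
        apply hc
        simp [hz', h0]
      · intro c hc
        apply hz.card
        intro h0
        apply hc
        simp [hz', h0]
      · intro c G hG
        simp only [hz']
        split_ifs with hh
        · exact hz.mem c G hG
        · exact (J G).zero_mem
    have hz'F : ∀ c, z' c ≠ 0 → F ∈ c ∧ z c ≠ 0 := by
      intro c hc
      simp only [hz'] at hc
      split_ifs at hc with hh
      · exact ⟨hh, hc⟩
      · exact absurd rfl hc
    set w : Finset P → V := cone ρ φ z' with hw
    have hwadm : Adm J (j + 1) w := by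
      refine adm_cone hz'adm φ ?_ ?_
      · intro c hc G hG
        obtain ⟨hh1, hh2⟩ := hz'F c hc
        rcases K c hh2 hh1 G hG with h5 | h5
        · exact Or.inr (h5.trans h1)
        · exact Or.inl h5
      · intro c _
        simp only [hz']
        split_ifs with hh
        · exact h3 (hz.mem c F hh)
        · exact (J φ).zero_mem
    have hrestr : ∀ c, F ∈ c → bd ρ w c = z c := by
      intro c hc
      have := bd_cone_restrict ρ F φ hFφ z hzr hcyc c hc
      convert this using 3
    set z1 : Finset P → V := fun c => z c - bd ρ w c with hz1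
    have hz1adm : Adm J j z1 := adm_sub hz (adm_bd hwadm)
    have hz1cyc : ∀ c, bd ρ z1 c = 0 := by
      intro c
      rw [hz1, bd_sub, hcyc c, bd_bd ρ w (fun c hc => injOn_of_chain hρ (hwadm.chain c hc)) c,
        sub_zero]
    have hsub : badSet C z1 ⊆ badSet C z := by
      intro G hG
      obtain ⟨hG1, c, hG2, hG3⟩ := mem_badSet.mp hG
      by_cases hzc : z c = 0
      · have hb1 : bd ρ w c ≠ 0 := by
          intro h0
          apply hG3
          simp [hz1, hzc, h0]
        obtain ⟨H, _, c', hc'1, hc'2⟩ := exists_of_bd_ne hb1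
        have hGφ : G ≠ φ := by
          rintro rfl
          exact hG1 h2
        rw [hw] at hc'1
        unfold cone at hc'1
        split_ifs at hc'1 with hφc
        · have hne : z' (c'.erase φ) ≠ 0 := fun h0 => hc'1 (by rw [h0, smul_zero])
          refine mem_badSet.mpr ⟨hG1, c'.erase φ, ?_, (hz'F _ hne).2⟩
          rw [Finset.mem_erase]
          exact ⟨hGφ, (hc'2 G).mpr (Or.inr hG2)⟩
        · exact absurd rfl hc'1
      · exact mem_badSet.mpr ⟨hG1, c, hG2, hzc⟩
    have hFnot : F ∉ badSet C z1 := by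
      intro hF1
      obtain ⟨_, c, hc1, hc2⟩ := mem_badSet.mp hF1
      apply hc2
      simp only [hz1]
      rw [hrestr c hc1, sub_self]
    have hcard : (badSet C z1).card ≤ n := by
      have : (badSet C z1).card < (badSet C z).card :=
        Finset.card_lt_card ⟨hsub, fun h => hFnot (h hF)⟩
      omega
    obtain ⟨w1, hw1, hw1'⟩ := ih z1 hcard hz1adm hz1cyc
    refine ⟨fun c => w c + w1 c, adm_add hwadm hw1, ?_⟩
    intro c hc
    apply hw1' c
    rw [bd_add] at hc
    simp only [hz1]
    rwa [sub_sub]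

theorem red (hρ : StrictMono ρ) (C : P)
    (hφ : ∀ F, J F = ⊥ ∨ ∃ φ, F ≤ φ ∧ C ≤ φ ∧ J F ≤ J φ ∧ ∀ G, F ≤ G → C ≤ G → φ ≤ G)
    {j : ℕ} {z : Finset P → V} (hz : Adm J j z) (hcyc : ∀ c, bd ρ z c = 0) :
    ∃ w : Finset P → V, Adm J (j + 1) w ∧
      ∀ c, z c - bd ρ w c ≠ 0 → ∀ F ∈ c, C ≤ F :=
  red_aux hρ C hφ _ z le_rfl hz hcyc

theorem col (hρ : StrictMono ρ) (C : P)
    (hφ : ∀ F, J F = ⊥ ∨ ∃ φ, F ≤ φ ∧ C ≤ φ ∧ J F ≤ J φ ∧ ∀ G, F ≤ G → C ≤ G → φ ≤ G)
    {j : ℕ} (hstar : ∀ z : Finset P → V, Adm J j z → (∀ c, z c ≠ 0 → ∀ F ∈ c, C ≤ F) →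
      (∀ c, bd ρ z c = 0) → ∀ c, C ∉ c → z c ∈ J C)
    {z : Finset P → V} (hz : Adm J j z) (hcyc : ∀ c, bd ρ z c = 0) :
    ∃ w : Finset P → V, Adm J (j + 1) w ∧ ∀ c, bd ρ w c = z c := by
  obtain ⟨w1, hw1, hw1'⟩ := red hρ C hφ hz hcyc
  set z1 : Finset P → V := fun c => z c - bd ρ w1 c with hz1
  have hz1adm : Adm J j z1 := adm_sub hz (adm_bd hw1)
  have hz1cyc : ∀ c, bd ρ z1 c = 0 := by
    intro c
    rw [hz1, bd_sub, hcyc c, bd_bd ρ w1 (fun c hc => injOn_of_chain hρ (hw1.chain c hc)) c,
      sub_zero]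
  have hsupp : ∀ c, z1 c ≠ 0 → ∀ F ∈ c, C ≤ F := hw1'
  have hbd : ∀ c, bd ρ (cone ρ C z1) c = z1 c := by
    intro c
    refine bd_cone ρ C z1 ?_ hz1cyc c
    intro c hc F hF hρF
    exact eq_of_le_of_rho hρ (hsupp c hc F hF) hρF
  have hcone : Adm J (j + 1) (cone ρ C z1) :=
    adm_cone hz1adm C (fun c hc G hG => Or.inl (hsupp c hc G hG))
      (fun c hc => hstar z1 hz1adm hsupp hz1cyc c hc)
  refine ⟨fun c => w1 c + cone ρ C z1 c, adm_add hw1 hcone, ?_⟩
  intro c
  rw [bd_add, hbd c]
  simp only [hz1]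
  abel

end Pool.Agent.W3
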