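import Pool.Agent.W3.PtsDefs

/-!
The first step of the lifting theorem.

`gt` is the multilinear function with the values `g a` at unit vectors, `g` is supported on ordered
bases and locally linear.

Proof. Let `s` be a slot. For `a : ι → E` let `A = {a s' | s' ≠ s}`; let `D` be the set of the `a` which
are injective outside `s` with `A` independent; then the closure `H_a` of `A` has rank
`card ι - 1`, so it is a proper flat (`card ι = eRank`; if `card ι = 0` there is no slot). For a proper
flat `H` let `τ_H` be a projection onto `R` with `τ_H (van k H) ⊆ van k H` (`exists_proj_chain` for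
`{H}`). Define `w c = 0` unless `c = {H}`, and
`w {H} y := ∑_{a ∈ D, a s = e0, H_a = H} (∏_{s' ≠ s} y s' (a s')) * gt (δ_a outside s, τ_H (y s) in s)`
(sum over the functions `a` outside `s`; `e0` is any fixed element, if `E` is empty everything
is trivial).
* `w {H} ∈ JF H`: let `card ι ≤ rho H + nv H y` and consider a term: `rho H = card ι - 1`, so some
  argument vanishes on `H`. If it is `y s'`, `s' ≠ s`, then `y s' (a s') = 0` because `a s' ∈ H`. If it is `y s`
  then `τ_H (y s) ∈ R ⊓ van k H` and `gt (δ_a, L) = ∑_e L e * g (update a s e) = 0` by `hLL` for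
  `L ∈ R ⊓ van k (closure A)`.
* Let `y s ∈ R`. Then `τ_H (y s) = y s` and `bd w ∅ y = ∑_H w {H} y` (`eps` of the empty set is one) is the
  sum over all `a ∈ D` (with `a s = e0`) of `∏_{s' ≠ s} y s' (a s') * gt (δ_a, y s)`. For `a ∉ D` we have
  `gt (δ_a, y s) = ∑_e y s e * g (update a s e) = 0` by `hsupp` (if `update a s e` is injective with
  range a base then `a` is injective outside `s` and `A` is independent). So the sum over all `a` is
  `gt y` (expand in the slots `≠ s`, cf. `ml_ext_single`).
-/

set_option autoImplicit false

namespace Pool.Agent.W3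

open Finset

variable {E : Type*} [Fintype E] [DecidableEq E] {Ω : Matroid E} {k : Type*} [Field k]
  {R : Submodule k (E → k)} {ι : Type*} [Fintype ι] [DecidableEq ι]

/-- The coordinate projection. -/
noncomputable def lbP (k : Type*) [Field k] {E : Type*} [DecidableEq E] (e : E) :
    (E → k) →ₗ[k] (E → k) :=
  (LinearMap.single k (fun _ : E => k) e) ∘ₗ (LinearMap.proj e)

omit [Fintype E] in
theorem lbP_apply (e : E) (x : E → k) : lbP k e x = Pi.single e (x e) := rfl

/-- One term of the expansion. -/
noncomputable def lbT (gt : ML k E ι) (s : ι) (a : ι → E) (τ : (E → k) →ₗ[k] (E → k)) :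
    ML k E ι :=
  gt.compLinearMap (fun s' => if s' = s then τ else lbP k (a s'))

omit [Fintype E] in
theorem lbT_apply (gt : ML k E ι) (s : ι) (a : ι → E) (τ : (E → k) →ₗ[k] (E → k))
    (y : ι → E → k) : lbT gt s a τ y =
      gt (fun s' => if s' = s then τ (y s) else Pi.single (a s') (y s' (a s'))) := by
  show gt.compLinearMap (fun s' => if s' = s then τ else lbP k (a s')) y = _
  rw [MultilinearMap.compLinearMap_apply]
  congr 1
  funext s'
  by_cases h : s' = s
  · subst h
    simp
  · simp only [if_neg h]
    rfl

theorem lb_lin (gt : ML k E ι) (m : ι → E → k) (s : ι) (L : E → k) :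
    gt (Function.update m s L) = ∑ e, L e * gt (Function.update m s (Pi.single e 1)) := by
  have h1 : L = ∑ e : E, L e • (Pi.single e (1 : k) : E → k) := by
    funext e
    simp [Finset.sum_apply, Pi.single_apply]
  conv_lhs => rw [h1]
  rw [MultilinearMap.map_update_sum]
  refine Finset.sum_congr rfl fun e _ => ?_
  rw [MultilinearMap.map_update_smul, smul_eq_mul]

theorem lb_val (g : (ι → E) → k) (gt : ML k E ι)
    (hgt : ∀ a : ι → E, gt (fun s => Pi.single (a s) 1) = g a) (s : ι) (a : ι → E)
    (L : E → k) (y : ι → E → k) :
    gt (fun s' => if s' = s then L else Pi.single (a s') (y s' (a s'))) =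
      (∏ s', if s' = s then 1 else y s' (a s')) *
        ∑ e, L e * g (Function.update a s e) := by
  have h1 : (fun s' => if s' = s then L else Pi.single (a s') (y s' (a s'))) =
      fun s' => (if s' = s then (1 : k) else y s' (a s')) •
        (Function.update (fun s' => (Pi.single (a s') 1 : E → k)) s L) s' := by
    funext s'
    by_cases h : s' = s
    · subst h
      simp
    · rw [if_neg h, if_neg h, Function.update_of_ne h]
      rw [← Pi.single_smul, smul_eq_mul, mul_one]
  rw [h1, MultilinearMap.map_smul_univ, smul_eq_mul, lb_lin]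
  congr 1
  refine Finset.sum_congr rfl fun e _ => ?_
  rw [← hgt]
  congr 2
  funext s'
  by_cases h : s' = s
  · subst h
    simp
  · rw [Function.update_of_ne h, Function.update_of_ne h]

theorem lb_expand (gt : ML k E ι) (s : ι) (e0 : E) (y : ι → E → k) :
    gt y = ∑ a ∈ Fintype.piFinset (fun s' : ι => if s' = s then ({e0} : Finset E) else univ),
      gt (fun s' => if s' = s then y s else Pi.single (a s') (y s' (a s'))) := by
  have h1 : y = fun s' => ∑ e ∈ (if s' = s then ({e0} : Finset E) else univ),
      (if s' = s then y s else (Pi.single e (y s' e) : E → k)) := by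
    funext s'
    by_cases h : s' = s
    · subst h
      simp
    · simp only [if_neg h]
      funext e
      simp [Finset.sum_apply, Pi.single_apply]
  conv_lhs => rw [h1]
  rw [MultilinearMap.map_sum_finset]

theorem lift_base (hΩ : Ω.E = Set.univ) (hrk : Ω.eRank = Fintype.card ι)
    (g : (ι → E) → k) (gt : ML k E ι) (hgt : ∀ a : ι → E, gt (fun s => Pi.single (a s) 1) = g a)
    (hsupp : ∀ a, g a ≠ 0 → Function.Injective a ∧ Ω.IsBase (Set.range a))
    (hLL : ∀ (s : ι) (a : ι → E), Set.InjOn a {s}ᶜ → Ω.Indep (a '' {s}ᶜ) →
      ∀ L ∈ R ⊓ van k (Ω.closure (a '' {s}ᶜ)), ∑ e, L e * g (Function.update a s e) = 0)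
    (s : ι) : ∃ w : Finset (PF Ω) → ML k E ι, Adm (JT R Ω (∅ : Finset ι)) 1 w ∧
      gt - bd (rho Ω) w ∅ ∈ VR R {s} := by
  classical
  rcases isEmpty_or_nonempty E with hE | hE
  · refine ⟨fun _ => 0, ⟨fun c h => absurd rfl h, fun c h => absurd rfl h,
      fun c F _ => Submodule.zero_mem _⟩, ?_⟩
    intro y hy
    have h0 : y s = 0 := Subsingleton.elim _ _
    have h1 : bd (rho Ω) (fun _ : Finset (PF Ω) => (0 : ML k E ι)) ∅ = 0 := by
      unfold bd
      simp
    rw [h1, sub_zero]
    exact gt.map_coord_zero s h0
  · obtain ⟨e0⟩ := hE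
    set S : Finset ι := {s} with hS
    have hScard : S.card = 1 := by rw [hS, Finset.card_singleton]
    have hScoe : (S : Set ι) = {s} := by rw [hS, Finset.coe_singleton]
    -- the flats
    have hflat : ∀ a : ι → E, Ω.IsFlat (CA Ω S a) := fun a => Ω.isFlat_closure _
    set Hp : (ι → E) → PF Ω := fun a =>
      ⟨CA Ω S a, hflat a, ca_ne_univ hΩ hrk (by rw [hScard]) a⟩ with hHp
    -- the projections
    have hproj : ∀ F : PF Ω, ∃ τ : (E → k) →ₗ[k] (E → k), (∀ x, τ x ∈ R) ∧ (∀ x ∈ R, τ x = x) ∧
        ∀ x ∈ van k F.1, τ x ∈ van k F.1 := by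
      intro F
      obtain ⟨τ, h1, h2, h3⟩ := exists_proj_chain R {F} (by
        rw [Finset.coe_singleton]
        exact Set.subsingleton_singleton.isChain)
      exact ⟨τ, h1, h2, fun x hx => h3 F (Finset.mem_singleton_self F) x hx⟩
    choose τ hτ1 hτ2 hτ3 using hproj
    set Q : Finset (ι → E) :=
      Fintype.piFinset (fun s' : ι => if s' = s then ({e0} : Finset E) else univ) with hQ
    set W : PF Ω → ML k E ι := fun F => ∑ a ∈ Q.filter (fun a => Hp a = F), lbT gt s a (τ F)
      with hW
    -- terms outside `D`
    have hout : ∀ a : ι → E, ¬ (Set.InjOn a (S : Set ι)ᶜ ∧ Ω.Indep (a '' (S : Set ι)ᶜ)) →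
        ∀ L : E → k, ∀ y : ι → E → k,
        gt (fun s' => if s' = s then L else Pi.single (a s') (y s' (a s'))) = 0 := by
      intro a ha L y
      rw [lb_val g gt hgt]
      have h1 : ∀ e, g (Function.update a s e) = 0 := by
        intro e
        by_contra hne
        obtain ⟨hi, hb⟩ := hsupp _ hne
        apply ha
        have hagree : ∀ t ∈ (S : Set ι)ᶜ, Function.update a s e t = a t := by
          intro t ht
          rw [hScoe] at ht
          exact Function.update_of_ne ht _ _
        constructor
        · intro t ht t' ht' htt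
          rw [← hagree t ht, ← hagree t' ht'] at htt
          exact hi htt
        · refine hb.indep.subset ?_
          rintro _ ⟨t, ht, rfl⟩
          exact ⟨t, hagree t ht⟩
      simp [h1]
    have hJF : ∀ F : PF Ω, W F ∈ (JF Ω F : Submodule k (ML k E ι)) := by
      intro F
      refine Submodule.sum_mem _ fun a ha => ?_
      obtain ⟨-, rfl⟩ := Finset.mem_filter.1 ha
      intro y hy
      rw [lbT_apply]
      by_cases hD : Set.InjOn a (S : Set ι)ᶜ ∧ Ω.Indep (a '' (S : Set ι)ᶜ)
      · have hrank := (ja_indep (k := k) (R := R) hΩ hrk S a hD (Hp a) rfl).1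
        rw [hScard, hrk] at hrank
        have hrho : rho Ω (Hp a) + 1 = Fintype.card ι := by
          unfold rho
          have hne : Ω.eRk (Hp a).1 ≠ ⊤ := by
            intro htop
            rw [htop] at hrank
            simp at hrank
          rw [← ENat.coe_toNat hne] at hrank
          exact_mod_cast hrank
        have hnv : 0 < nv (Hp a).1 y := by omega
        unfold nv at hnv
        obtain ⟨t, ht⟩ := Finset.card_pos.1 hnv
        have ht' := (Finset.mem_filter.1 ht).2
        by_cases hts : t = s
        · subst hts
          rw [lb_val g gt hgt]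
          have h3 := hLL t a (by rw [← hScoe]; exact hD.1) (by rw [← hScoe]; exact hD.2)
            (τ (Hp a) (y t)) ⟨hτ1 _ _, by
              have := hτ3 (Hp a) (y t) ht'
              have e : (Hp a).1 = Ω.closure (a '' {t}ᶜ) := by
                show Ω.closure (a '' (S : Set ι)ᶜ) = _
                rw [hScoe]
              rw [e] at this
              exact this⟩
          rw [h3, mul_zero]
        · have hmem : a t ∈ (Hp a).1 := by
            apply Ω.subset_closure (a '' (S : Set ι)ᶜ) (by rw [hΩ]; exact Set.subset_univ _)
            refine ⟨t, ?_, rfl⟩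
            rw [hScoe]
            exact hts
          have h0 : y t (a t) = 0 := ht' _ hmem
          apply gt.map_coord_zero t
          rw [if_neg hts, h0, Pi.single_zero]
      · exact hout a hD _ y
    refine ⟨fun c => if c.card = 1 then ∑ F ∈ c, W F else 0, ⟨?_, ?_, ?_⟩, ?_⟩
    · intro c hc
      by_cases h : c.card = 1
      · obtain ⟨F, rfl⟩ := Finset.card_eq_one.1 h
        rw [Finset.coe_singleton]
        exact Set.subsingleton_singleton.isChain
      · exact absurd (if_neg h) hc
    · intro c hc
      by_contra h
      exact hc (if_neg h)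
    · intro c F hF
      by_cases h : c.card = 1
      · obtain ⟨F', rfl⟩ := Finset.card_eq_one.1 h
        rw [Finset.mem_singleton] at hF
        subst hF
        simp only [if_pos h]
        rw [Finset.sum_singleton]
        refine ⟨hJF F, ?_⟩
        intro y t ht
        exact absurd ht (Finset.notMem_empty t)
      · simp only [if_neg h]
        exact Submodule.zero_mem _
    · have hbd : bd (rho Ω) (fun c : Finset (PF Ω) => if c.card = 1 then ∑ F ∈ c, W F else 0) ∅ =
          ∑ F : PF Ω, W F := by
        unfold bd
        refine Finset.sum_congr (by simp) fun F _ => ?_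
        have h1 : insert F (∅ : Finset (PF Ω)) = {F} := rfl
        have h2 : eps (rho Ω) F (∅ : Finset (PF Ω)) = 1 := by
          unfold eps
          simp
        rw [h2, one_smul]
        simp
      rw [hbd]
      intro y hy
      have hys : y s ∈ R := hy s (Finset.mem_singleton_self s)
      have h1 : (∑ F : PF Ω, W F) y = ∑ a ∈ Q,
          gt (fun s' => if s' = s then y s else Pi.single (a s') (y s' (a s'))) := by
        rw [MultilinearMap.sum_apply]
        have h2 : ∀ F : PF Ω, W F y = ∑ a ∈ Q.filter (fun a => Hp a = F),
            gt (fun s' => if s' = s then y s else Pi.single (a s') (y s' (a s'))) := by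
          intro F
          simp only [hW]
          rw [MultilinearMap.sum_apply]
          refine Finset.sum_congr rfl fun a _ => ?_
          rw [lbT_apply, hτ2 F (y s) hys]
        rw [Finset.sum_congr rfl fun F _ => h2 F]
        exact Finset.sum_fiberwise Q Hp _
      rw [sub_apply, h1, ← lb_expand gt s e0 y, sub_self]

end Pool.Agent.W3
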