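import Pool.Agent.W3.SlotLem

/-!
The induction step of the lifting theorem.

`Stage X gt g1`: `g1` vanishes if the argument in a slot of `X` is a relation, `g1` and `gt` differ by an
element of the sum of the `JF F`, and for every slot `s ∉ X` the restriction of `g1` to relations in
the slot `s` comes from an element of degree one.

Proof of `lift_step`. Let `t ∉ X`, `w_t` as in the definition of `Stage` for `t`;
`g2 := g1 - bd w_t ∅`. It is in `TT R X` (`bd w_t ∅` is a sum of `± w_t {F} ∈ TT R X`) and it vanishes if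
`y t ∈ R`, so it is in `TT R (insert t X)`. `g2 - gt` is in the sum of the `JF F`. Let
`s ∉ insert t X` and `w_s` as in the definition of `Stage` for `s`; put `x c := w_s c - w_t c`,
`Adm (JT R Ω X) 1 x` (`adm_sub`), `g2 - bd x ∅ ∈ VR R {s}`. `S := {s, t}`: `bd x c ∈ VR R S` for all `c`: for
`c ≠ ∅`, `bd x c = 0` because `x` is supported on sets with one element; `bd x ∅` is `g2` modulo
`VR R {s} ≤ VR R S`, and `g2` vanishes if `y t ∈ R`. `hpts X S` gives `u` with
`Adm (JT R Ω X) 2 u` and `x c - bd u c ∈ VR R S`. For `c = {F}` let `τ_c` be as in `exists_proj_chain`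
for `c` (or for any chain `c`), and put `w c := (x - bd u) c - slotMap t τ_c ((x - bd u) c)` for chains
`c`, `0` otherwise. By `adm_bd`, `adm_sub`, `slotMap_jf`, `sub_slotMap_tt` we have
`Adm (JT R Ω (insert t X)) 1 w`, and `slotMap t τ_c ((x - bd u) c) ∈ VR R {s}` (`slotMap_vr`, note
`S = insert t {s}`). So modulo `VR R {s}`: `bd w ∅ = bd x ∅ - bd (bd u) ∅ = bd x ∅ = g2` (`bd_bd`,
`injOn_of_chain`, `rho_strictMono`).
-/

set_option autoImplicit false

namespace Pool.Agent.W3

open Finset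

variable {E : Type*} [Fintype E] [DecidableEq E] {Ω : Matroid E} {k : Type*} [Field k]
  {R : Submodule k (E → k)} {ι : Type*} [Fintype ι] [DecidableEq ι]

/-- The situation after the slots in `X` have been treated. -/
structure Stage (Ω : Matroid E) (R : Submodule k (E → k)) (X : Finset ι)
    (gt g1 : ML k E ι) : Prop where
  tt : g1 ∈ TT R X
  diff : g1 - gt ∈ ⨆ F : PF Ω, (JF Ω F : Submodule k (ML k E ι))
  slot : ∀ s, s ∉ X → ∃ w : Finset (PF Ω) → ML k E ι, Adm (JT R Ω X) 1 w ∧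
    g1 - bd (rho Ω) w ∅ ∈ VR R {s}

theorem bd_adm_one {X : Finset ι} {x : Finset (PF Ω) → ML k E ι} (hx : Adm (JT R Ω X) 1 x)
    {c : Finset (PF Ω)} (hc : c ≠ ∅) : bd (rho Ω) x c = 0 := by
  by_contra h
  obtain ⟨F, hF, c', h1, h2⟩ := exists_of_bd_ne h
  have h3 := hx.card c' h1
  have h4 : c' = insert F c := by
    ext G
    rw [h2, Finset.mem_insert]
  rw [h4, Finset.card_insert_of_notMem hF] at h3
  exact hc (Finset.card_eq_zero.mp (by omega))

theorem bd_adm_one_TT {X : Finset ι} {x : Finset (PF Ω) → ML k E ι}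
    (hx : Adm (JT R Ω X) 1 x) (c : Finset (PF Ω)) : bd (rho Ω) x c ∈ TT R X :=
  bd_mem_submodule (rho Ω) (TT R X) (fun c => adm_TT le_rfl hx c) c

theorem bd_adm_one_J {X : Finset ι} {x : Finset (PF Ω) → ML k E ι}
    (hx : Adm (JT R Ω X) 1 x) (c : Finset (PF Ω)) :
    bd (rho Ω) x c ∈ ⨆ F : PF Ω, (JF Ω F : Submodule k (ML k E ι)) := by
  refine bd_mem_submodule (rho Ω) _ (fun c => ?_) c
  by_cases h0 : x c = 0
  · rw [h0]
    exact Submodule.zero_mem _
  · have h1 := hx.card c h0
    obtain ⟨F, hF⟩ : c.Nonempty := Finset.card_pos.mp (by omega)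
    exact Submodule.mem_iSup_of_mem F (hx.mem c F hF).1

theorem lift_step (hΩ : Ω.E = Set.univ)
    (hpts : ∀ X S : Finset ι, Disjoint X S → 2 ≤ S.card → PTS Ω R X S) {X : Finset ι}
    {gt g1 : ML k E ι} (h : Stage Ω R X gt g1) {t : ι} (ht : t ∉ X) :
    ∃ g2, Stage Ω R (insert t X) gt g2 := by
  obtain ⟨wt, hwt, hwt2⟩ := h.slot t ht
  have htt : g1 - bd (rho Ω) wt ∅ ∈ TT R (insert t X) := by
    intro y s hs hy
    rcases Finset.mem_insert.mp hs with rfl | hs
    · apply hwt2
      intro s' hs'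
      rw [Finset.mem_singleton] at hs'
      rw [hs']
      exact hy
    · exact (sub_mem h.tt (bd_adm_one_TT hwt ∅)) y s hs hy
  refine ⟨g1 - bd (rho Ω) wt ∅, htt, ?_, ?_⟩
  · have h1 := sub_mem h.diff (bd_adm_one_J hwt ∅)
    have h2 : g1 - gt - bd (rho Ω) wt ∅ = g1 - bd (rho Ω) wt ∅ - gt := by abel
    rwa [h2] at h1
  · intro s hs
    rw [Finset.mem_insert, not_or] at hs
    obtain ⟨hst, hsX⟩ := hs
    obtain ⟨ws, hws, hws2⟩ := h.slot s hsX
    set x : Finset (PF Ω) → ML k E ι := fun c => ws c - wt c with hx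
    have hxadm : Adm (JT R Ω X) 1 x := adm_sub hws hwt
    have hxbd : g1 - bd (rho Ω) wt ∅ - bd (rho Ω) x ∅ ∈ VR R {s} := by
      rw [hx, bd_sub]
      have : g1 - bd (rho Ω) wt ∅ - (bd (rho Ω) ws ∅ - bd (rho Ω) wt ∅) =
          g1 - bd (rho Ω) ws ∅ := by abel
      rw [this]
      exact hws2
    have htS : t ∉ ({s} : Finset ι) := by
      rw [Finset.mem_singleton]
      exact fun h => hst h.symm
    have hcard : (insert t ({s} : Finset ι)).card = 2 := by
      rw [Finset.card_insert_of_notMem htS, Finset.card_singleton]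
    have hdis : Disjoint X (insert t ({s} : Finset ι)) := by
      rw [Finset.disjoint_insert_right, Finset.disjoint_singleton_right]
      exact ⟨ht, hsX⟩
    have hbx : ∀ c, bd (rho Ω) x c ∈ VR R (insert t ({s} : Finset ι)) := by
      intro c
      by_cases hc : c = ∅
      · subst hc
        have h1 : g1 - bd (rho Ω) wt ∅ ∈ VR R (insert t ({s} : Finset ι)) :=
          TT_le_VR (Finset.mem_insert_self t X) (Finset.mem_insert_self t _) htt
        have h2 : g1 - bd (rho Ω) wt ∅ - bd (rho Ω) x ∅ ∈ VR R (insert t ({s} : Finset ι)) :=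
          VR_mono (Finset.subset_insert t _) hxbd
        have h3 := sub_mem h1 h2
        rwa [sub_sub_cancel] at h3
      · rw [bd_adm_one hxadm hc]
        exact Submodule.zero_mem _
    have hx' : Adm (JT R Ω X) ((insert t ({s} : Finset ι)).card - 1) x := by
      rw [hcard]
      exact hxadm
    obtain ⟨u, hu, hu2⟩ := hpts X (insert t {s}) hdis (by omega) x hx' hbx
    rw [hcard] at hu
    have hv : Adm (JT R Ω X) 1 (fun c => x c - bd (rho Ω) u c) := adm_sub hxadm (adm_bd hu)
    obtain ⟨w, hw1, hw2⟩ := slot_step ht htS hv hu2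
    refine ⟨w, hw1, ?_⟩
    have h3 : bd (rho Ω) (fun c => x c - bd (rho Ω) u c) ∅ = bd (rho Ω) x ∅ := by
      rw [bd_sub, bd_bd_adm hΩ hu ∅, sub_zero]
    have h4 := hw2 ∅
    rw [h3] at h4
    have h5 := add_mem hxbd h4
    have h6 : g1 - bd (rho Ω) wt ∅ - bd (rho Ω) x ∅ + (bd (rho Ω) x ∅ - bd (rho Ω) w ∅) =
        g1 - bd (rho Ω) wt ∅ - bd (rho Ω) w ∅ := by abel
    rwa [h6] at h5

end Pool.Agent.W3
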