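import Pool.Agent.W3.Pts
import Pool.Agent.W3.LiftBase
import Pool.Agent.W3.LiftStep

/-!
The lifting theorem: a locally linear function on ordered bases is the restriction of a
multilinear function which vanishes on relations.

Proof. `gt y := ∑_a g a * ∏ s, y s (a s)` as a multilinear map (`exists_ml`: a sum of multiples of
`MultilinearMap.mkPiAlgebra`-like products of linear maps; e.g.
`(MultilinearMap.mkPiAlgebra k ι k).compLinearMap (fun s => LinearMap.proj (a s))`).
`Stage ∅ gt gt` by `lift_base`; by induction over a finset (`Finset.induction_on univ`) there is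
`G` with `Stage univ gt G`. An element `f` of `JF F` vanishes at `fun s => Pi.single (b s) 1` if `b` is
injective and its range is a base: at most `rho F` of the `b s` are in `F`, so
`nv F ≥ card ι - rho F`. So the same holds for the elements of the supremum
(`Submodule.iSup_induction` or: the supremum is `≤` the submodule of the functions vanishing
there), and `G` and `gt` agree there.
-/

set_option autoImplicit false

namespace Pool.Agent.W3

open Finset

variable {E : Type*} [Fintype E] [DecidableEq E] {Ω : Matroid E} {k : Type*} [Field k]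
  {R : Submodule k (E → k)} {ι : Type*} [Fintype ι] [DecidableEq ι]

theorem exists_ml (g : (ι → E) → k) :
    ∃ gt : ML k E ι, ∀ a : ι → E, gt (fun s => Pi.single (a s) 1) = g a := by
  refine ⟨∑ a : ι → E, g a • (MultilinearMap.mkPiAlgebra k ι k).compLinearMap
    (fun s => LinearMap.proj (a s)), ?_⟩
  intro b
  rw [_root_.sum_apply]
  rw [Finset.sum_eq_single b]
  · rw [_root_.smul_apply, MultilinearMap.compLinearMap_apply, MultilinearMap.mkPiAlgebra_apply]
    simp
  · intro a _ hab
    rw [_root_.smul_apply, MultilinearMap.compLinearMap_apply, MultilinearMap.mkPiAlgebra_apply]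
    obtain ⟨s, hs⟩ := Function.ne_iff.1 hab
    rw [Finset.prod_eq_zero (Finset.mem_univ s), smul_zero]
    rw [LinearMap.proj_apply, Pi.single_eq_of_ne hs]
  · intro h
    exact absurd (Finset.mem_univ b) h

theorem jf_base (hΩ : Ω.E = Set.univ) (hrk : Ω.eRank = Fintype.card ι) (b : ι → E)
    (hb : Function.Injective b) (hB : Ω.IsBase (Set.range b)) {f : ML k E ι}
    (hf : f ∈ ⨆ F : PF Ω, (JF Ω F : Submodule k (ML k E ι))) :
    f (fun s => Pi.single (b s) 1) = 0 := by
  classical
  let W : Submodule k (ML k E ι) :=
    { carrier := {f | f (fun s => Pi.single (b s) 1) = 0}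
      add_mem' := by
        intro a c ha hc
        simp only [Set.mem_ofPred_eq] at ha hc ⊢
        simp [ha, hc]
      zero_mem' := rfl
      smul_mem' := by
        intro c a ha
        simp only [Set.mem_ofPred_eq] at ha ⊢
        simp [ha] }
  have hle : (⨆ F : PF Ω, (JF Ω F : Submodule k (ML k E ι))) ≤ W := by
    refine iSup_le fun F => ?_
    intro f hf
    show f (fun s => Pi.single (b s) 1) = 0
    apply hf
    have h1 : (Finset.univ.filter (fun s => b s ∈ F.1)).card ≤ rho Ω F := by
      have hind : Ω.Indep (b '' {s | b s ∈ F.1}) :=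
        hB.indep.subset (Set.image_subset_range _ _)
      have hsub : b '' {s | b s ∈ F.1} ⊆ F.1 := by
        rintro _ ⟨s, hs, rfl⟩
        exact hs
      have h2 := hind.encard_le_eRk_of_subset hsub
      rw [hb.encard_image] at h2
      have h3 : Set.encard {s | b s ∈ F.1} =
          ((Finset.univ.filter (fun s => b s ∈ F.1)).card : ℕ∞) := by
        rw [← Set.encard_coe_eq_coe_finsetCard]
        congr 1
        ext s
        simp
      rw [h3] at h2
      have hfin : Ω.eRk F.1 ≠ ⊤ := by
        have h4 := Ω.eRk_le_encard F.1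
        intro h5
        rw [h5, top_le_iff, Set.encard_eq_top_iff] at h4
        exact h4 (Set.toFinite _)
      unfold rho
      have h6 := ENat.toNat_le_toNat h2 hfin
      rwa [ENat.toNat_natCast] at h6
    have h2 : (Finset.univ.filter (fun s => ¬ b s ∈ F.1)).card ≤
        nv F.1 (fun s => (Pi.single (b s) 1 : E → k)) := by
      unfold nv
      apply Finset.card_le_card
      intro s hs
      rw [Finset.mem_filter] at hs ⊢
      refine ⟨hs.1, ?_⟩
      intro e he
      show (Pi.single (b s) 1 : E → k) e = 0
      rw [Pi.single_eq_of_ne]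
      rintro rfl
      exact hs.2 he
    have h3 : (Finset.univ.filter (fun s => b s ∈ F.1)).card +
        (Finset.univ.filter (fun s => ¬ b s ∈ F.1)).card = Fintype.card ι := by
      rw [Finset.card_filter_add_card_filter_not (s := Finset.univ) (fun s => b s ∈ F.1),
        Finset.card_univ]
    omega
  exact hle hf

theorem lifting (hΩ : Ω.E = Set.univ) (hrk : Ω.eRank = Fintype.card ι)
    (hTop : TopVan Ω R ι) (g : (ι → E) → k)
    (hsupp : ∀ a, g a ≠ 0 → Function.Injective a ∧ Ω.IsBase (Set.range a))
    (hLL : ∀ (s : ι) (a : ι → E), Set.InjOn a {s}ᶜ → Ω.Indep (a '' {s}ᶜ) →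
      ∀ L ∈ R ⊓ van k (Ω.closure (a '' {s}ᶜ)), ∑ e, L e * g (Function.update a s e) = 0) :
    ∃ G : ML k E ι, G ∈ TT R Finset.univ ∧ ∀ b : ι → E, Function.Injective b →
      Ω.IsBase (Set.range b) → G (fun s => Pi.single (b s) 1) = g b := by
  obtain ⟨gt, hgt⟩ := exists_ml (k := k) g
  have h0 : Stage Ω R (∅ : Finset ι) gt gt :=
    { tt := by intro y s hs; simp at hs
      diff := by simp
      slot := fun s _ => lift_base hΩ hrk g gt hgt hsupp hLL s }
  have hall : ∀ X : Finset ι, ∃ g1, Stage Ω R X gt g1 := by
    intro X
    induction X using Finset.induction_on with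
    | empty => exact ⟨gt, h0⟩
    | insert t X ht ih =>
      obtain ⟨g1, h1⟩ := ih
      exact lift_step hΩ (fun X S hXS hS => pts hΩ hrk hTop X S hXS hS) h1 ht
  obtain ⟨G, hG⟩ := hall Finset.univ
  refine ⟨G, hG.tt, fun b hb hB => ?_⟩
  have := jf_base hΩ hrk b hb hB hG.diff
  rw [MultilinearMap.sub_apply, sub_eq_zero] at this
  rw [this, hgt]

end Pool.Agent.W3
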