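import Pool.Agent.W3.Cplx

/-!
Maximal flags as lists and as finite sets of proper flats.

`lset Ω l` is the set of the proper flats which are members of the list `l`.

Proofs.
* `lset_cons_univ`, `lset_nil`: clear.
* `exists_flag`: induction on `c.card`. If `c = ∅` then `eRk C + 1 = eRank` and `l = [univ]`
  (`univ` is a flat of rank `eRank`, `hΩ`). Otherwise let `G` be the least element of `c`
  (a finite chain). The ranks of the elements of `c` are `c.card` different numbers (strictly monotone
  on flats) in `(eRk C, eRank)`, which has exactly `c.card` elements, so `eRk G = eRk C + 1`. Apply the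
  induction hypothesis to `G` and `c.erase G`. (Or: first show `eRk C + c.card + 1 ≤ eRk univ` with
  the claim that equality forces the covering relations.)
* `cyc_of_bd`. Generalize: let `p` be a list of flats with `C ⋖ p1 ⋖ ... ⋖ pi = F`; all members
  are proper flats if `F ≠ univ`. Show `Cyc Ω n' (fun l => ζ (lset Ω (p ++ l))) F` for
  `eRk F + n' = eRank`, by induction on `n'`. The first part of `Cyc` is the induction hypothesis
  for `p ++ [G]`. Second part: let `l` be a flag from `G`, `F ⊆ G`, `eRk G = eRk F + 2`, `c0 := lset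
  (p ++ G :: l)`. It has `n - 2` elements: their ranks are all the numbers strictly between `eRk C` and
  `eRank` except `eRk F + 1`. In `bd ζ c0 = ∑_{H ∉ c0} eps H c0 • ζ (insert H c0)` let `H` be such that
  `ζ (insert H c0) ≠ 0`. By `h1`, `insert H c0` is a chain of elements `≥ C`, by `h2` it does not contain
  `C`, so `rho H` is a number strictly between `eRk C` and `eRank`, different from the ranks of the
  elements of `c0` (flats in a chain with the same rank are equal), so `eRk H = eRk F + 1`. As `H`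
  is comparable with `F` (if `p` is not empty; otherwise `F = C ≤ H`) and with `G` (if `G ≠ univ`),
  `F ⋖ H ⋖ G`. Conversely for `H ∈ btw Ω F G`, `H ∉ c0` (rank) and
  `insert H c0 = lset (p ++ H :: G :: l)`, and `eps H c0 = (-1) ^ p.length` (the elements of `c0` of rank
  less than `eRk F + 1` are the members of `p`) does not depend on `H`. So the sum over `btw Ω F G` is
  `± bd ζ c0 = 0`. (Re-index with `Finset.sum_bij` or `Finset.sum_image`: `btw Ω F G` consists of proper
  flats, as `eRk H < eRank`.)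
-/

set_option autoImplicit false

namespace Pool.Agent.W3

open Finset

variable {E : Type*} [Fintype E] {Ω : Matroid E}

open Classical in
/-- The proper flats in the list `l`. -/
noncomputable def lset (Ω : Matroid E) (l : List (Set E)) : Finset (PF Ω) :=
  Finset.univ.filter (fun F => F.1 ∈ l)

theorem mem_lset {l : List (Set E)} {F : PF Ω} : F ∈ lset Ω l ↔ F.1 ∈ l := by
  classical
  simp [lset]

/-- the rank as a natural number -/
private noncomputable def rr (Ω : Matroid E) (X : Set E) : ℕ := (Ω.eRk X).toNat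

private theorem rr_cast (X : Set E) : (rr Ω X : ℕ∞) = Ω.eRk X := by
  unfold rr
  apply ENat.natCast_toNat
  have h1 : Ω.eRk X ≤ X.encard := Ω.eRk_le_encard X
  have h2 : X.encard < ⊤ := (Set.toFinite X).encard_lt_top
  exact (h1.trans_lt h2).ne

private theorem rr_mono {X Y : Set E} (h : X ⊆ Y) : rr Ω X ≤ rr Ω Y := by
  have h1 : (rr Ω X : ℕ∞) ≤ (rr Ω Y : ℕ∞) := by
    rw [rr_cast, rr_cast]; exact Ω.eRk_mono h
  exact_mod_cast h1

private theorem rr_lt (hΩ : Ω.E = Set.univ) {X Y : Set E} (hX : Ω.IsFlat X) (h : X ⊂ Y) :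
    rr Ω X < rr Ω Y := by
  obtain ⟨e, heY, heX⟩ := Set.exists_of_ssubset h
  have h1 : Ω.eRk (insert e X) = Ω.eRk X + 1 := by
    apply Matroid.eRk_insert_eq_add_one
    rw [hX.closure, hΩ]
    exact ⟨Set.mem_univ e, heX⟩
  have h2 : (rr Ω (insert e X) : ℕ∞) = (rr Ω X + 1 : ℕ) := by
    rw [rr_cast, h1, Nat.cast_add, rr_cast]; rfl
  have h3 : rr Ω (insert e X) = rr Ω X + 1 := by exact_mod_cast h2
  have h4 : rr Ω (insert e X) ≤ rr Ω Y := rr_mono (Set.insert_subset heY h.1)
  omega

private theorem rr_eq (hΩ : Ω.E = Set.univ) {X Y : Set E} (hX : Ω.IsFlat X) (h : X ⊆ Y)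
    (hr : rr Ω Y ≤ rr Ω X) : X = Y := by
  by_contra hne
  have := rr_lt hΩ hX (lt_of_le_of_ne h hne)
  omega

private theorem rr_univ (hΩ : Ω.E = Set.univ) : (rr Ω Set.univ : ℕ∞) = Ω.eRank := by
  rw [rr_cast, ← hΩ, Matroid.eRk_ground]

omit [Fintype E] in
private theorem univ_flat (hΩ : Ω.E = Set.univ) : Ω.IsFlat Set.univ := by
  rw [← hΩ]; exact Ω.ground_isFlat

private theorem cov_iff {F F' : Set E} : Cov Ω F F' ↔
    Ω.IsFlat F ∧ Ω.IsFlat F' ∧ F ⊆ F' ∧ rr Ω F' = rr Ω F + 1 := by
  unfold Cov
  rw [← rr_cast F, ← rr_cast F']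
  have : ((rr Ω F' : ℕ∞) = (rr Ω F : ℕ∞) + 1) ↔ rr Ω F' = rr Ω F + 1 := by
    constructor
    · intro h
      have h2 : (rr Ω F' : ℕ∞) = ((rr Ω F + 1 : ℕ) : ℕ∞) := by rw [h]; push_cast; rfl
      exact_mod_cast h2
    · intro h
      rw [h]; push_cast; rfl
  rw [this]

omit [Fintype E] in
private theorem rho_eq (F : PF Ω) : rho Ω F = rr Ω F.1 := rfl

private theorem proper_lt (hΩ : Ω.E = Set.univ) (F : PF Ω) : rr Ω F.1 < rr Ω Set.univ :=
  rr_lt hΩ F.2.1 (lt_of_le_of_ne (Set.subset_univ _) F.2.2)

theorem rho_strictMono (hΩ : Ω.E = Set.univ) : StrictMono (rho Ω) := by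
  intro F G h
  rw [rho_eq, rho_eq]
  refine rr_lt hΩ F.2.1 ?_
  exact h

private theorem lset_nil' : lset Ω [] = ∅ := by
  ext F
  rw [mem_lset]
  simp

private theorem lset_univ : lset Ω [Set.univ] = ∅ := by
  ext F
  rw [mem_lset]
  simp only [List.mem_singleton, Finset.notMem_empty, iff_false]
  exact F.2.2

private theorem flag_aux (hΩ : Ω.E = Set.univ) : ∀ (n : ℕ) (C : Set E), Ω.IsFlat C →
    ∀ c : Finset (PF Ω), c.card = n → IsChain (· ≤ ·) (c : Set (PF Ω)) →
    (∀ F ∈ c, C ⊂ F.1) → rr Ω C + (c.card + 1) = rr Ω Set.univ →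
    ∃ l, IsFlag Ω C l ∧ lset Ω l = c := by
  intro n
  induction n with
  | zero =>
    intro C hC c hn _ _ hcard
    rw [Finset.card_eq_zero] at hn
    subst hn
    refine ⟨[Set.univ], ⟨?_, rfl⟩, lset_univ⟩
    rw [cov_iff]
    rw [Finset.card_empty] at hcard
    exact ⟨hC, univ_flat hΩ, Set.subset_univ _, by omega⟩
  | succ n ih =>
    intro C hC c hn hc hCc hcard
    have hne : c.Nonempty := by rw [← Finset.card_pos]; omega
    obtain ⟨G, hG, hmin⟩ := c.exists_min_image (rho Ω) hne
    have hle : ∀ F ∈ c, G ≤ F := by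
      intro F hF
      by_cases h : F = G
      · exact h.ge
      · rcases hc hF hG h with h1 | h1
        · have := rho_strictMono hΩ (lt_of_le_of_ne h1 h)
          have := hmin F hF
          omega
        · exact h1
    have hinj : Set.InjOn (rho Ω) (c : Set (PF Ω)) := by
      intro F hF F' hF' h
      by_contra hne
      rcases hc hF hF' hne with h1 | h1
      · have := rho_strictMono hΩ (lt_of_le_of_ne h1 hne)
        omega
      · have := rho_strictMono hΩ (lt_of_le_of_ne h1 (Ne.symm hne))
        omega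
    have hrange : c.image (rho Ω) ⊆ Finset.Ioo (rr Ω C) (rr Ω Set.univ) := by
      intro x hx
      obtain ⟨F, hF, rfl⟩ := Finset.mem_image.1 hx
      rw [Finset.mem_Ioo]
      exact ⟨rr_lt hΩ hC (hCc F hF), proper_lt hΩ F⟩
    have himg : c.image (rho Ω) = Finset.Ioo (rr Ω C) (rr Ω Set.univ) := by
      apply Finset.eq_of_subset_of_card_le hrange
      rw [Finset.card_image_of_injOn hinj, Nat.card_Ioo]
      omega
    have hG1 : rr Ω G.1 = rr Ω C + 1 := by
      have h1 : rr Ω C + 1 ∈ c.image (rho Ω) := by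
        rw [himg, Finset.mem_Ioo]
        omega
      obtain ⟨F, hF, hF1⟩ := Finset.mem_image.1 h1
      have h2 := hmin F hF
      have h3 := rr_lt hΩ hC (hCc G hG)
      rw [rho_eq] at h2
      omega
    obtain ⟨l, hl, hlc⟩ := ih G.1 G.2.1 (c.erase G) (by rw [Finset.card_erase_of_mem hG]; omega)
      (hc.mono (by intro x hx; exact Finset.mem_of_mem_erase (Finset.mem_coe.1 hx)))
      (by
        intro F hF
        rw [Finset.mem_erase] at hF
        exact lt_of_le_of_ne (hle F hF.2) (fun h => hF.1 (Subtype.ext h.symm)))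
      (by
        rw [Finset.card_erase_of_mem hG, hG1]
        omega)
    refine ⟨G.1 :: l, ⟨?_, hl⟩, ?_⟩
    · rw [cov_iff]
      exact ⟨hC, G.2.1, (hCc G hG).1, hG1⟩
    · ext F
      rw [mem_lset, List.mem_cons, ← mem_lset (Ω := Ω), hlc, Finset.mem_erase]
      constructor
      · rintro (h | h)
        · rw [Subtype.ext h]; exact hG
        · exact h.2
      · intro h
        by_cases h2 : F = G
        · exact Or.inl (by rw [h2])
        · exact Or.inr ⟨h2, h⟩

theorem exists_flag (hΩ : Ω.E = Set.univ) {C : Set E} (hC : Ω.IsFlat C) (c : Finset (PF Ω))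
    (hc : IsChain (· ≤ ·) (c : Set (PF Ω))) (hCc : ∀ F ∈ c, C ⊂ F.1)
    (hcard : Ω.eRk C + (c.card + 1 : ℕ) = Ω.eRank) : ∃ l, IsFlag Ω C l ∧ lset Ω l = c := by
  refine flag_aux hΩ c.card C hC c rfl hc hCc ?_
  rw [← rr_cast, ← rr_univ hΩ] at hcard
  exact_mod_cast hcard

private theorem flag_facts : ∀ (l : List (Set E)) (G : Set E),
    Ω.IsFlat G → IsFlag Ω G l → (∀ P ∈ lset Ω (G :: l), G ⊆ P.1) ∧
      ∀ x, rr Ω G ≤ x → x < rr Ω Set.univ → ∃ P ∈ lset Ω (G :: l), rho Ω P = x := by
  intro l
  induction l with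
  | nil =>
    intro G _ hl
    have hG : G = Set.univ := hl
    subst hG
    rw [lset_univ]
    refine ⟨fun P hP => absurd hP (Finset.notMem_empty P), fun x h1 h2 => ?_⟩
    omega
  | cons G' l ih =>
    intro G hG hl
    obtain ⟨hcov, hl'⟩ := hl
    rw [cov_iff] at hcov
    obtain ⟨-, hG', hsub, hr⟩ := hcov
    obtain ⟨i1, i2⟩ := ih G' hG' hl'
    constructor
    · intro P hP
      rw [mem_lset, List.mem_cons] at hP
      rcases hP with hP | hP
      · rw [hP]
      · exact hsub.trans (i1 P (mem_lset.2 hP))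
    · intro x h1 h2
      by_cases hx : x = rr Ω G
      · have hne : G ≠ Set.univ := by
          rintro rfl
          omega
        refine ⟨⟨G, hG, hne⟩, ?_, ?_⟩
        · rw [mem_lset]; exact List.mem_cons_self
        · rw [rho_eq]
          change rr Ω G = x
          exact hx.symm
      · obtain ⟨P, hP, hPx⟩ := i2 x (by omega) h2
        refine ⟨P, ?_, hPx⟩
        rw [mem_lset] at hP ⊢
        exact List.mem_cons_of_mem _ hP

private theorem mem_btw' {F G H : Set E} : H ∈ btw Ω F G ↔ Cov Ω F H ∧ Cov Ω H G := by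
  classical
  unfold btw
  simp

private theorem bd_eq' {k : Type*} [Field k] (ζ : Finset (PF Ω) → k) (c : Finset (PF Ω)) :
    bd (rho Ω) ζ c = ∑ H ∈ Finset.univ \ c, eps (rho Ω) H c • ζ (insert H c) := by
  unfold bd
  refine Finset.sum_congr ?_ fun F _ => ?_
  · congr
  · congr

private theorem cyc_aux {k : Type*} [Field k] (hΩ : Ω.E = Set.univ) (C : PF Ω) {n : ℕ}
    (ζ : Finset (PF Ω) → k)
    (h1 : ∀ c, ζ c ≠ 0 → IsChain (· ≤ ·) (c : Set (PF Ω)) ∧ c.card + 1 = n ∧ ∀ F ∈ c, C ≤ F)
    (h2 : ∀ c, C ∈ c → ζ c = 0) (h3 : ∀ c, bd (rho Ω) ζ c = 0) :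
    ∀ (m : ℕ) (F : Set E) (q : Finset (PF Ω)), Ω.IsFlat F →
      (F = C.1 ∨ ∃ P ∈ q, P.1 = F) → (∀ P ∈ q, P.1 ⊆ F) →
      (∀ x, rr Ω C.1 < x → x ≤ rr Ω F → ∃ P ∈ q, rho Ω P = x) →
      rr Ω F + m = rr Ω Set.univ → Cyc Ω m (fun l => ζ (q ∪ lset Ω l)) F := by
  intro m
  induction m with
  | zero => intro F q _ _ _ _ _; trivial
  | succ m ih =>
    intro F q hF hCF hq hq2 hm
    refine ⟨?_, ?_⟩
    · intro G hcov
      rcases Nat.eq_zero_or_pos m with hm0 | hm0
      · subst hm0; trivial
      rw [cov_iff] at hcov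
      obtain ⟨-, hG, hFG, hr⟩ := hcov
      have hGne : G ≠ Set.univ := by
        rintro rfl
        omega
      have h4 : (fun l => ζ (q ∪ lset Ω (G :: l))) =
          fun l => ζ (insert ⟨G, hG, hGne⟩ q ∪ lset Ω l) := by
        ext l
        congr 1
        ext P
        rw [Finset.mem_union, Finset.mem_union, Finset.mem_insert, mem_lset, mem_lset,
          List.mem_cons, Subtype.ext_iff]
        tauto
      change Cyc Ω m (fun l => ζ (q ∪ lset Ω (G :: l))) G
      rw [h4]
      apply ih G _ hG
      · right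
        exact ⟨⟨G, hG, hGne⟩, Finset.mem_insert_self _ _, rfl⟩
      · intro P hP
        rcases Finset.mem_insert.1 hP with rfl | hP
        · exact Set.Subset.refl _
        · exact (hq P hP).trans hFG
      · intro x hx1 hx2
        by_cases hx : x ≤ rr Ω F
        · obtain ⟨P, hP, hPx⟩ := hq2 x hx1 hx
          exact ⟨P, Finset.mem_insert_of_mem hP, hPx⟩
        · refine ⟨⟨G, hG, hGne⟩, Finset.mem_insert_self _ _, ?_⟩
          rw [rho_eq]
          change rr Ω G = x
          omega
      · omega
    · intro G l hl hG hFG hr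
      have hr' : rr Ω G = rr Ω F + 2 := by
        have h5 : (rr Ω G : ℕ∞) = ((rr Ω F + 2 : ℕ) : ℕ∞) := by
          rw [rr_cast, hr, Nat.cast_add, rr_cast]; rfl
        exact_mod_cast h5
      obtain ⟨f1, f2⟩ := flag_facts l G hG hl
      set c0 : Finset (PF Ω) := q ∪ lset Ω (G :: l) with hc0
      -- the relevant flats
      set T : Finset (PF Ω) := Finset.univ.filter (fun H => H.1 ∈ btw Ω F G) with hT
      have hmemT : ∀ H : PF Ω, H ∈ T ↔ Cov Ω F H.1 ∧ Cov Ω H.1 G := by
        intro H
        rw [hT, Finset.mem_filter, mem_btw']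
        simp
      have hrT : ∀ H ∈ T, rr Ω H.1 = rr Ω F + 1 := by
        intro H hH
        exact (cov_iff.1 ((hmemT H).1 hH).1).2.2.2
      have hTc : T ⊆ Finset.univ \ c0 := by
        intro H hH
        rw [Finset.mem_sdiff]
        refine ⟨Finset.mem_univ H, fun hHc => ?_⟩
        have h5 := hrT H hH
        rcases Finset.mem_union.1 hHc with h6 | h6
        · have := rr_mono (Ω := Ω) (hq H h6)
          omega
        · have := rr_mono (Ω := Ω) (f1 H h6)
          omega
      have hvan : ∀ H ∈ Finset.univ \ c0, H ∉ T →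
          eps (rho Ω) H c0 • ζ (insert H c0) = 0 := by
        intro H hH hHT
        rw [Finset.mem_sdiff] at hH
        by_contra hne
        have hζ : ζ (insert H c0) ≠ 0 := fun h => hne (by rw [h, smul_zero])
        obtain ⟨k1, -, k3⟩ := h1 _ hζ
        have hCn : C ∉ insert H c0 := fun h => hζ (h2 _ h)
        have hHi : H ∈ insert H c0 := Finset.mem_insert_self _ _
        have hCH : C ≤ H := k3 H hHi
        have hCHne : C ≠ H := fun h => hCn (h ▸ hHi)
        have hCHlt : rr Ω C.1 < rr Ω H.1 := rr_lt hΩ C.2.1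
          (lt_of_le_of_ne hCH (fun h => hCHne (Subtype.ext h)))
        have hHtop := proper_lt hΩ H
        -- comparable with the elements of `c0`
        have hcmp : ∀ P ∈ c0, rho Ω P ≠ rho Ω H := by
          intro P hP h
          have hPH : P ≠ H := fun h' => hH.2 (h' ▸ hP)
          rcases k1 (Finset.mem_coe.2 (Finset.mem_insert_of_mem hP)) (Finset.mem_coe.2 hHi) hPH
            with h7 | h7
          · have := rho_strictMono hΩ (lt_of_le_of_ne h7 hPH)
            omega
          · have := rho_strictMono hΩ (lt_of_le_of_ne h7 (Ne.symm hPH))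
            omega
        have hrH : rr Ω H.1 = rr Ω F + 1 := by
          by_contra hne2
          rcases le_or_gt (rr Ω H.1) (rr Ω F) with h7 | h7
          · obtain ⟨P, hP, hPx⟩ := hq2 _ hCHlt h7
            exact hcmp P (Finset.mem_union_left _ hP) hPx
          · obtain ⟨P, hP, hPx⟩ := f2 (rr Ω H.1) (by omega) hHtop
            exact hcmp P (Finset.mem_union_right _ hP) hPx
        have hFH : F ⊆ H.1 := by
          rcases hCF with h7 | ⟨P, hP, hPF⟩
          · rw [h7]; exact hCH
          · have hPc : P ∈ c0 := Finset.mem_union_left _ hP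
            have hPH : P ≠ H := fun h' => hH.2 (h' ▸ hPc)
            rcases k1 (Finset.mem_coe.2 (Finset.mem_insert_of_mem hPc)) (Finset.mem_coe.2 hHi)
              hPH with h8 | h8
            · rw [← hPF]; exact h8
            · exfalso
              have := rho_strictMono hΩ (lt_of_le_of_ne h8 (Ne.symm hPH))
              rw [rho_eq, rho_eq, hPF] at this
              omega
        have hHG : H.1 ⊆ G := by
          by_cases hGu : G = Set.univ
          · rw [hGu]; exact Set.subset_univ _
          · have hPc : (⟨G, hG, hGu⟩ : PF Ω) ∈ c0 := by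
              apply Finset.mem_union_right
              rw [mem_lset]
              exact List.mem_cons_self
            have hPH : (⟨G, hG, hGu⟩ : PF Ω) ≠ H := fun h' => hH.2 (h' ▸ hPc)
            rcases k1 (Finset.mem_coe.2 (Finset.mem_insert_of_mem hPc)) (Finset.mem_coe.2 hHi)
              hPH with h8 | h8
            · exfalso
              have := rho_strictMono hΩ (lt_of_le_of_ne h8 hPH)
              rw [rho_eq, rho_eq] at this
              simp only at this
              omega
            · exact h8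
        apply hHT
        rw [hmemT, cov_iff, cov_iff]
        exact ⟨⟨hF, H.2.1, hFH, hrH⟩, ⟨H.2.1, hG, hHG, by omega⟩⟩
      have hb := h3 c0
      rw [bd_eq', ← Finset.sum_subset hTc hvan] at hb
      -- the sign is constant
      obtain ⟨e0, he0, heT⟩ : ∃ e0 : ℤ, e0 * e0 = 1 ∧ ∀ H ∈ T, eps (rho Ω) H c0 = e0 := by
        classical
        refine ⟨(-1) ^ (c0.filter (fun P => rho Ω P < rr Ω F + 1)).card, ?_, ?_⟩
        · rw [← pow_add, ← two_mul, pow_mul, neg_one_sq, one_pow]
        · intro H hH
          unfold eps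
          congr 2
          ext P
          rw [Finset.mem_filter, Finset.mem_filter, rho_eq H, hrT H hH]
      rw [Finset.sum_congr rfl (fun H hH => by rw [heT H hH]), ← Finset.smul_sum] at hb
      have hb2 : ∑ H ∈ T, ζ (insert H c0) = 0 := by
        have h5 : e0 • (e0 • ∑ H ∈ T, ζ (insert H c0)) = 0 := by rw [hb, smul_zero]
        rw [smul_smul, he0, one_smul] at h5
        exact h5
      -- reindex
      have hbtw : btw Ω F G = T.image (fun H => H.1) := by
        ext X
        rw [Finset.mem_image]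
        constructor
        · intro hX
          have hX' : Cov Ω F X ∧ Cov Ω X G := mem_btw'.1 hX
          have hXne : X ≠ Set.univ := by
            rintro rfl
            have h6 := (cov_iff.1 hX'.2).2.2.2
            have h7 := rr_mono (Ω := Ω) (Set.subset_univ G)
            omega
          exact ⟨⟨X, hX'.1.2.1, hXne⟩, (hmemT _).2 hX', rfl⟩
        · rintro ⟨H, hH, rfl⟩
          exact mem_btw'.2 ((hmemT H).1 hH)
      rw [hbtw, Finset.sum_image (fun x _ y _ h => Subtype.ext h), ← hb2]
      refine Finset.sum_congr rfl fun H _ => ?_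
      have h9 : q ∪ lset Ω (H.1 :: G :: l) = insert H c0 := by
        ext P
        rw [Finset.mem_insert, hc0, Finset.mem_union, Finset.mem_union, mem_lset, mem_lset,
          List.mem_cons, List.mem_cons, Subtype.ext_iff]
        tauto
      exact congrArg ζ h9

theorem cyc_of_bd {k : Type*} [Field k] (hΩ : Ω.E = Set.univ) (C : PF Ω) {n : ℕ}
    (hn : Ω.eRk C.1 + n = Ω.eRank) (ζ : Finset (PF Ω) → k)
    (h1 : ∀ c, ζ c ≠ 0 → IsChain (· ≤ ·) (c : Set (PF Ω)) ∧ c.card + 1 = n ∧ ∀ F ∈ c, C ≤ F)
    (h2 : ∀ c, C ∈ c → ζ c = 0) (h3 : ∀ c, bd (rho Ω) ζ c = 0) :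
    Cyc Ω n (fun l => ζ (lset Ω l)) C.1 := by
  have h4 := cyc_aux hΩ C ζ h1 h2 h3 n C.1 ∅ C.2.1 (Or.inl rfl)
    (fun P hP => absurd hP (Finset.notMem_empty P)) (fun x hx1 hx2 => by omega)
    (by
      rw [← rr_cast, ← rr_univ hΩ] at hn
      exact_mod_cast hn)
  have h5 : (fun l => ζ (∅ ∪ lset Ω l)) = fun l => ζ (lset Ω l) := by
    ext l
    rw [Finset.empty_union]
  rw [h5] at h4
  exact h4

end Pool.Agent.W3
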