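import Pool.Agent.W3.Defs

/-!
Multilinear functions and spanning sets.

Proofs.
* `ml_slot`: one slot: `fun L => f (Function.update y s L)` is linear (`MultilinearMap.toLinearMap` or
  `map_update_add`, `map_update_smul`); `Submodule.span_induction`, and `Submodule.mem_sup` for
  the sum.
* `ml_congr`: change the slots one after another (induction on a finset of slots): if `y s - y' s ∈ R`
  then `f (update y s (y s)) - f (update y s (y' s)) = f (update y s (y s - y' s)) = 0`.
* `ml_ext_single`: `f y = ∑ a : ι → E, (∏ s, y s (a s)) • f (fun s => Pi.single (a s) 1)`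
  (`y s = ∑ e, y s e • Pi.single e 1` and `MultilinearMap.map_sum`, `map_smul_univ`; or
  `Basis.ext_multilinear`-like lemmas, `MultilinearMap.map_sum_finset`).
-/

set_option autoImplicit false

namespace Pool.Agent.W3

variable {E : Type*} {k : Type*} [Field k] {ι : Type*} [Fintype ι] [DecidableEq ι]

/-- If `f` vanishes whenever the argument in the slot `s` is in `U` or in the set `G` (the other
arguments being fixed), then it vanishes if the argument is in `U ⊔ span G`. -/
theorem ml_slot (f : ML k E ι) (y : ι → E → k) (s : ι) (U : Submodule k (E → k))
    (G : Set (E → k)) (hU : ∀ L ∈ U, f (Function.update y s L) = 0)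
    (hG : ∀ L ∈ G, f (Function.update y s L) = 0) (hy : y s ∈ U ⊔ Submodule.span k G) :
    f y = 0 := by
  have h1 : U ⊔ Submodule.span k G ≤ LinearMap.ker (f.toLinearMap y s) := by
    apply sup_le
    · intro L hL
      rw [LinearMap.mem_ker]
      exact hU L hL
    · rw [Submodule.span_le]
      intro L hL
      rw [SetLike.mem_coe, LinearMap.mem_ker]
      exact hG L hL
  have h2 := h1 hy
  rw [LinearMap.mem_ker] at h2
  have h3 : f (Function.update y s (y s)) = 0 := h2
  rwa [Function.update_eq_self] at h3

theorem ml_congr (R : Submodule k (E → k)) (f : ML k E ι) (hf : f ∈ TT R Finset.univ)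
    (y y' : ι → E → k) (h : ∀ s, y s - y' s ∈ R) : f y = f y' := by
  have key : ∀ S : Finset ι, f (S.piecewise y y') = f y' := by
    intro S
    induction S using Finset.induction_on with
    | empty => rw [Finset.piecewise_empty]
    | insert a S ha ih =>
      rw [Finset.piecewise_insert, ← ih]
      set m := S.piecewise y y' with hm
      have h1 : m = Function.update m a (y' a) := by
        have : m a = y' a := Finset.piecewise_eq_of_notMem _ _ _ ha
        rw [← this, Function.update_eq_self]
      have h2 : f (Function.update m a (y a)) - f (Function.update m a (y' a)) = 0 := by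
        rw [← MultilinearMap.map_update_sub]
        apply hf _ a (Finset.mem_univ a)
        rw [Function.update_self]
        exact h a
      rw [sub_eq_zero.1 h2, ← h1]
  have := key Finset.univ
  rwa [Finset.piecewise_univ] at this

theorem ml_ext_single [Fintype E] [DecidableEq E] (f : ML k E ι) (y : ι → E → k) :
    f y = ∑ a : ι → E, (∏ s, y s (a s)) * f (fun s => Pi.single (a s) 1) := by
  have h1 : y = fun s => ∑ e : E, y s e • (Pi.single e (1 : k) : E → k) := by
    funext s e
    simp [Finset.sum_apply, Pi.single_apply]
  conv_lhs => rw [h1]
  rw [MultilinearMap.map_sum]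
  refine Finset.sum_congr rfl fun a _ => ?_
  rw [MultilinearMap.map_smul_univ, smul_eq_mul]

end Pool.Agent.W3
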