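import Pool.Agent.W3.LLDefs
import Pool.Agent.W3.MLspan

/-!
A multilinear extension of `gf` which vanishes on relations: then `chi` is constant.

Proof of `chi_const`. The map `λ := Fintype.linearCombination k v : (E → k) →ₗ T` is surjective by
`hspan`; let `σ` be a linear right inverse (`LinearMap.exists_rightInverse_of_surjective`).
`G' := G.compLinearMap (fun _ => σ)`. For `a : ι → E`: `G' (v ∘ a) = G (fun s => Pi.single (a s) 1)` by
`ml_congr` (the difference of `σ (v e)` and `Pi.single e 1` is in `Rel k v`, as `λ (Pi.single e 1) = v e`).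
Let `Λ := MultilinearMap.alternatization G'`; for `w : ι → T`,
`Λ w = ∑ π, sign π • G' (fun s => w (π s))` (`MultilinearMap.alternatization_apply`,
`domDomCongr_apply`). Let `a` be injective, `range a` a base of `Ω`. For a permutation `π`, `a ∘ π` is
injective with the same range, so `G' (v ∘ a ∘ π) = gf (a ∘ π) = chi (range a) * b.det (v ∘ a ∘ π) =
chi (range a) * (sign π • b.det (v ∘ a))` (`AlternatingMap.map_perm`). So
`Λ (v ∘ a) = (card ι)! * chi (range a) * b.det (v ∘ a)` (`Fintype.card_perm`, `sign π * sign π = 1`).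
On the other hand `Λ = Λ b • b.det` (`AlternatingMap.eq_smul_basis_det`). If `range a` is also a base of
`N`, the determinant is not zero (`det_of_base`), so `(card ι)! * chi (range a) = Λ b`. Apply this to
enumerations `a`, `a'` of `B` and `B'` by `ι`: a base of `N` has `card ι` elements (`hN`: `Fintype.card ι` is
the dimension; or use the finite-ness and `Ω.eRank = card ι` for the bases of `Ω`).
-/

set_option autoImplicit false

namespace Pool.Agent.W3

open Set

variable {E : Type*} [Fintype E] [DecidableEq E] {N Ω : Matroid E} {q : ℕ} {k T : Type*}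
  [Field k] [AddCommGroup T] [Module k T] {v : E → T} {ι : Type*} [Fintype ι] [DecidableEq ι]

theorem chi_fact (hv : IsRep k N v) (hspan : Submodule.span k (range v) = ⊤)
    (b : Module.Basis ι k T) {P0 : Fin (q + 1) → Set E} {G : ML k E ι}
    (hG : G ∈ TT (Rel k v) Finset.univ)
    (hGg : ∀ a : ι → E, Function.Injective a → Ω.IsBase (range a) →
      G (fun s => Pi.single (a s) 1) = gf N Ω P0 v b a) :
    ∃ x : k, ∀ a : ι → E, Function.Injective a → Ω.IsBase (range a) →
      b.det (fun s => v (a s)) ≠ 0 →
      ((Fintype.card ι).factorial : k) * chi k N P0 (range a) = x := by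
  have hsurj : LinearMap.range (Fintype.linearCombination k v) = ⊤ := by
    rw [Fintype.range_linearCombination, hspan]
  obtain ⟨σ, hσ⟩ := LinearMap.exists_rightInverse_of_surjective
    (Fintype.linearCombination k v) hsurj
  have hσ' : ∀ w, Fintype.linearCombination k v (σ w) = w := fun w => by
    have := LinearMap.congr_fun hσ w
    simpa using this
  obtain ⟨G', hG'⟩ : ∃ G' : MultilinearMap k (fun _ : ι => T) k,
      G' = G.compLinearMap (fun _ => σ) := ⟨_, rfl⟩
  have h1 : ∀ a : ι → E, G' (fun s => v (a s)) = G (fun s => Pi.single (a s) 1) := by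
    intro a
    rw [hG', MultilinearMap.compLinearMap_apply]
    refine ml_congr (Rel k v) G hG _ _ fun s => ?_
    unfold Rel
    rw [LinearMap.mem_ker, map_sub, hσ', Fintype.linearCombination_apply_single, one_smul,
      sub_self]
  obtain ⟨Λ, hΛ⟩ : ∃ Λ : T [⋀^ι]→ₗ[k] k, Λ = MultilinearMap.alternatization G' := ⟨_, rfl⟩
  refine ⟨Λ b, fun a ha hΩ hdet => ?_⟩
  have h2 : Λ (fun s => v (a s)) = ((Fintype.card ι).factorial : k) *
      (chi k N P0 (range a) * b.det (fun s => v (a s))) := by
    rw [hΛ, MultilinearMap.alternatization_apply]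
    have h3 : ∀ π : Equiv.Perm ι, Equiv.Perm.sign π • (G'.domDomCongr π) (fun s => v (a s)) =
        chi k N P0 (range a) * b.det (fun s => v (a s)) := by
      intro π
      rw [MultilinearMap.domDomCongr_apply]
      have h4 := h1 (fun s => a (π s))
      rw [h4]
      have ha' : Function.Injective (fun s => a (π s)) := ha.comp π.injective
      have hr : range (fun s => a (π s)) = range a := by
        have : (fun s => a (π s)) = a ∘ π := rfl
        rw [this, π.surjective.range_comp]
      rw [hGg _ ha' (by rw [hr]; exact hΩ)]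
      unfold gf
      rw [if_pos ⟨ha', by rw [hr]; exact hΩ⟩, hr]
      have h5 := b.det.map_perm (fun s => v (a s)) π
      have h6 : b.det (fun s => v (a (π s))) = Equiv.Perm.sign π • b.det (fun s => v (a s)) := h5
      rw [h6, mul_smul_comm, smul_smul, Int.units_mul_self, one_smul]
    rw [Finset.sum_congr rfl (fun π _ => h3 π), Finset.sum_const, Finset.card_univ,
      Fintype.card_perm, nsmul_eq_mul]
  have h3 := AlternatingMap.eq_smul_basis_det b Λ
  have h4 : Λ (fun s => v (a s)) = Λ b * b.det (fun s => v (a s)) := by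
    conv_lhs => rw [h3]
    rfl
  rw [h4, ← mul_assoc] at h2
  exact (mul_right_cancel₀ hdet h2).symm

theorem exists_enum {B : Set E} (hΩB : Ω.IsBase B) (hrk : Ω.eRank = Fintype.card ι) :
    ∃ a : ι → E, Function.Injective a ∧ range a = B := by
  classical
  have h1 := hΩB.encard_eq_eRank
  rw [hrk, ← Set.Finite.cast_ncard_eq (Set.toFinite B)] at h1
  have h2 : B.ncard = Fintype.card ι := by exact_mod_cast h1
  have h3 : Fintype.card ι = Fintype.card B := by
    rw [← h2, ← Nat.card_coe_set_eq, Nat.card_eq_fintype_card]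
  obtain ⟨e⟩ := Fintype.card_eq.1 h3
  refine ⟨fun s => (e s : E), fun s s' h => e.injective (Subtype.ext h), ?_⟩
  ext x
  constructor
  · rintro ⟨s, rfl⟩
    exact (e s).2
  · intro hx
    exact ⟨e.symm ⟨x, hx⟩, by simp⟩

theorem chi_const (hN : N.E = univ) (hv : IsRep k N v) (hspan : Submodule.span k (range v) = ⊤)
    (hrk : Ω.eRank = Fintype.card ι) (b : Module.Basis ι k T)
    (hk : ((Fintype.card ι).factorial : k) ≠ 0) {P0 : Fin (q + 1) → Set E} {G : ML k E ι}
    (hG : G ∈ TT (Rel k v) Finset.univ)
    (hGg : ∀ a : ι → E, Function.Injective a → Ω.IsBase (range a) →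
      G (fun s => Pi.single (a s) 1) = gf N Ω P0 v b a)
    {B B' : Set E} (hB : N.IsBase B) (hB' : N.IsBase B') (hΩB : Ω.IsBase B)
    (hΩB' : Ω.IsBase B') : chi k N P0 B = chi k N P0 B' := by
  obtain ⟨x, hx⟩ := chi_fact hv hspan b hG hGg
  obtain ⟨a, ha, rfl⟩ := exists_enum (ι := ι) hΩB hrk
  obtain ⟨a', ha', rfl⟩ := exists_enum (ι := ι) hΩB' hrk
  have h1 := hx a ha hΩB (det_of_base hN hv b ha hB)
  have h2 := hx a' ha' hΩB' (det_of_base hN hv b ha' hB')
  exact mul_left_cancel₀ hk (h1.trans h2.symm)

end Pool.Agent.W3
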