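import Pool.Agent.W3.Defs

/-!
The complex of functions on finite subsets of `P`; `ρ : P → ℕ`.

`eps ρ F c = (-1)^#{G ∈ c : ρ G < ρ F}`, `bd z c = ∑_{F ∉ c} eps F c • z (insert F c)`,
`cone C z c = eps C (c \ {C}) • z (c \ {C})` if `C ∈ c`, and `0` otherwise.

Proofs.
* `eps_insert_lt`: if `F ∉ c`, `ρ F < ρ G` then `eps G (insert F c) = - eps G c`.
  `eps_insert_not_lt`: if not `ρ F < ρ G` then `eps G (insert F c) = eps G c`. `eps_mul_self = 1`.
* `bd_bd`: `bd (bd z) c` is the sum over ordered pairs `(F, G)` of different elements outside `c` of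
  `eps F c * eps G (insert F c) • z (insert G (insert F c))`. The pairs `(F, G)` and `(G, F)` cancel: if
  `ρ F ≠ ρ G` the product of the signs is antisymmetric (one of the two second factors
  changes), if `ρ F = ρ G` the value of `z` is zero by `hz`. (E.g. `Finset.sum_involution` over the
  sigma/product finset, or: `S = -S`? this is not enough in characteristic two, so use the
  involution.)
* `bd_cone`: case `C ∉ c`: in `bd (cone C z) c` only `F = C` contributes, `eps C c * eps C c • z c`.
  Case `C ∈ c`, `c' := c.erase C`: the term of `F ∉ c` is `eps F c * eps C (insert F c') • z (insert F c')`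
  (`(insert F c).erase C = insert F c'`). If `z (insert F c') ≠ 0` then `ρ F ≠ ρ C` by `hz`, and
  `eps F c * eps C (insert F c') = - eps F c' * eps C c'`. So the sum is
  `- eps C c' • ∑_{F ∉ c} eps F c' • z (insert F c') = - eps C c' • (bd z c' - eps C c' • z c) = z c`.
* `bd_cone_restrict`: `w := cone φ z'`, `z' c := if F ∈ c then z c else 0`, `c ∋ F`, and `F ≠ φ`. If
  `φ ∉ c` only the term of `φ` contributes: `z c`. If `φ ∈ c`, `c' := c.erase φ` (contains `F`): the term
  of `G ∉ c` is `eps G c * eps φ (insert G c') • z (insert G c')`, if it is not zero then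
  `ρ G ≠ ρ φ` by `hz` (applied to `insert G c'`), and again the sum is
  `- eps φ c' • (bd z c' - eps φ c' • z c) = z c`.
* `bd_add`, `bd_sub`, `bd_neg`, `bd_map`: clear.
-/

set_option autoImplicit false

namespace Pool.Agent.W3

open Finset

variable {P V : Type*} [Fintype P] [AddCommGroup V] (ρ : P → ℕ)

omit [Fintype P] in
open Classical in
theorem eps_insert_lt {F G : P} {c : Finset P} (hF : F ∉ c) (h : ρ F < ρ G) :
    eps ρ G (insert F c) = - eps ρ G c := by
  unfold eps
  rw [Finset.filter_insert, if_pos h, Finset.card_insert_of_notMem, pow_succ, mul_neg_one]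
  intro h1
  exact hF (Finset.mem_filter.1 h1).1

omit [Fintype P] in
open Classical in
theorem eps_insert_not_lt {F G : P} {c : Finset P} (h : ¬ ρ F < ρ G) :
    eps ρ G (insert F c) = eps ρ G c := by
  unfold eps
  rw [Finset.filter_insert, if_neg h]

omit [Fintype P] in
theorem eps_mul_self (F : P) (c : Finset P) : eps ρ F c * eps ρ F c = 1 := by
  unfold eps
  rw [← pow_add, ← two_mul, pow_mul, neg_one_sq, one_pow]

theorem bd_add (z w : Finset P → V) (c : Finset P) :
    bd ρ (fun c => z c + w c) c = bd ρ z c + bd ρ w c := by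
  unfold bd
  rw [← Finset.sum_add_distrib]
  exact Finset.sum_congr rfl fun F _ => smul_add _ _ _

theorem bd_sub (z w : Finset P → V) (c : Finset P) :
    bd ρ (fun c => z c - w c) c = bd ρ z c - bd ρ w c := by
  unfold bd
  rw [← Finset.sum_sub_distrib]
  exact Finset.sum_congr rfl fun F _ => smul_sub _ _ _

theorem bd_map {W : Type*} [AddCommGroup W] (f : V →+ W) (z : Finset P → V) (c : Finset P) :
    bd ρ (fun c => f (z c)) c = f (bd ρ z c) := by
  unfold bd
  rw [map_sum]
  exact Finset.sum_congr rfl fun F _ => (map_zsmul f _ _).symm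

theorem bd_bd (z : Finset P → V) (hz : ∀ c, z c ≠ 0 → Set.InjOn ρ (c : Set P)) (c : Finset P) :
    bd ρ (bd ρ z) c = 0 := by
  classical
  have key : ∀ F G : P, F ∉ c → G ∉ c → F ≠ G →
      eps ρ F c • eps ρ G (insert F c) • z (insert G (insert F c)) +
        eps ρ G c • eps ρ F (insert G c) • z (insert F (insert G c)) = 0 := by
    intro F G hF hG hFG
    rw [Finset.insert_comm G F c]
    by_cases h0 : z (insert F (insert G c)) = 0
    · rw [h0]
      simp
    · have hinj := hz _ h0
      have hne : ρ F ≠ ρ G := by
        intro h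
        apply hFG
        apply hinj _ _ h
        · simp
        · simp
      rcases lt_or_gt_of_ne hne with h | h
      · rw [eps_insert_lt ρ hF h, eps_insert_not_lt ρ (not_lt.2 h.le), neg_smul, smul_neg,
          smul_comm (eps ρ G c)]
        exact neg_add_cancel _
      · rw [eps_insert_lt ρ hG h, eps_insert_not_lt ρ (not_lt.2 h.le), neg_smul, smul_neg,
          smul_comm (eps ρ G c)]
        exact add_neg_cancel _
  have e : bd ρ (bd ρ z) c = ∑ x ∈ (Finset.univ \ c).sigma (fun F => Finset.univ \ insert F c),
      eps ρ x.1 c • eps ρ x.2 (insert x.1 c) • z (insert x.2 (insert x.1 c)) := by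
    rw [Finset.sum_sigma]
    unfold bd
    refine Finset.sum_congr ?_ fun F _ => ?_
    · congr
    · rw [Finset.smul_sum]
  rw [e]
  refine Finset.sum_involution (fun x _ => ⟨x.2, x.1⟩) ?_ ?_ ?_ ?_
  · rintro ⟨F, G⟩ hx
    rw [Finset.mem_sigma, Finset.mem_sdiff, Finset.mem_sdiff, Finset.mem_insert, not_or] at hx
    exact key F G hx.1.2 hx.2.2.2 (Ne.symm hx.2.2.1)
  · rintro ⟨F, G⟩ hx _ h
    rw [Finset.mem_sigma, Finset.mem_sdiff, Finset.mem_sdiff, Finset.mem_insert, not_or] at hx
    have h1 : G = F := congrArg Sigma.fst h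
    exact hx.2.2.1 h1
  · rintro ⟨F, G⟩ hx
    rw [Finset.mem_sigma, Finset.mem_sdiff, Finset.mem_sdiff, Finset.mem_insert, not_or] at hx ⊢
    exact ⟨⟨Finset.mem_univ _, hx.2.2.2⟩, Finset.mem_univ _, Ne.symm hx.2.2.1, hx.1.2⟩
  · rintro ⟨F, G⟩ _
    rfl

private theorem bd_cone_aux (C : P) (z : Finset P → V)
    (hz : ∀ c, z c ≠ 0 → ∀ F ∈ c, ρ F = ρ C → F = C) (c : Finset P)
    (hcyc : ∀ c' : Finset P, C ∉ c' → (∀ x, x ∈ c' ↔ x ∈ c ∧ x ≠ C) → C ∈ c → bd ρ z c' = 0) :
    bd ρ (cone ρ C z) c = z c := by
  classical
  by_cases hC : C ∈ c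
  · set c' := c.erase C with hc'
    have hCc' : C ∉ c' := Finset.notMem_erase C c
    have hins : insert C c' = c := Finset.insert_erase hC
    have hb := hcyc c' hCc' (fun x => by rw [hc', Finset.mem_erase, and_comm]) hC
    have hun : Finset.univ \ c' = insert C (Finset.univ \ c) := by
      ext x
      simp only [Finset.mem_sdiff, Finset.mem_univ, true_and, Finset.mem_insert, hc',
        Finset.mem_erase]
      tauto
    have hb2 : eps ρ C c' • z c + ∑ F ∈ Finset.univ \ c, eps ρ F c' • z (insert F c') = 0 := by
      have h1 : bd ρ z c' = ∑ F ∈ Finset.univ \ c', eps ρ F c' • z (insert F c') := by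
        unfold bd
        refine Finset.sum_congr ?_ fun F _ => ?_
        · congr
        · congr
      rw [h1, hun, Finset.sum_insert, hins] at hb
      · exact hb
      · simp [hC]
    have e1 : bd ρ (cone ρ C z) c =
        ∑ F ∈ Finset.univ \ c, -(eps ρ C c' • eps ρ F c' • z (insert F c')) := by
      unfold bd
      refine Finset.sum_congr ?_ fun F hF => ?_
      · congr
      have hFc : F ∉ c := (Finset.mem_sdiff.1 hF).2
      have hFC : F ≠ C := fun h => hFc (h ▸ hC)
      have hFc' : F ∉ c' := fun h => hFc (Finset.mem_of_mem_erase h)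
      have e2 : cone ρ C z (insert F c) = eps ρ C (insert F c') • z (insert F c') := by
        unfold cone
        have h3 : (insert F c).erase C = insert F c' := by
          ext x
          simp only [Finset.mem_erase, Finset.mem_insert, hc']
          constructor
          · rintro ⟨h4, h5 | h5⟩
            · exact Or.inl h5
            · exact Or.inr ⟨h4, h5⟩
          · rintro (h5 | ⟨h4, h5⟩)
            · exact ⟨by rw [h5]; exact hFC, Or.inl h5⟩
            · exact ⟨h4, Or.inr h5⟩
        have h6 : C ∈ insert F c := Finset.mem_insert_of_mem hC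
        rw [if_pos (by convert h6)]
        have h7 : (insert F c).erase C = insert F c' := h3
        have h8 : ∀ d : Finset P, d = insert F c' →
            eps ρ C d • z d = eps ρ C (insert F c') • z (insert F c') := by
          intro d hd
          rw [hd]
        apply h8
        rw [← h7]
      by_cases h0 : z (insert F c') = 0
      · have : eps ρ F c • cone ρ C z (insert F c) = -(eps ρ C c' • eps ρ F c' • z (insert F c')) := by
          rw [e2, h0]
          simp
        convert this using 2
      · have hne : ρ F ≠ ρ C := fun h => hFC (hz _ h0 F (Finset.mem_insert_self F c') h)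
        have this : eps ρ F c • cone ρ C z (insert F c) =
            -(eps ρ C c' • eps ρ F c' • z (insert F c')) := by
          rw [e2]
          have hep : eps ρ F c = eps ρ F (insert C c') := by rw [hins]
          rw [hep]
          rcases lt_or_gt_of_ne hne with h | h
          · rw [eps_insert_lt ρ hFc' h, eps_insert_not_lt ρ (not_lt.2 h.le), neg_smul, smul_neg,
              smul_comm (eps ρ F c')]
          · rw [eps_insert_lt ρ hCc' h, eps_insert_not_lt ρ (not_lt.2 h.le), neg_smul,
              smul_comm (eps ρ F c')]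
        convert this using 2
    rw [e1, Finset.sum_neg_distrib, ← Finset.smul_sum]
    have h9 : ∑ F ∈ Finset.univ \ c, eps ρ F c' • z (insert F c') = -(eps ρ C c' • z c) :=
      eq_neg_of_add_eq_zero_right hb2
    rw [h9, smul_neg, neg_neg, smul_smul, eps_mul_self, one_smul]
  · have hcone : ∀ F, F ∉ c → F ≠ C → cone ρ C z (insert F c) = 0 := by
      intro F _ hFC
      unfold cone
      rw [if_neg]
      intro h
      rcases Finset.mem_insert.1 h with h | h
      · exact hFC h.symm
      · exact hC h
    unfold bd
    rw [Finset.sum_eq_single C]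
    · have h1 : cone ρ C z (insert C c) = eps ρ C c • z c := by
        unfold cone
        rw [if_pos (Finset.mem_insert_self C c)]
        have h2 : ∀ d : Finset P, d = c → eps ρ C d • z d = eps ρ C c • z c := by
          intro d hd
          rw [hd]
        apply h2
        have h3 := Finset.erase_insert hC
        convert h3
      have h4 : eps ρ C c • cone ρ C z (insert C c) = z c := by
        rw [h1, smul_smul, eps_mul_self, one_smul]
      convert h4 using 2
    · intro F hF hFC
      have hFc : F ∉ c := (Finset.mem_sdiff.1 hF).2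
      have h5 : eps ρ F c • cone ρ C z (insert F c) = 0 := by
        rw [hcone F hFc hFC, smul_zero]
      convert h5 using 2
    · intro h
      exact absurd (Finset.mem_sdiff.2 ⟨Finset.mem_univ C, hC⟩) h

theorem bd_cone (C : P) (z : Finset P → V) (hz : ∀ c, z c ≠ 0 → ∀ F ∈ c, ρ F = ρ C → F = C)
    (hcyc : ∀ c, bd ρ z c = 0) (c : Finset P) : bd ρ (cone ρ C z) c = z c :=
  bd_cone_aux ρ C z hz c fun c' _ _ _ => hcyc c'

open Classical in
theorem bd_cone_restrict (F φ : P) (hFφ : F ≠ φ) (z : Finset P → V)
    (hz : ∀ c, z c ≠ 0 → F ∈ c → ∀ G ∈ c, ρ G = ρ φ → G = φ) (hcyc : ∀ c, bd ρ z c = 0)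
    (c : Finset P) (hc : F ∈ c) :
    bd ρ (cone ρ φ (fun c => if F ∈ c then z c else 0)) c = z c := by
  rw [bd_cone_aux]
  · rw [if_pos hc]
  · intro d hd G hG hρ
    by_cases hFd : F ∈ d
    · rw [if_pos hFd] at hd
      exact hz d hd hFd G hG hρ
    · rw [if_neg hFd] at hd
      exact absurd rfl hd
  · intro c' _ h2 _
    have hF : F ∈ c' := (h2 F).2 ⟨hc, hFφ⟩
    refine Eq.trans ?_ (hcyc c')
    unfold bd
    refine Finset.sum_congr rfl fun G _ => ?_
    show eps ρ G c' • (if F ∈ insert G c' then z (insert G c') else 0) = _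
    rw [if_pos (Finset.mem_insert_of_mem hF)]

end Pool.Agent.W3
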