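import Pool.Agent.W3.Flag

/-!
Arguments with unit vectors `Pi.single (a s) 1` in the slots outside `S` and relations in the
slots of `S`.

`CA Ω S a` is the closure of `{a s | s ∉ S}`.

Proofs. In all of them note: if `YA R S a y` then for `s ∉ S` the argument `y s = Pi.single (a s) 1`
vanishes on `F` iff `a s ∉ F`. So
`nv F y = #{s ∈ S | y s ∈ van k F} + #{s ∉ S | a s ∉ F}`.
* `ca_rank`: `eRk (CA) ≤ |Sᶜ| = card ι - |S|`, so it is a proper flat if `S` is not empty.
* `ja_step`: let `G = closure (F ∪ CA)`, `F` a proper flat. `eRk G ≤ eRk F + #{s ∉ S | a s ∉ F}`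
  (`G` is the closure of `F ∪ {a s | s ∉ S, a s ∉ F}`). If `G = univ`: for `f ∈ JA F` and `y` with `YA`,
  `card ι = eRk G ≤ rho F + #{s ∉ S | a s ∉ F} ≤ rho F + nv F y`, so `f y = 0`. If `G ≠ univ`: let
  `card ι ≤ rho G + nv G y`; as `a s ∈ G` for `s ∉ S`, `nv G y = #{s ∈ S | y s ∈ van G} ≤
  #{s ∈ S | y s ∈ van F}`, so `card ι ≤ rho F + #{s ∉ S | a s ∉ F} + #{s ∈ S | y s ∈ van F} =
  rho F + nv F y` and `f y = 0`.
* `ja_dep`: if `a` is not injective outside `S` or the set `{a s | s ∉ S}` is dependent then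
  `rho (CA) < card ι - |S|`, and `nv (CA) y ≤ |S|`, so the condition in `JA` is never satisfied.
* `ja_indep`: if it is injective and independent then `rho (CA) = card ι - |S|`, and the condition
  says that all `y s`, `s ∈ S`, vanish on `CA`.
-/

set_option autoImplicit false

namespace Pool.Agent.W3

open Finset

variable {E : Type*} [Fintype E] [DecidableEq E] {Ω : Matroid E} {k : Type*} [Field k]
  {R : Submodule k (E → k)} {ι : Type*} [Fintype ι] [DecidableEq ι]

/-- Relations in the slots of `S`, unit vectors in the others. -/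
def YA (R : Submodule k (E → k)) (S : Finset ι) (a : ι → E) (y : ι → E → k) : Prop :=
  (∀ s ∈ S, y s ∈ R) ∧ ∀ s, s ∉ S → y s = Pi.single (a s) 1

/-- The multilinear functions which vanish on `YA`. -/
def ZA (R : Submodule k (E → k)) (S : Finset ι) (a : ι → E) : Submodule k (ML k E ι) where
  carrier := {f | ∀ y, YA R S a y → f y = 0}
  add_mem' := by
    intro f g hf hg y hy
    simp [hf y hy, hg y hy]
  zero_mem' := by
    intro y _
    rfl
  smul_mem' := by
    intro c f hf y hy
    simp [hf y hy]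

/-- The condition `J_F` for the arguments in `YA`. -/
def JA (Ω : Matroid E) (R : Submodule k (E → k)) (S : Finset ι) (a : ι → E) (F : PF Ω) :
    Submodule k (ML k E ι) where
  carrier := {f | ∀ y, YA R S a y → Fintype.card ι ≤ rho Ω F + nv F.1 y → f y = 0}
  add_mem' := by
    intro f g hf hg y hy h
    simp [hf y hy h, hg y hy h]
  zero_mem' := by
    intro y _ _
    rfl
  smul_mem' := by
    intro c f hf y hy h
    simp [hf y hy h]

/-- The flat spanned by the elements outside `S`. -/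
def CA (Ω : Matroid E) (S : Finset ι) (a : ι → E) : Set E := Ω.closure (a '' (S : Set ι)ᶜ)

theorem za_le_ja (S : Finset ι) (a : ι → E) (F : PF Ω) : ZA R S a ≤ JA Ω R S a F :=
  fun _ hf y hy _ => hf y hy

theorem jf_le_ja (S : Finset ι) (a : ι → E) (F : PF Ω) :
    (JF Ω F : Submodule k (ML k E ι)) ≤ JA Ω R S a F :=
  fun _ hf y _ h => hf y h

omit [DecidableEq E] in
private theorem eRk_ne_top_fin (Ω : Matroid E) (X : Set E) : Ω.eRk X ≠ ⊤ :=
  ne_top_of_le_ne_top (Set.encard_ne_top_iff.2 X.toFinite) (Ω.eRk_le_encard X)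

omit [DecidableEq E] in
private theorem rho_coe (F : PF Ω) : (rho Ω F : ℕ∞) = Ω.eRk F.1 :=
  ENat.natCast_toNat (eRk_ne_top_fin Ω _)

omit [Fintype E] in
private theorem single_mem_van (e : E) (F : Set E) :
    (Pi.single e 1 : E → k) ∈ van k F ↔ e ∉ F := by
  constructor
  · intro h he
    have h1 : (Pi.single e 1 : E → k) e = 0 := h e he
    rw [Pi.single_eq_same] at h1
    exact one_ne_zero h1
  · intro h e' he'
    have : e' ≠ e := fun h1 => h (by rw [← h1]; exact he')
    rw [Pi.single_eq_of_ne this]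

open Classical in
private theorem nv_eq {S : Finset ι} {a : ι → E} {y : ι → E → k} (hy : YA R S a y) (F : Set E) :
    nv F y = (univ.filter (fun s => s ∈ S ∧ y s ∈ van k F)).card +
      (univ.filter (fun s => s ∉ S ∧ a s ∉ F)).card := by
  have h1 : nv F y = (univ.filter (fun s => y s ∈ van k F)).card := rfl
  rw [h1, ← Finset.card_filter_add_card_filter_not (s := univ.filter (fun s => y s ∈ van k F))
    (fun s => s ∈ S), Finset.filter_filter, Finset.filter_filter]
  congr 2
  · ext s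
    simp only [mem_filter, mem_univ, true_and]
    tauto
  · ext s
    simp only [mem_filter, mem_univ, true_and]
    constructor
    · rintro ⟨h2, h3⟩
      refine ⟨h3, ?_⟩
      rw [hy.2 s h3, single_mem_van] at h2
      exact h2
    · rintro ⟨h2, h3⟩
      refine ⟨?_, h2⟩
      rw [hy.2 s h2, single_mem_van]
      exact h3

omit [Fintype E] [DecidableEq E] in
open Classical in
private theorem encard_out (S : Finset ι) (a : ι → E) (F : Set E) :
    (a '' {s | s ∉ S ∧ a s ∉ F}).encard ≤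
      ((univ.filter (fun s => s ∉ S ∧ a s ∉ F)).card : ℕ∞) := by
  refine (Set.encard_image_le _ _).trans (le_of_eq ?_)
  rw [← Set.encard_coe_eq_coe_finsetCard]
  congr 1
  ext s
  simp

open Classical in
private theorem card_compl_eq (S : Finset ι) : (univ.filter (fun s => s ∉ S)).card + S.card =
    Fintype.card ι := by
  have h1 := Finset.card_filter_add_card_filter_not (s := (univ : Finset ι)) (fun s => s ∈ S)
  have h2 : (univ.filter (fun s => s ∈ S)) = S := by
    ext s
    simp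
  rw [h2, Finset.card_univ] at h1
  omega

open Classical in
private theorem encard_compl_eq (S : Finset ι) :
    ((S : Set ι)ᶜ).encard = ((univ.filter (fun s => s ∉ S)).card : ℕ∞) := by
  rw [← Set.encard_coe_eq_coe_finsetCard]
  congr 1
  ext s
  simp

omit [DecidableEq E] [DecidableEq ι] in
private theorem ca_eRk (S : Finset ι) (a : ι → E) :
    Ω.eRk (CA Ω S a) = Ω.eRk (a '' (S : Set ι)ᶜ) := by
  unfold CA
  rw [Matroid.eRk_closure_eq]

omit [DecidableEq E] [DecidableEq ι] in
private theorem mem_ca (hΩ : Ω.E = Set.univ) {S : Finset ι} (a : ι → E) {s : ι} (hs : s ∉ S) :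
    a s ∈ CA Ω S a := by
  unfold CA
  apply Matroid.subset_closure
  · rw [hΩ]
    exact Set.subset_univ _
  · exact ⟨s, by simpa using hs, rfl⟩

theorem ca_ne_univ (hΩ : Ω.E = Set.univ) (hrk : Ω.eRank = Fintype.card ι) {S : Finset ι}
    (hS : 1 ≤ S.card) (a : ι → E) : CA Ω S a ≠ Set.univ := by
  classical
  intro h
  have h1 := ca_eRk (Ω := Ω) S a
  rw [h, Matroid.eRk_univ_eq, hrk] at h1
  have h2 : Ω.eRk (a '' (S : Set ι)ᶜ) ≤ ((univ.filter (fun s => s ∉ S)).card : ℕ∞) := by
    refine (Ω.eRk_le_encard _).trans ((Set.encard_image_le _ _).trans ?_)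
    rw [encard_compl_eq]
  rw [← h1] at h2
  have h3 : Fintype.card ι ≤ (univ.filter (fun s => s ∉ S)).card := by exact_mod_cast h2
  have h4 := card_compl_eq S
  omega

open Classical in
private theorem eRk_step (hΩ : Ω.E = Set.univ) (S : Finset ι) (a : ι → E) (F : PF Ω) :
    Ω.eRk (Ω.closure (F.1 ∪ CA Ω S a)) ≤
      ((rho Ω F + (univ.filter (fun s => s ∉ S ∧ a s ∉ F.1)).card : ℕ) : ℕ∞) := by
  have h1 : F.1 ∪ a '' (S : Set ι)ᶜ = F.1 ∪ a '' {s | s ∉ S ∧ a s ∉ F.1} := by
    ext e
    constructor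
    · rintro (h | ⟨s, hs, rfl⟩)
      · exact Or.inl h
      · by_cases hF : a s ∈ F.1
        · exact Or.inl hF
        · exact Or.inr ⟨s, ⟨by simpa using hs, hF⟩, rfl⟩
    · rintro (h | ⟨s, hs, rfl⟩)
      · exact Or.inl h
      · exact Or.inr ⟨s, by simpa using hs.1, rfl⟩
  rw [Matroid.eRk_closure_eq, CA, Matroid.eRk_union_closure_right_eq, h1]
  refine (Ω.eRk_union_le_eRk_add_eRk _ _).trans ?_
  rw [Nat.cast_add, rho_coe]
  exact add_le_add_right ((Ω.eRk_le_encard _).trans (encard_out S a F.1)) _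

theorem ja_step (hΩ : Ω.E = Set.univ) (hrk : Ω.eRank = Fintype.card ι) (S : Finset ι)
    (a : ι → E) (F : PF Ω) :
    JA Ω R S a F ≤ ZA R S a ∨ ∃ G : PF Ω, G.1 = Ω.closure (F.1 ∪ CA Ω S a) ∧
      JA Ω R S a F ≤ JA Ω R S a G := by
  classical
  have hst := eRk_step hΩ S a F
  by_cases hG : Ω.closure (F.1 ∪ CA Ω S a) = Set.univ
  · left
    intro f hf y hy
    apply hf y hy
    rw [hG, Matroid.eRk_univ_eq, hrk] at hst
    have h1 : Fintype.card ι ≤ rho Ω F + (univ.filter (fun s => s ∉ S ∧ a s ∉ F.1)).card := by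
      exact_mod_cast hst
    rw [nv_eq hy]
    omega
  · right
    refine ⟨⟨Ω.closure (F.1 ∪ CA Ω S a), Ω.isFlat_closure _, hG⟩, rfl, ?_⟩
    intro f hf y hy hle
    apply hf y hy
    have hsub : F.1 ∪ CA Ω S a ⊆ Ω.closure (F.1 ∪ CA Ω S a) :=
      Ω.subset_closure _ (by rw [hΩ]; exact Set.subset_univ _)
    have h0 : (univ.filter (fun s => s ∉ S ∧ a s ∉ Ω.closure (F.1 ∪ CA Ω S a))).card = 0 := by
      rw [Finset.card_eq_zero, Finset.filter_eq_empty_iff]
      rintro s - ⟨h1, h2⟩
      exact h2 (hsub (Or.inr (mem_ca hΩ a h1)))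
    have h1 : (univ.filter (fun s => s ∈ S ∧ y s ∈ van k (Ω.closure (F.1 ∪ CA Ω S a)))).card ≤
        (univ.filter (fun s => s ∈ S ∧ y s ∈ van k F.1)).card := by
      apply Finset.card_le_card
      intro s hs
      rw [mem_filter] at hs ⊢
      exact ⟨hs.1, hs.2.1, fun e he => hs.2.2 e (hsub (Or.inl he))⟩
    have h2 := rho_coe (⟨Ω.closure (F.1 ∪ CA Ω S a), Ω.isFlat_closure _, hG⟩ : PF Ω)
    rw [← h2] at hst
    have h3 : rho Ω (⟨Ω.closure (F.1 ∪ CA Ω S a), Ω.isFlat_closure _, hG⟩ : PF Ω) ≤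
        rho Ω F + (univ.filter (fun s => s ∉ S ∧ a s ∉ F.1)).card := by exact_mod_cast hst
    rw [nv_eq hy] at hle
    rw [nv_eq hy]
    simp only at hle
    omega

private theorem nv_ca (hΩ : Ω.E = Set.univ) {S : Finset ι} {a : ι → E} {y : ι → E → k}
    (hy : YA R S a y) : nv (CA Ω S a) y ≤ S.card := by
  classical
  rw [nv_eq hy]
  have h0 : (univ.filter (fun s => s ∉ S ∧ a s ∉ CA Ω S a)).card = 0 := by
    rw [Finset.card_eq_zero, Finset.filter_eq_empty_iff]
    rintro s - ⟨h1, h2⟩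
    exact h2 (mem_ca hΩ a h1)
  rw [h0, add_zero]
  apply Finset.card_le_card
  intro s hs
  rw [mem_filter] at hs
  exact hs.2.1

theorem ja_dep (hΩ : Ω.E = Set.univ) (hrk : Ω.eRank = Fintype.card ι) (S : Finset ι)
    (a : ι → E) (h : ¬ (Set.InjOn a (S : Set ι)ᶜ ∧ Ω.Indep (a '' (S : Set ι)ᶜ))) (C : PF Ω)
    (hC : C.1 = CA Ω S a) : JA Ω R S a C = ⊤ := by
  classical
  rw [eq_top_iff]
  rintro f - y hy hle
  exfalso
  have h1 := nv_ca hΩ hy
  rw [← hC] at h1
  have h2 := card_compl_eq S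
  have h3 : ((univ.filter (fun s => s ∉ S)).card : ℕ∞) ≤ (rho Ω C : ℕ∞) := by
    exact_mod_cast (by omega : (univ.filter (fun s => s ∉ S)).card ≤ rho Ω C)
  rw [rho_coe, hC, ca_eRk, ← encard_compl_eq] at h3
  apply h
  have h4 := Ω.eRk_le_encard (a '' (S : Set ι)ᶜ)
  have h5 := Set.encard_image_le a ((S : Set ι)ᶜ)
  constructor
  · apply (Set.toFinite _).injOn_of_encard_image_eq
    exact le_antisymm h5 (h3.trans h4)
  · rw [Matroid.indep_iff_eRk_eq_encard_of_finite (Set.toFinite _)]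
    exact le_antisymm h4 (h5.trans h3)

theorem ja_indep (hΩ : Ω.E = Set.univ) (hrk : Ω.eRank = Fintype.card ι) (S : Finset ι)
    (a : ι → E) (h : Set.InjOn a (S : Set ι)ᶜ ∧ Ω.Indep (a '' (S : Set ι)ᶜ)) (C : PF Ω)
    (hC : C.1 = CA Ω S a) : Ω.eRk C.1 + S.card = Ω.eRank ∧ ∀ y : ι → E → k, YA R S a y →
      (Fintype.card ι ≤ rho Ω C + nv C.1 y ↔ ∀ s ∈ S, y s ∈ van k C.1) := by
  classical
  have h2 := card_compl_eq S
  have h1 : Ω.eRk C.1 = ((univ.filter (fun s => s ∉ S)).card : ℕ∞) := by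
    rw [hC, ca_eRk, h.2.eRk_eq_encard, h.1.encard_image, encard_compl_eq]
  refine ⟨?_, ?_⟩
  · rw [h1, hrk, ← h2]
    push_cast
    rfl
  · intro y hy
    have h3 : rho Ω C = (univ.filter (fun s => s ∉ S)).card := by
      have := rho_coe C
      rw [h1] at this
      exact_mod_cast this
    have h0 : (univ.filter (fun s => s ∉ S ∧ a s ∉ C.1)).card = 0 := by
      rw [Finset.card_eq_zero, Finset.filter_eq_empty_iff]
      rintro s - ⟨h4, h5⟩
      rw [hC] at h5
      exact h5 (mem_ca hΩ a h4)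
    rw [h3, nv_eq hy, h0, add_zero]
    have h4 : univ.filter (fun s => s ∈ S ∧ y s ∈ van k C.1) ⊆ S := by
      intro s hs
      rw [mem_filter] at hs
      exact hs.2.1
    constructor
    · intro h5 s hs
      have h6 : S.card ≤ (univ.filter (fun s => s ∈ S ∧ y s ∈ van k C.1)).card := by omega
      have h7 := Finset.eq_of_subset_of_card_le h4 h6
      rw [← h7, mem_filter] at hs
      exact hs.2.2
    · intro h5
      have h6 : univ.filter (fun s => s ∈ S ∧ y s ∈ van k C.1) = S := by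
        apply Finset.Subset.antisymm h4
        intro s hs
        rw [mem_filter]
        exact ⟨mem_univ _, hs, h5 s hs⟩
      rw [h6]
      omega

end Pool.Agent.W3
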