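import Pool.Agent.W3.P2Defs

/-!
The vanishing theorem for families on maximal flags.

`claim`: `F` a flat of corank `n ≥ 1`, `t ≥ 2`, `I` a set of `D` slots, `D + 1 ≤ t * n`, `Z l` multilinear
functions for the flags `l` from `F`; for all `y` with `InY R F I y0 y` the numbers `Z l y` satisfy
the cycle conditions, and `Z (G :: l) y = 0` if at least `D + 1 - t` of the arguments in `I` vanish
on `G`. Then `Z l y = 0`.

Proof. Induction on `n`; for fixed `n` induction on `D + 1 - t` (descending in `t`).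
All flags from `F` are nonempty lists, since `F ≠ univ` (`n ≥ 1`, `Ω.eRank` is the rank of `univ`).
* If `t ≥ D + 1` the last hypothesis with `J = ∅` gives the conclusion. So let `t ≤ D`.
* `n = 1`: a flag is `[univ]` (`G ⊇ F` with rank `Ω.eRank` is `univ`, it is a flat);
  `D + 1 ≤ t`, so the previous case applies.
* `n ≥ 2`. A flag from `F` is `H :: G :: l` with `F ⋖ H ⋖ G`, so `H ∈ btw Ω F G`.
  (a) For `c ≥ t`, `c ≤ 2 t` let `S(c)`: for all flags `H :: G :: l` and all `y` as above, if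
  `J ⊆ I`, `D + 1 ≤ c + |J|` and `y s ∈ van G` for `s ∈ J`, then `Z (H :: G :: l) y = 0`.
  `S(t)` is the hypothesis, because `van G ≤ van H`. `S(c) ⇒ S(c+1)` for `t ≤ c < 2 t`: if `D < c` use
  `S(c)` with `J = ∅`. Otherwise let `J' ⊆ J` with `|J'| = D - c` (if `D + 1 ≤ c + |J|` use `S(c)`; anyway
  `|J| ≥ D - c`), `I' := I \ J'`, `|I'| = c`. Apply `P2St` for `F`, `G`, `b := c - t` (`2 b + 1 ≤ c`,
  `2 ≤ t ≤ c`) to `I'`, `y0 := y`, and the family `H ↦ Z (H :: G :: l)`. Arguments `y'` with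
  `InY R F I' y y'` satisfy `InY R F I y0 y'`. Sum: second part of `Cyc`. Second hypothesis: if moreover
  `y' s ∈ van G` for some `s ∈ I'` use `S(c)` with `insert s J'`. Third hypothesis: if `J'' ⊆ I'`,
  `|J''| ≥ c - t + 1`, `y' s ∈ van H` for `s ∈ J''`, then `J'' ∪ J'` has at least `D + 1 - t` elements
  and the hypothesis on `Z` applies.
  (b) So `S(2 t)` holds. Show the hypothesis of the claim for `t + 1`: let `G :: l` be a flag from `F`,
  `J ⊆ I`, `D + 1 ≤ t + 1 + |J|`, `y s ∈ van G` for `s ∈ J`; shrink `J` to `|J| = D - t`. Apply the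
  claim for `n - 1`, the flat `G`, the same `t`, the slots `J`, `y0 := y` and `Z' l' := Z (G :: l')`
  (`|J| + 1 = D - t + 1 ≤ t (n - 1)`). Cycle conditions: first part of `Cyc` (for `y'` with
  `InY R G J y y'` we have `InY R F I y0 y'`, as `van G ≤ van F`). Last hypothesis: flag
  `G' :: l''` from `G`, `J' ⊆ J`, `|J| + 1 ≤ t + |J'|`, `y' s ∈ van G'` on `J'`: then
  `D + 1 ≤ 2 t + |J'|` and `S(2 t)` applies to `G :: G' :: l''`.
  (c) Now use the induction hypothesis for `t + 1` (`D + 1 ≤ t n ≤ (t + 1) n`).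
-/

set_option autoImplicit false

namespace Pool.Agent.W3

variable {E : Type*} [Fintype E] {Ω : Matroid E} {k : Type*} [Field k]
  {R : Submodule k (E → k)} {ι : Type*} [Fintype ι]

omit [Fintype E] in
theorem van_anti {k : Type*} [Field k] {F G : Set E} (h : F ⊆ G) : van k G ≤ van k F :=
  fun _ hy e he => hy e (h he)

omit [Fintype E] [Fintype ι] in
theorem InY.sub {F G : Set E} {I I' : Finset ι} {y0 y y' : ι → E → k} (hFG : F ⊆ G)
    (hI : I' ⊆ I) (hy : InY R F I y0 y) (hy' : InY R G I' y y') : InY R F I y0 y' := by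
  refine ⟨fun s hs => ?_, fun s hs => ?_⟩
  · rw [hy'.1 s (fun h => hs (hI h)), hy.1 s hs]
  · by_cases h : s ∈ I'
    · exact ⟨(hy'.2 s h).1, van_anti hFG (hy'.2 s h).2⟩
    · rw [hy'.1 s h]
      exact hy.2 s hs

/-- the step for the fixed family, from `S(t)` to `S(2 t)` -/
theorem claim_S (hP2 : ∀ F0 F2 : Set E, Ω.IsFlat F0 → Ω.IsFlat F2 →
      F0 ⊆ F2 → Ω.eRk F2 = Ω.eRk F0 + 2 → ∀ b, P2St Ω R ι F0 F2 b) {n t : ℕ} {F : Set E}
    (hF : Ω.IsFlat F) (ht : 2 ≤ t) {I : Finset ι} {y0 : ι → E → k}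
    {Z : List (Set E) → ML k E ι}
    (hcyc : ∀ y, InY R F I y0 y → Cyc Ω (n + 1) (fun l => Z l y) F)
    (hcond : ∀ G l, IsFlag Ω F (G :: l) → ∀ y, InY R F I y0 y →
      (∃ J ⊆ I, I.card + 1 ≤ t + J.card ∧ ∀ s ∈ J, y s ∈ van k G) → Z (G :: l) y = 0) (j : ℕ) :
    j ≤ t → ∀ H G l, IsFlag Ω F (H :: G :: l) → ∀ y, InY R F I y0 y → ∀ J ⊆ I,
      I.card + 1 ≤ t + j + J.card → (∀ s ∈ J, y s ∈ van k G) → Z (H :: G :: l) y = 0 := by
  classical
  induction j with
  | zero =>
    intro _ H G l hl y hy J hJ hc hJv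
    refine hcond H (G :: l) hl y hy ⟨J, hJ, by omega, fun s hs => ?_⟩
    exact van_anti hl.2.1.2.2.1 (hJv s hs)
  | succ j ih =>
    intro hj H G l hl y hy J hJ hc hJv
    have ih' := ih (by omega)
    by_cases h1 : I.card + 1 ≤ t + j
    · exact ih' H G l hl y hy ∅ (Finset.empty_subset _) (by simpa using h1) (by simp)
    by_cases h2 : I.card + 1 ≤ t + j + J.card
    · exact ih' H G l hl y hy J hJ h2 hJv
    have hcard : (I \ J).card = t + j := by
      rw [Finset.card_sdiff_of_subset hJ]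
      omega
    have hFG : F ⊆ G := hl.1.2.2.1.trans hl.2.1.2.2.1
    have hrk : Ω.eRk G = Ω.eRk F + 2 := by
      rw [hl.2.1.2.2.2, hl.1.2.2.2, add_assoc]
      rfl
    have key := hP2 F G hF hl.2.1.2.1 hFG hrk j (I \ J) y (fun H' => Z (H' :: G :: l))
      (by omega) (by omega) ?_ ?_ ?_
    · refine key H ?_ y ⟨fun s _ => rfl, fun s hs => hy.2 s (Finset.sdiff_subset hs)⟩
      exact Finset.mem_filter.2 ⟨Finset.mem_univ _, hl.1, hl.2.1⟩
    · intro y' hy'
      have hy2 := hy.sub (subset_refl F) Finset.sdiff_subset hy'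
      exact (hcyc y' hy2).2 G l hl.2.2 hl.2.1.2.1 hFG hrk
    · intro H' hH' y' hy' hs'
      obtain ⟨s, hs, hsv⟩ := hs'
      have hH2 := (Finset.mem_filter.1 hH').2
      have hsJ : s ∉ J := (Finset.mem_sdiff.1 hs).2
      refine ih' H' G l ⟨hH2.1, hH2.2, hl.2.2⟩ y'
        (hy.sub (subset_refl F) Finset.sdiff_subset hy') (insert s J)
        (Finset.insert_subset (Finset.sdiff_subset hs) hJ) ?_ ?_
      · rw [Finset.card_insert_of_notMem hsJ]
        omega
      · intro r hr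
        rcases Finset.mem_insert.1 hr with rfl | hr
        · exact hsv
        · rw [hy'.1 r (fun h => (Finset.mem_sdiff.1 h).2 hr)]
          exact hJv r hr
    · intro H' hH' y' hy' hs'
      obtain ⟨J', hJ'I, hJ'c, hJ'v⟩ := hs'
      have hH2 := (Finset.mem_filter.1 hH').2
      refine hcond H' (G :: l) ⟨hH2.1, hH2.2, hl.2.2⟩ y'
        (hy.sub (subset_refl F) Finset.sdiff_subset hy')
        ⟨J' ∪ J, Finset.union_subset (hJ'I.trans Finset.sdiff_subset) hJ, ?_, ?_⟩
      · have hd : Disjoint J' J := Finset.disjoint_of_subset_left hJ'I Finset.sdiff_disjoint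
        rw [Finset.card_union_of_disjoint hd]
        omega
      · intro r hr
        rcases Finset.mem_union.1 hr with hr | hr
        · exact hJ'v r hr
        · rw [hy'.1 r (fun h => (Finset.mem_sdiff.1 h).2 hr)]
          exact van_anti hH2.2.2.2.1 (hJv r hr)

theorem claim (hΩ : Ω.E = Set.univ) (hP2 : ∀ F0 F2 : Set E, Ω.IsFlat F0 → Ω.IsFlat F2 →
      F0 ⊆ F2 → Ω.eRk F2 = Ω.eRk F0 + 2 → ∀ b, P2St Ω R ι F0 F2 b) (n : ℕ) :
    ∀ (t : ℕ) (F : Set E), Ω.IsFlat F → Ω.eRk F + n = Ω.eRank → 1 ≤ n → 2 ≤ t →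
    ∀ (I : Finset ι) (y0 : ι → E → k) (Z : List (Set E) → ML k E ι), I.card + 1 ≤ t * n →
    (∀ y, InY R F I y0 y → Cyc Ω n (fun l => Z l y) F) →
    (∀ G l, IsFlag Ω F (G :: l) → ∀ y, InY R F I y0 y →
      (∃ J ⊆ I, I.card + 1 ≤ t + J.card ∧ ∀ s ∈ J, y s ∈ van k G) → Z (G :: l) y = 0) →
    ∀ l, IsFlag Ω F l → ∀ y, InY R F I y0 y → Z l y = 0 := by
  classical
  induction n with
  | zero => intro t F _ _ h; omega
  | succ n ihn =>
    intro t F hF hrk _ ht I y0 Z hI hcyc hcond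
    have inner : ∀ m t : ℕ, I.card + 1 ≤ t + m → 2 ≤ t → I.card + 1 ≤ t * (n + 1) →
        (∀ G l, IsFlag Ω F (G :: l) → ∀ y, InY R F I y0 y →
          (∃ J ⊆ I, I.card + 1 ≤ t + J.card ∧ ∀ s ∈ J, y s ∈ van k G) → Z (G :: l) y = 0) →
        ∀ l, IsFlag Ω F l → ∀ y, InY R F I y0 y → Z l y = 0 := by
      intro m
      induction m with
      | zero =>
        intro t htm ht hI hcond l hl y hy
        cases l with
        | nil =>
          exfalso
          have h1 : F = Set.univ := hl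
          rw [h1, ← hΩ, Matroid.eRk_ground] at hrk
          have h2 : Ω.eRank ≠ ⊤ := (Matroid.eRank_ne_top_iff Ω).2 inferInstance
          obtain ⟨r, hr⟩ := ENat.ne_top_iff_exists.1 h2
          rw [← hr] at hrk
          norm_cast at hrk
          omega
        | cons G l =>
          exact hcond G l hl y hy ⟨∅, Finset.empty_subset _, by simpa using htm, by simp⟩
      | succ m ihm =>
        intro t htm ht hI hcond
        by_cases hD : I.card + 1 ≤ t
        · exact ihm t (by omega) ht hI hcond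
        refine ihm (t + 1) (by omega) (by omega) (by nlinarith) ?_
        intro G l hl y hy hJ
        obtain ⟨J, hJI, hJc, hJv⟩ := hJ
        obtain ⟨J1, hJ1J, hJ1c⟩ := Finset.exists_subset_card_eq
          (show I.card - t ≤ J.card by omega)
        have hn : 1 ≤ n := by
          by_contra h
          have : n = 0 := by omega
          subst this
          omega
        have hS := claim_S hP2 hF ht hcyc hcond t le_rfl
        have hrkG : Ω.eRk G + n = Ω.eRank := by
          rw [hl.1.2.2.2, ← hrk, add_assoc, add_comm (1 : ℕ∞)]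
          norm_cast
        refine ihn t G hl.1.2.1 hrkG hn ht J1 y (fun l' => Z (G :: l')) ?_ ?_ ?_ l hl.2 y ?_
        · rw [hJ1c]
          have : t * (n + 1) = t * n + t := by ring
          omega
        · intro y' hy'
          exact (hcyc y' (hy.sub hl.1.2.2.1 (hJ1J.trans hJI) hy')).1 G hl.1
        · intro G' l' hl' y' hy' hJ'
          obtain ⟨J', hJ'1, hJ'c, hJ'v⟩ := hJ'
          refine hS G G' l' ⟨hl.1, hl'⟩ y' (hy.sub hl.1.2.2.1 (hJ1J.trans hJI) hy') J'
            (hJ'1.trans (hJ1J.trans hJI)) ?_ hJ'v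
          rw [hJ1c] at hJ'c
          omega
        · exact ⟨fun s _ => rfl, fun s hs => ⟨(hy.2 s (hJI (hJ1J hs))).1, hJv s (hJ1J hs)⟩⟩
    exact inner (I.card + 1) t (by omega) ht hI hcond

theorem topVan (hΩ : Ω.E = Set.univ) (hP2 : ∀ F0 F2 : Set E, Ω.IsFlat F0 → Ω.IsFlat F2 →
      F0 ⊆ F2 → Ω.eRk F2 = Ω.eRk F0 + 2 → ∀ b, P2St Ω R ι F0 F2 b) : TopVan Ω R ι := by
  intro n C hC hrk hn I y0 Z hI hcyc hcond l hl y hy1 hy2
  refine claim hΩ hP2 n 2 C hC hrk hn le_rfl I y0 Z (by omega) ?_ ?_ l hl y ⟨hy1, hy2⟩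
  · intro y hy
    exact hcyc y hy.1 hy.2
  · intro G l hl y hy hJ
    obtain ⟨J, hJI, hJc, hJ⟩ := hJ
    exact hcond G l hl y hy.1 hy.2 ⟨J, hJI, by omega, hJ⟩

end Pool.Agent.W3
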