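import Pool.Agent.WD.Lift

/-!
From partitions of finite sets of copies to tuples of bases.

The proof of `shareConn_of_core` is the proof of `WD.shareConn_of_rank` (file WD/Lift) with the call of
`core hNr` replaced by the hypothesis `H` (the set `S` is finite as a finite union of finsets).
-/

set_option autoImplicit false

namespace Pool.Agent.W3

open Finset Pool.Agent.WD

variable {α : Type*} [DecidableEq α] {M : Matroid α}

theorem shareConn_of_core [M.RankFinite] {d : ℕ}
    (H : ∀ q : ℕ, d ≤ q → ∀ (S : Set (α × ℕ)), S.Finite → ∀ P Q : Fin (q + 1) → Set (α × ℕ),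
      IsPartn (M.comap (Prod.fst : α × ℕ → α)) S P →
      IsPartn (M.comap (Prod.fst : α × ℕ → α)) S Q →
      Relation.ReflTransGen (Share (M.comap (Prod.fst : α × ℕ → α)) S) P Q) :
    ShareConn (fun B : Finset α => M.IsBase (B : Set α)) d := by
  classical
  intro m hm B D hB hD hc
  obtain ⟨q, rfl⟩ : ∃ q, m = q + 1 := ⟨m - 1, by omega⟩
  have hdq : d ≤ q := by omega
  obtain ⟨B', b1, b2, b3, b4⟩ := exists_lift B
  obtain ⟨D', d1, d2, d3, d4⟩ := exists_lift D
  set N := M.comap (Prod.fst : α × ℕ → α) with hN
  set S : Set (α × ℕ) := ⋃ k, (B' k : Set (α × ℕ)) with hS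
  have hSfin : S.Finite := by
    rw [hS]
    exact Set.finite_iUnion fun k => (B' k).finite_toSet
  have hPB : IsPartn N S (fun k => (B' k : Set (α × ℕ))) := by
    refine ⟨⟨?_, ?_⟩, rfl⟩
    · intro k
      rw [hN, comap_base_iff, ← coe_image, b1]
      exact ⟨hB k, b2 k⟩
    · intro i j hij
      exact disjoint_coe.2 (b3 hij)
  have hPD : IsPartn N S (fun k => (D' k : Set (α × ℕ))) := by
    refine ⟨⟨?_, ?_⟩, ?_⟩
    · intro k
      rw [hN, comap_base_iff, ← coe_image, d1]
      exact ⟨hD k, d2 k⟩
    · intro i j hij
      exact disjoint_coe.2 (d3 hij)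
    · ext ⟨z, n⟩
      rw [hS, Set.mem_iUnion, Set.mem_iUnion]
      simp only [mem_coe]
      rw [b4, d4, hc z]
  have key : ∀ R : Fin (q + 1) → Set (α × ℕ),
      Relation.ReflTransGen (Share N S) (fun k => (B' k : Set (α × ℕ))) R →
      IsPartn N S R ∧ ∃ R' : Fin (q + 1) → Finset (α × ℕ), (∀ k, (R' k : Set (α × ℕ)) = R k) ∧
        Relation.ReflTransGen (ShareStep (fun B : Finset α => M.IsBase (B : Set α))) B
          (fun k => (R' k).image Prod.fst) := by
    intro R hR
    induction hR with
    | refl =>
      refine ⟨hPB, B', fun k => rfl, ?_⟩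
      have : (fun k => (B' k).image Prod.fst) = B := funext b1
      rw [this]
    | @tail R R1 _ hst ih =>
      obtain ⟨hPR, R', r1, r2⟩ := ih
      obtain ⟨-, hP1, i, j, hij⟩ := hst
      have hfin : ∀ k, (R1 k).Finite := fun k => (hP1.1.1 k).finite
      refine ⟨hP1, fun k => (hfin k).toFinset, fun k => (hfin k).coe_toFinset, r2.tail ?_⟩
      have q1 : ∀ k, M.IsBase (((R' k).image Prod.fst : Finset α) : Set α) ∧
          Set.InjOn Prod.fst (R' k : Set (α × ℕ)) := by
        intro k
        have h1 := hPR.1.1 k
        rw [← r1 k, hN, comap_base_iff, ← coe_image] at h1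
        exact h1
      have q2 : ∀ k, M.IsBase (((hfin k).toFinset.image Prod.fst : Finset α) : Set α) ∧
          Set.InjOn Prod.fst ((hfin k).toFinset : Set (α × ℕ)) := by
        intro k
        have h1 := hP1.1.1 k
        rw [← (hfin k).coe_toFinset, hN, comap_base_iff, ← coe_image] at h1
        exact h1
      refine ⟨fun k => (q1 k).1, fun k => (q2 k).1, ?_, i, j, ?_⟩
      · apply content_of_union (fun k => (q1 k).2) (fun k => (q2 k).2)
        · intro a b hab
          have h1 := hPR.1.2 hab
          change Disjoint (R a) (R b) at h1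
          rw [← r1 a, ← r1 b, disjoint_coe] at h1
          exact h1
        · intro a b hab
          have h1 := hP1.1.2 hab
          change Disjoint (R1 a) (R1 b) at h1
          rw [← (hfin a).coe_toFinset, ← (hfin b).coe_toFinset, disjoint_coe] at h1
          exact h1
        · intro z
          have h1 : z ∈ S ↔ ∃ k, z ∈ R' k := by
            rw [← hPR.2, Set.mem_iUnion]
            simp only [← r1, mem_coe]
          have h2 : z ∈ S ↔ ∃ k, z ∈ (hfin k).toFinset := by
            rw [← hP1.2, Set.mem_iUnion]
            simp only [Set.Finite.mem_toFinset]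
          rw [← h1, ← h2]
      · change (R' i).image Prod.fst = (hfin j).toFinset.image Prod.fst
        congr 1
        apply coe_injective
        rw [r1 i, (hfin j).coe_toFinset]
        exact hij
  obtain ⟨-, R', r1, r2⟩ := key _ (H q hdq S hSfin _ _ hPB hPD)
  have h1 : R' = D' := by
    funext k
    exact coe_injective (r1 k)
  rw [h1] at r2
  have h2 : (fun k => (D' k).image Prod.fst) = D := funext d1
  rw [h2] at r2
  exact r2


end Pool.Agent.W3
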