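import Pool.Agent.W3.AdCor

/-!
Mixing of two states which are adapted to the same flat.

Proofs.
* `mix`: `A'' l := (s.A l ∩ F) ∪ (s'.A l \ F)` is a base of `N`: `N.closure (s'.A l \ F)` contains `Fᶜ`
  (`span_compl`), so it contains `s.A l \ F`, so `A'' l` spans `s.A l` and hence everything; its size is
  `|s.A l ∩ F| + |s'.A l \ F| = |s.A l ∩ F| + |s.A l \ F| = |s.A l|` (`card_le_of_ad` twice), so it is a
  base (a spanning set whose size is the rank). Disjointness and union are clear. If `G ⊆ F` and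
  `s` is adapted to `G` then `t.B ∩ G = s.B ∩ G`. If `F ⊆ G` and `s'` is adapted to `G` then
  `t.B ∩ G = (s.B ∩ F) ∪ (s'.B ∩ G \ F)` has the size of `s'.B ∩ G` (as `|s.B ∩ F| = eRk F = |s'.B ∩ F|`);
  use `ad_iff_card`.
* `ad_of_agree`: use `ad_iff_card`; if `G ⊆ F` then `t.B ∩ G = s.B ∩ G`; if `F' ⊆ G` then
  `|t.B ∩ G| = |t.B ∩ F'| + |t.B ∩ G \ F'| = |s.B ∩ F'| + |s.B ∩ G \ F'|`.
* `state_with`: `I := s.B ∩ F` is a basis of `F`, `insert e I` is an independent subset of `F'` of size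
  `eRk F'`, so a basis of `F'`; `insert e I ∪ (s.B \ F')` is a base of `Ω` (it spans `F'` and
  `s.B \ F'`, so it spans, and it has the right size). Let `u` be a state with this base
  (`hc.base`); it is adapted to `F` and `F'`. Let `t1` be the mixture of `s` (inside `F`) and `u` (outside
  `F`), `t` the mixture of `t1` (inside `F'`) and `s` (outside `F'`).
-/

set_option autoImplicit false

namespace Pool.Agent.W3

open Set

variable {E : Type*} {N Ω : Matroid E} {q : ℕ}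

theorem base_of_spanning_card [Finite E] {M : Matroid E} {S B : Set E} (hB : M.IsBase B)
    (hS : M.Spanning S) (h : S.ncard ≤ B.ncard) : M.IsBase S := by
  obtain ⟨B', hB', hsub⟩ := hS.exists_isBase_subset
  have h1 : B'.ncard = B.ncard := hB'.ncard_eq_ncard_of_isBase hB
  have h2 : B' = S := Set.eq_of_subset_of_ncard_le hsub (by omega) (Set.toFinite S)
  rwa [← h2]

theorem ncard_inter_add_diff [Finite E] (X F : Set E) :
    (X ∩ F).ncard + (X \ F).ncard = X.ncard :=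
  Set.ncard_inter_add_ncard_sdiff_eq_ncard X F (Set.toFinite X)

theorem ncard_mix [Finite E] (X Y F : Set E) :
    ((X ∩ F) ∪ (Y \ F)).ncard = (X ∩ F).ncard + (Y \ F).ncard := by
  apply Set.ncard_union_eq _ (Set.toFinite _) (Set.toFinite _)
  rw [Set.disjoint_left]
  rintro x ⟨_, hx⟩ ⟨_, hx'⟩
  exact hx' hx

theorem card_basis_eq [Finite E] {M : Matroid E} {I J F : Set E} (h1 : M.IsBasis I F)
    (h2 : M.IsBasis J F) : I.ncard = J.ncard := by
  have h : I.encard = J.encard := by rw [h1.encard_eq_eRk, h2.encard_eq_eRk]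
  rw [← (Set.toFinite I).cast_ncard_eq, ← (Set.toFinite J).cast_ncard_eq] at h
  exact_mod_cast h

theorem mix [Finite E] (hc : Compl N Ω q) (s s' : St N q) {F : Set E} (hs : s.Ad Ω F)
    (hs' : s'.Ad Ω F) : ∃ t : St N q, t.B = (s.B ∩ F) ∪ (s'.B \ F) ∧
      (∀ l, t.A l = (s.A l ∩ F) ∪ (s'.A l \ F)) ∧ (∀ G, G ⊆ F → s.Ad Ω G → t.Ad Ω G) ∧
      (∀ G, F ⊆ G → s'.Ad Ω G → t.Ad Ω G) := by
  obtain ⟨⟨hb1, hd1⟩, hdB1, hu1⟩ := s.st
  obtain ⟨⟨hb2, hd2⟩, hdB2, hu2⟩ := s'.st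
  have hbase : ∀ l, N.IsBase ((s.A l ∩ F) ∪ (s'.A l \ F)) := by
    intro l
    refine base_of_spanning_card (hb2 l) ?_ ?_
    · have hg : (s.A l ∩ F) ∪ (s'.A l \ F) ⊆ N.E := by
        rw [hc.groundN]
        exact Set.subset_univ _
      rw [Matroid.spanning_iff_ground_subset_closure hg, ← (hb1 l).closure_eq]
      apply Matroid.closure_subset_closure_of_subset_closure
      intro x hx
      by_cases hxF : x ∈ F
      · exact N.subset_closure _ hg (Or.inl ⟨hx, hxF⟩)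
      · exact N.closure_subset_closure Set.subset_union_right (span_compl hc s' hs' l hxF)
    · rw [ncard_mix]
      have h1 := card_le_of_ad hc s s' hs l l
      have h3 := ncard_inter_add_diff (s'.A l) F
      omega
  have hst : IsState N ((s.B ∩ F) ∪ (s'.B \ F)) (fun l => (s.A l ∩ F) ∪ (s'.A l \ F)) := by
    refine ⟨⟨hbase, ?_⟩, ?_, ?_⟩
    · intro l l' hl
      rw [Function.onFun, Set.disjoint_left]
      have e1 := Set.disjoint_left.mp (hd1 hl)
      have e2 := Set.disjoint_left.mp (hd2 hl)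
      rintro x (⟨h1, h2⟩ | ⟨h1, h2⟩) (⟨h3, h4⟩ | ⟨h3, h4⟩)
      · exact e1 h1 h3
      · exact h4 h2
      · exact h2 h4
      · exact e2 h1 h3
    · intro l
      rw [Set.disjoint_left]
      have e1 := Set.disjoint_left.mp (hdB1 l)
      have e2 := Set.disjoint_left.mp (hdB2 l)
      rintro x (⟨h1, h2⟩ | ⟨h1, h2⟩) (⟨h3, h4⟩ | ⟨h3, h4⟩)
      · exact e1 h1 h3
      · exact h4 h2
      · exact h2 h4
      · exact e2 h1 h3
    · ext x
      simp only [Set.mem_union, Set.mem_iUnion, Set.mem_univ, iff_true]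
      by_cases hxF : x ∈ F
      · have hx : x ∈ s.B ∪ ⋃ l, s.A l := by rw [hu1]; exact Set.mem_univ x
        rcases hx with hx | hx
        · exact Or.inl (Or.inl ⟨hx, hxF⟩)
        · obtain ⟨l, hl⟩ := Set.mem_iUnion.mp hx
          exact Or.inr ⟨l, Or.inl ⟨hl, hxF⟩⟩
      · have hx : x ∈ s'.B ∪ ⋃ l, s'.A l := by rw [hu2]; exact Set.mem_univ x
        rcases hx with hx | hx
        · exact Or.inl (Or.inr ⟨hx, hxF⟩)
        · obtain ⟨l, hl⟩ := Set.mem_iUnion.mp hx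
          exact Or.inr ⟨l, Or.inr ⟨hl, hxF⟩⟩
  refine ⟨⟨_, _, hst⟩, rfl, fun l => rfl, ?_, ?_⟩
  · intro G hGF hG
    refine ⟨hG.1, ?_⟩
    have : ((s.B ∩ F) ∪ (s'.B \ F)) ∩ G = s.B ∩ G := by
      ext x
      constructor
      · rintro ⟨⟨h1, _⟩ | ⟨_, h2⟩, h3⟩
        · exact ⟨h1, h3⟩
        · exact absurd (hGF h3) h2
      · rintro ⟨h1, h2⟩
        exact ⟨Or.inl ⟨h1, hGF h2⟩, h2⟩
    simp only [this]
    exact hG.2
  · intro G hFG hG
    rw [ad_iff_card hc _ hG.1]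
    have h0 := (ad_iff_card hc s' hG.1).mp hG
    have e1 : ((s.B ∩ F) ∪ (s'.B \ F)) ∩ G = (s.B ∩ F) ∪ ((s'.B ∩ G) \ F) := by
      ext x
      constructor
      · rintro ⟨⟨h1, h2⟩ | ⟨h1, h2⟩, h3⟩
        · exact Or.inl ⟨h1, h2⟩
        · exact Or.inr ⟨⟨h1, h3⟩, h2⟩
      · rintro (⟨h1, h2⟩ | ⟨⟨h1, h2⟩, h3⟩)
        · exact ⟨Or.inl ⟨h1, h2⟩, hFG h2⟩
        · exact ⟨Or.inr ⟨h1, h3⟩, h2⟩
    have e2 : (((s.B ∩ F) ∪ (s'.B \ F)) ∩ G).ncard = (s'.B ∩ G).ncard := by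
      rw [e1, ncard_mix, ← ncard_inter_add_diff (s'.B ∩ G) F]
      congr 1
      have e3 : s'.B ∩ G ∩ F = s'.B ∩ F := by
        ext x
        constructor
        · rintro ⟨⟨h1, _⟩, h3⟩
          exact ⟨h1, h3⟩
        · rintro ⟨h1, h2⟩
          exact ⟨⟨h1, hFG h2⟩, h2⟩
      rw [e3]
      exact card_basis_eq hs.2 hs'.2
    simp only [e2]
    exact h0

theorem ad_of_agree [Finite E] (hc : Compl N Ω q) {F F' G : Set E} {s t : St N q}
    (hFF' : F ⊆ F') (hF : s.Ad Ω F) (hF' : s.Ad Ω F') (ht : t.Ad Ω F) (ht' : t.Ad Ω F')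
    (h : AgreeOff s t (F' \ F)) (hG : s.Ad Ω G) (hGF : G ⊆ F ∨ F' ⊆ G) : t.Ad Ω G := by
  have hag : ∀ x, x ∉ F' \ F → (x ∈ s.B ↔ x ∈ t.B) := by
    intro x hx
    have h1 := congrArg (fun S : Set E => x ∈ S) h.1
    simp only [Set.mem_sdiff, eq_iff_iff] at h1
    constructor
    · intro hxs
      exact (h1.mp ⟨hxs, hx⟩).1
    · intro hxt
      exact (h1.mpr ⟨hxt, hx⟩).1
  rcases hGF with hGF | hGF
  · refine ⟨hG.1, ?_⟩
    have e : t.B ∩ G = s.B ∩ G := by
      ext x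
      constructor
      · rintro ⟨h1, h2⟩
        exact ⟨(hag x (fun hx => hx.2 (hGF h2))).mpr h1, h2⟩
      · rintro ⟨h1, h2⟩
        exact ⟨(hag x (fun hx => hx.2 (hGF h2))).mp h1, h2⟩
    rw [e]
    exact hG.2
  · rw [ad_iff_card hc _ hG.1]
    have h0 := (ad_iff_card hc s hG.1).mp hG
    have e2 : (t.B ∩ G).ncard = (s.B ∩ G).ncard := by
      rw [← ncard_inter_add_diff (t.B ∩ G) F', ← ncard_inter_add_diff (s.B ∩ G) F']
      have e3 : t.B ∩ G ∩ F' = t.B ∩ F' := by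
        ext x
        constructor
        · rintro ⟨⟨h1, _⟩, h3⟩
          exact ⟨h1, h3⟩
        · rintro ⟨h1, h2⟩
          exact ⟨⟨h1, hGF h2⟩, h2⟩
      have e4 : s.B ∩ G ∩ F' = s.B ∩ F' := by
        ext x
        constructor
        · rintro ⟨⟨h1, _⟩, h3⟩
          exact ⟨h1, h3⟩
        · rintro ⟨h1, h2⟩
          exact ⟨⟨h1, hGF h2⟩, h2⟩
      have e5 : (t.B ∩ G) \ F' = (s.B ∩ G) \ F' := by
        ext x
        constructor
        · rintro ⟨⟨h1, h2⟩, h3⟩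
          exact ⟨⟨(hag x (fun hx => h3 hx.1)).mpr h1, h2⟩, h3⟩
        · rintro ⟨⟨h1, h2⟩, h3⟩
          exact ⟨⟨(hag x (fun hx => h3 hx.1)).mp h1, h2⟩, h3⟩
      rw [e3, e4, e5, card_basis_eq ht'.2 hF'.2]
    rw [e2]
    exact h0

theorem state_with [Finite E] (hc : Compl N Ω q) {F F' : Set E} (hcov : Cov Ω F F')
    (s : St N q) (hF : s.Ad Ω F) (hF' : s.Ad Ω F') {e : E} (he : e ∈ F' \ F) :
    ∃ t : St N q, t.Ad Ω F ∧ t.Ad Ω F' ∧ e ∈ t.B ∧ AgreeOff s t (F' \ F) := by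
  obtain ⟨hf1, hf2, hsub, hrk⟩ := hcov
  obtain ⟨he1, he2⟩ := he
  have hsB : Ω.IsBase s.B := (hc.base s.B).mpr ⟨s.A, s.st⟩
  have hground : ∀ X : Set E, X ⊆ Ω.E := by
    intro X
    rw [hc.ground]
    exact Set.subset_univ X
  -- the basis of `F'`
  have hcl : Ω.closure (s.B ∩ F) = F := by
    rw [hF.2.closure_eq_closure, hf1.closure]
  have heI : e ∉ s.B ∩ F := fun h => he2 h.2
  have hind : Ω.Indep (insert e (s.B ∩ F)) := by
    rw [hF.2.indep.insert_indep_iff_of_notMem heI, hcl]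
    exact ⟨hground {e} rfl, he2⟩
  have hsubF' : insert e (s.B ∩ F) ⊆ F' := by
    intro x hx
    rcases hx with rfl | hx
    · exact he1
    · exact hsub hx.2
  have hcardI : (insert e (s.B ∩ F)).ncard = (s.B ∩ F).ncard + 1 :=
    Set.ncard_insert_of_notMem heI (Set.toFinite _)
  have hrkF : ((s.B ∩ F).ncard : ℕ∞) = Ω.eRk F := by
    rw [(Set.toFinite _).cast_ncard_eq, hF.2.encard_eq_eRk]
  have hrkF' : ((s.B ∩ F').ncard : ℕ∞) = Ω.eRk F' := by
    rw [(Set.toFinite _).cast_ncard_eq, hF'.2.encard_eq_eRk]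
  have hcardeq : (s.B ∩ F').ncard = (s.B ∩ F).ncard + 1 := by
    rw [← hrkF, ← hrkF'] at hrk
    exact_mod_cast hrk
  have hbas : Ω.IsBasis (insert e (s.B ∩ F)) F' := by
    obtain ⟨J, hJ, hIJ⟩ := hind.subset_isBasis_of_subset hsubF' (hground F')
    have h1 : J.ncard = (s.B ∩ F').ncard := card_basis_eq hJ hF'.2
    have h2 : insert e (s.B ∩ F) = J :=
      Set.eq_of_subset_of_ncard_le hIJ (by omega) (Set.toFinite J)
    rwa [h2]
  -- the new base
  have hdisj : Disjoint (insert e (s.B ∩ F)) (s.B \ F') := by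
    rw [Set.disjoint_left]
    intro x hx hx'
    exact hx'.2 (hsubF' hx)
  have hB0 : Ω.IsBase (insert e (s.B ∩ F) ∪ (s.B \ F')) := by
    refine base_of_spanning_card hsB ?_ ?_
    · rw [Matroid.spanning_iff_ground_subset_closure (hground _), ← hsB.closure_eq]
      apply Matroid.closure_subset_closure_of_subset_closure
      intro x hx
      by_cases hxF : x ∈ F'
      · have h1 : x ∈ Ω.closure (insert e (s.B ∩ F)) := by
          rw [hbas.closure_eq_closure, hf2.closure]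
          exact hxF
        exact Ω.closure_subset_closure Set.subset_union_left h1
      · exact Ω.subset_closure _ (hground _) (Or.inr ⟨hx, hxF⟩)
    · rw [Set.ncard_union_eq hdisj (Set.toFinite _) (Set.toFinite _), hcardI]
      have := ncard_inter_add_diff s.B F'
      omega
  obtain ⟨Au, hAu⟩ := (hc.base _).mp hB0
  let u : St N q := ⟨_, Au, hAu⟩
  have huB : u.B = insert e (s.B ∩ F) ∪ (s.B \ F') := rfl
  have huF : u.Ad Ω F := by
    refine ⟨hf1, ?_⟩
    have : u.B ∩ F = s.B ∩ F := by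
      rw [huB]
      ext x
      constructor
      · rintro ⟨(rfl | h1) | h1, h2⟩
        · exact absurd h2 he2
        · exact h1
        · exact absurd (hsub h2) h1.2
      · rintro ⟨h1, h2⟩
        exact ⟨Or.inl (Or.inr ⟨h1, h2⟩), h2⟩
    rw [this]
    exact hF.2
  have huF' : u.Ad Ω F' := by
    refine ⟨hf2, ?_⟩
    have : u.B ∩ F' = insert e (s.B ∩ F) := by
      rw [huB]
      ext x
      constructor
      · rintro ⟨h1 | h1, h2⟩
        · exact h1
        · exact absurd h2 h1.2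
      · intro h1
        exact ⟨Or.inl h1, hsubF' h1⟩
    rw [this]
    exact hbas
  obtain ⟨t1, ht1B, ht1A, ht1a, ht1b⟩ := mix hc s u hF huF
  have ht1F : t1.Ad Ω F := ht1a F subset_rfl hF
  have ht1F' : t1.Ad Ω F' := ht1b F' hsub huF'
  obtain ⟨t, htB, htA, hta, htb⟩ := mix hc t1 s ht1F' hF'
  refine ⟨t, hta F hsub ht1F, hta F' subset_rfl ht1F', ?_, ?_, ?_⟩
  · rw [htB, ht1B, huB]
    exact Or.inl ⟨Or.inr ⟨Or.inl (Or.inl rfl), he2⟩, he1⟩
  · rw [htB, ht1B]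
    ext x
    constructor
    · rintro ⟨h1, h2⟩
      refine ⟨?_, h2⟩
      by_cases hx' : x ∈ F'
      · by_cases hx : x ∈ F
        · exact Or.inl ⟨Or.inl ⟨h1, hx⟩, hx'⟩
        · exact absurd ⟨hx', hx⟩ h2
      · exact Or.inr ⟨h1, hx'⟩
    · rintro ⟨h1, h2⟩
      refine ⟨?_, h2⟩
      rcases h1 with ⟨⟨h3, _⟩ | ⟨_, h4⟩, h5⟩ | ⟨h3, _⟩
      · exact h3
      · exact absurd ⟨h5, h4⟩ h2
      · exact h3
  · intro l
    rw [htA, ht1A]
    ext x
    constructor
    · rintro ⟨h1, h2⟩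
      refine ⟨?_, h2⟩
      by_cases hx' : x ∈ F'
      · by_cases hx : x ∈ F
        · exact Or.inl ⟨Or.inl ⟨h1, hx⟩, hx'⟩
        · exact absurd ⟨hx', hx⟩ h2
      · exact Or.inr ⟨h1, hx'⟩
    · rintro ⟨h1, h2⟩
      refine ⟨?_, h2⟩
      rcases h1 with ⟨⟨h3, _⟩ | ⟨_, h4⟩, h5⟩ | ⟨h3, _⟩
      · exact h3
      · exact absurd ⟨h5, h4⟩ h2
      · exact h3

end Pool.Agent.W3
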