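import Pool.Agent.W3.Defs

/-!
The linear matroid `N` of the vectors `v e`: closures and linear relations.

Proofs.
* `mem_rel`: `Fintype.linearCombination_apply`.
* `mem_closure_iff`: for `X : Set E` take a basis `I` of `X` (`Matroid.exists_isBasis`): `v` is linearly
  independent on `I`, and `e ∈ closure X = closure I` iff `e ∈ I` or `insert e I` is dependent
  (`Indep.mem_closure_iff`, `Indep.mem_closure_iff_of_notMem`), i.e. iff `v e ∈ span (v '' I)`
  (`LinearIndepOn.insert` / `linearIndepOn_insert`); `span (v '' I) = span (v '' X)` because every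
  `e ∈ X` is in the closure of `I` (apply the first part for `I`).
* `exists_circ`: `v y` is a combination of the `v e`, `e ∈ X`
  (e.g. `Submodule.mem_span_image_iff_exists_fun` or `Finsupp.mem_span_image_iff_linearCombination`);
  `L := Pi.single y 1 - (the coefficients)`.
* `rel_eq_zero`: linear independence (`linearIndepOn_iff`, or `linearIndepOn_finset_iff`).
* `circ_unique`: `L - L'` is a relation with value `0` at `y`, so supported in `A`.
* `base_of_circ`: `v y` is a combination of the `v a`, `a ∈ A`, with a nonzero coefficient at `e`. So `e`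
  is in the closure of `insert y (A \ {e})`, which therefore spans; its size is that of `A`.
  (e.g. `Matroid.IsBase.exchange_isBase_of_indep`; `y ∉ closure (A \ {e})` because otherwise there would
  be a second circuit relation, contradicting `circ_unique`.)
* `rel_sum`: the difference of `L` and the sum is a relation supported in `A`, so it is zero. Here `X`
  is the support of `L` outside `A`; for `e ∉ X` the term is zero as `L e = 0`.
-/

set_option autoImplicit false

namespace Pool.Agent.W3

open Set

variable {E : Type*} [Fintype E] {N : Matroid E} {k T : Type*} [Field k] [AddCommGroup T]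
  [Module k T] {v : E → T}

theorem mem_rel (L : E → k) : L ∈ Rel k v ↔ ∑ e, L e • v e = 0 := by
  unfold Rel
  rw [LinearMap.mem_ker, Fintype.linearCombination_apply]

omit [Fintype E] in
private theorem mem_closure_indep (hN : N.E = univ) (hv : IsRep k N v) {I : Set E} (hI : N.Indep I)
    (e : E) : e ∈ N.closure I ↔ v e ∈ Submodule.span k (v '' I) := by
  by_cases he : e ∈ I
  · exact ⟨fun _ => Submodule.subset_span ⟨e, he, rfl⟩,
      fun _ => N.subset_closure _ (by rw [hN]; exact Set.subset_univ _) he⟩
  · rw [hI.mem_closure_iff_of_notMem he]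
    have h1 : N.Indep (insert e I) ↔ v e ∉ Submodule.span k (v '' I) := by
      rw [hv, linearIndepOn_insert he]
      exact ⟨fun h => h.2, fun h => ⟨(hv I).1 hI, h⟩⟩
    have h2 : insert e I ⊆ N.E := by rw [hN]; exact Set.subset_univ _
    rw [← N.not_indep_iff h2, h1, not_not]

theorem mem_closure_iff (hN : N.E = univ) (hv : IsRep k N v) (X : Set E) (e : E) :
    e ∈ N.closure X ↔ v e ∈ Submodule.span k (v '' X) := by
  have hX : X ⊆ N.E := by rw [hN]; exact Set.subset_univ _
  obtain ⟨I, hI⟩ := N.exists_isBasis X hX
  have h1 : Submodule.span k (v '' X) = Submodule.span k (v '' I) := by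
    apply le_antisymm
    · rw [Submodule.span_le]
      rintro _ ⟨x, hx, rfl⟩
      apply (mem_closure_indep hN hv hI.indep x).1
      rw [hI.closure_eq_closure]
      exact N.subset_closure X hX hx
    · exact Submodule.span_mono (Set.image_mono hI.subset)
  rw [h1, ← hI.closure_eq_closure]
  exact mem_closure_indep hN hv hI.indep e

theorem exists_circ (hN : N.E = univ) (hv : IsRep k N v) {X : Set E} {y : E}
    (hy : y ∈ N.closure X) (hyX : y ∉ X) : ∃ L, Circ (Rel k v) X y L := by
  classical
  rw [mem_closure_iff hN hv, Finsupp.mem_span_image_iff_linearCombination] at hy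
  obtain ⟨l, hl, hly⟩ := hy
  have hl0 : ∀ e, e ∉ X → l e = 0 := by
    intro e he
    by_contra hn
    exact he (hl (Finsupp.mem_support_iff.2 hn))
  have hsum : ∑ e, l e • v e = v y := by
    rw [← hly, Finsupp.linearCombination_apply, Finsupp.sum_fintype]
    intro i
    exact zero_smul _ _
  refine ⟨fun e => (if e = y then 1 else 0) - l e, ?_, ?_, ?_⟩
  · rw [mem_rel]
    simp only [sub_smul, Finset.sum_sub_distrib, hsum, ite_smul, one_smul, zero_smul,
      Finset.sum_ite_eq', Finset.mem_univ, if_true, sub_self]
  · simp [hl0 y hyX]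
  · intro e he hey
    simp [hey, hl0 e he]

theorem rel_eq_zero (hv : IsRep k N v) {A : Set E} (hA : N.Indep A) {L : E → k}
    (hL : L ∈ Rel k v) (hs : ∀ e, e ∉ A → L e = 0) : L = 0 := by
  classical
  have h1 := linearIndepOn_iff.1 ((hv A).1 hA)
  have h2 := h1 (Finsupp.equivFunOnFinite.symm L) (by
    intro e he
    by_contra hn
    rw [Finset.mem_coe, Finsupp.mem_support_iff] at he
    exact he (hs e hn)) (by
    rw [Finsupp.linearCombination_apply, Finsupp.sum_fintype]
    · exact (mem_rel L).1 hL
    · intro i
      exact zero_smul _ _)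
  funext e
  exact DFunLike.congr_fun h2 e

theorem circ_unique (hv : IsRep k N v) {A : Set E} (hA : N.Indep A) {y : E}
    {L L' : E → k} (hL : Circ (Rel k v) A y L) (hL' : Circ (Rel k v) A y L') : L = L' := by
  have h : L - L' = 0 := by
    apply rel_eq_zero hv hA (Submodule.sub_mem _ hL.mem hL'.mem)
    intro e he
    rw [Pi.sub_apply]
    by_cases hey : e = y
    · rw [hey, hL.one, hL'.one, sub_self]
    · rw [hL.supp e he hey, hL'.supp e he hey, sub_self]
  exact sub_eq_zero.1 h

theorem base_of_circ (hN : N.E = univ) (hv : IsRep k N v) {A : Set E} (hA : N.IsBase A)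
    {y e : E} (hy : y ∉ A) (he : e ∈ A) {L : E → k} (hL : Circ (Rel k v) A y L)
    (hLe : L e ≠ 0) : N.IsBase (insert y (A \ {e})) := by
  have hi : N.Indep (A \ {e}) := hA.indep.subset Set.sdiff_subset
  have hy' : y ∉ A \ {e} := fun h => hy h.1
  apply hA.exchange_isBase_of_indep hy
  have h1 : y ∉ N.closure (A \ {e}) := by
    intro h
    obtain ⟨L', hL'⟩ := exists_circ hN hv h hy'
    have h2 : Circ (Rel k v) A y L' :=
      ⟨hL'.mem, hL'.one, fun x hx hxy => hL'.supp x (fun h => hx h.1) hxy⟩
    have h3 := circ_unique hv hA.indep hL h2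
    apply hLe
    rw [h3]
    apply hL'.supp e (fun h => h.2 rfl)
    rintro rfl
    exact hy he
  rw [hi.mem_closure_iff_of_notMem hy'] at h1
  exact (N.not_dep_iff (by rw [hN]; exact Set.subset_univ _)).1 h1

theorem rel_sum (hv : IsRep k N v) {A : Set E} (hA : N.Indep A) (c : E → E → k)
    {L : E → k} (hL : L ∈ Rel k v) (hc : ∀ e, e ∉ A → L e ≠ 0 → Circ (Rel k v) A e (c e)) :
    L = ∑ e, (open Classical in if e ∈ A then (0 : E → k) else L e • c e) := by
  classical
  rw [← sub_eq_zero]
  apply rel_eq_zero hv hA
  · apply Submodule.sub_mem _ hL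
    apply Submodule.sum_mem
    intro e _
    by_cases he : e ∈ A
    · rw [if_pos he]
      exact Submodule.zero_mem _
    · rw [if_neg he]
      by_cases hLe : L e = 0
      · rw [hLe, zero_smul]
        exact Submodule.zero_mem _
      · exact Submodule.smul_mem _ _ (hc e he hLe).mem
  · intro x hx
    rw [Pi.sub_apply, Finset.sum_apply, Finset.sum_eq_single x]
    · rw [if_neg hx, Pi.smul_apply, smul_eq_mul]
      by_cases hLx : L x = 0
      · rw [hLx, zero_mul, sub_zero]
      · rw [(hc x hx hLx).one, mul_one, sub_self]
    · intro e _ hex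
      by_cases he : e ∈ A
      · rw [if_pos he]
        rfl
      · rw [if_neg he, Pi.smul_apply, smul_eq_mul]
        by_cases hLe : L e = 0
        · rw [hLe, zero_mul]
        · rw [(hc e he hLe).supp x hx hex.symm, mul_zero]
    · intro h
      exact absurd (Finset.mem_univ x) h

end Pool.Agent.W3
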