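import Pool.Agent.W3.SpanCirc
import Pool.Agent.WD.Core

/-!
The class function `chi` on the bases of `N` and the function `gf` on ordered bases of `Ω`.

`chi k N P0 B` is one if `B` is a member of a partition of `univ` into bases which can be reached from
the partition `P0` by a chain of partitions which successively share a member, otherwise zero.

Proofs.
* `chi_eq`: if `P i` is a member of a partition `P'` which can be reached from `P0`, then `P'` and `P`
  share the member `P i`, so `P` can be reached, and `P j` is a member of `P` (`WD.Share`,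
  `Relation.ReflTransGen.tail`). So both values are one or both are zero. Note: `P'` is a partition,
  because either `P' = P0` (hypothesis `h0`) or it is the end of a `Share` step
  (`Relation.ReflTransGen.cases_tail`).
* `chi_self`: `Relation.ReflTransGen.refl`. `chi_ne`: if `chi B ≠ 0`, unfold.
* `partn_of_state`: see `WD.Core`, `core_isPartn` (private there).
* `state_of_partn`: see `core_isPart` there.
* `base_of_det`: `Module.Basis.det` (`is_basis_iff_det` or `Basis.is_basis_iff_det`): if the determinant
  is not zero then `v ∘ a` is linearly independent and spans. So `a` is injective, `range a` is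
  independent (`IsRep`; `LinearIndepOn` on the range of an injective map), and every `e` is in its
  closure (`mem_closure_iff`).
* `det_of_base`: if `a` is injective and `range a` is a base of `N` then the determinant is not zero:
  `v ∘ a` is linearly independent with `card ι = finrank` members, so it spans.
-/

set_option autoImplicit false

namespace Pool.Agent.W3

open Set

variable {E : Type*} {N Ω : Matroid E} {q : ℕ} {k T : Type*} [Field k]
  [AddCommGroup T] [Module k T] {v : E → T} {ι : Type*} [Fintype ι] [DecidableEq ι]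

open Classical in
/-- The class function. -/
noncomputable def chi (k : Type*) [Field k] (N : Matroid E) {q : ℕ} (P0 : Fin (q + 1) → Set E)
    (B : Set E) : k :=
  if ∃ P : Fin (q + 1) → Set E, Relation.ReflTransGen (Pool.Agent.WD.Share N univ) P0 P ∧
    ∃ i, P i = B then 1 else 0

open Classical in
/-- The function on ordered bases of `Ω`. -/
noncomputable def gf (N Ω : Matroid E) {q : ℕ} (P0 : Fin (q + 1) → Set E) (v : E → T)
    (b : Module.Basis ι k T) (a : ι → E) : k :=
  if Function.Injective a ∧ Ω.IsBase (range a) then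
    chi k N P0 (range a) * b.det (fun s => v (a s)) else 0

namespace LLD

theorem partn_of_reach {P0 P' : Fin (q + 1) → Set E} (h0 : Pool.Agent.WD.IsPartn N univ P0)
    (h : Relation.ReflTransGen (Pool.Agent.WD.Share N univ) P0 P') :
    Pool.Agent.WD.IsPartn N univ P' := by
  rcases Relation.ReflTransGen.cases_tail h with h | ⟨c, _, hc⟩
  · rw [h]
    exact h0
  · exact hc.2.1

theorem reach_of {P0 P : Fin (q + 1) → Set E} (h0 : Pool.Agent.WD.IsPartn N univ P0)
    (hP : Pool.Agent.WD.IsPartn N univ P) (i : Fin (q + 1))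
    (h : ∃ P' : Fin (q + 1) → Set E, Relation.ReflTransGen (Pool.Agent.WD.Share N univ) P0 P' ∧
      ∃ i', P' i' = P i) : Relation.ReflTransGen (Pool.Agent.WD.Share N univ) P0 P := by
  obtain ⟨P', h1, i', h2⟩ := h
  exact h1.tail ⟨partn_of_reach h0 h1, hP, i', i, h2⟩

end LLD

omit [Fintype ι] [DecidableEq ι] in
theorem chi_eq {P0 P : Fin (q + 1) → Set E} (h0 : Pool.Agent.WD.IsPartn N univ P0)
    (hP : Pool.Agent.WD.IsPartn N univ P) (i j : Fin (q + 1)) :
    chi k N P0 (P i) = chi k N P0 (P j) := by
  have key : ∀ i j : Fin (q + 1), (∃ P' : Fin (q + 1) → Set E,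
      Relation.ReflTransGen (Pool.Agent.WD.Share N univ) P0 P' ∧ ∃ i', P' i' = P i) →
      ∃ P' : Fin (q + 1) → Set E,
        Relation.ReflTransGen (Pool.Agent.WD.Share N univ) P0 P' ∧ ∃ i', P' i' = P j :=
    fun i j h => ⟨P, LLD.reach_of h0 hP i h, j, rfl⟩
  unfold chi
  by_cases h : ∃ P' : Fin (q + 1) → Set E,
      Relation.ReflTransGen (Pool.Agent.WD.Share N univ) P0 P' ∧ ∃ i', P' i' = P i
  · rw [if_pos h, if_pos (key i j h)]
  · rw [if_neg h, if_neg (fun h' => h (key j i h'))]

omit [Fintype ι] [DecidableEq ι] in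
theorem chi_self (P0 : Fin (q + 1) → Set E) (i : Fin (q + 1)) : chi k N P0 (P0 i) = 1 := by
  unfold chi
  rw [if_pos ⟨P0, Relation.ReflTransGen.refl, i, rfl⟩]

omit [Fintype ι] [DecidableEq ι] in
theorem reach_of_chi {P0 P : Fin (q + 1) → Set E} (h0 : Pool.Agent.WD.IsPartn N univ P0)
    (hP : Pool.Agent.WD.IsPartn N univ P) (i : Fin (q + 1)) (h : chi k N P0 (P i) ≠ 0) :
    Relation.ReflTransGen (Pool.Agent.WD.Share N univ) P0 P := by
  unfold chi at h
  by_cases h1 : ∃ P' : Fin (q + 1) → Set E,
      Relation.ReflTransGen (Pool.Agent.WD.Share N univ) P0 P' ∧ ∃ i', P' i' = P i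
  · exact LLD.reach_of h0 hP i h1
  · rw [if_neg h1] at h
    exact absurd rfl h

theorem partn_of_state (s : St N q) (hB : N.IsBase s.B) :
    Pool.Agent.WD.IsPartn N univ (Fin.cons s.B s.A : Fin (q + 1) → Set E) := by
  obtain ⟨h2, h3, h4⟩ := s.st
  refine ⟨⟨?_, ?_⟩, ?_⟩
  · intro l
    rcases Fin.eq_zero_or_eq_succ l with rfl | ⟨l, rfl⟩
    · simpa using hB
    · simpa using h2.1 l
  · intro i j hij
    rcases Fin.eq_zero_or_eq_succ i with rfl | ⟨i, rfl⟩
    · rcases Fin.eq_zero_or_eq_succ j with rfl | ⟨j, rfl⟩
      · exact absurd rfl hij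
      · simpa [Function.onFun] using h3 j
    · rcases Fin.eq_zero_or_eq_succ j with rfl | ⟨j, rfl⟩
      · simpa [Function.onFun] using (h3 i).symm
      · have hne : i ≠ j := fun h => hij (by rw [h])
        simpa [Function.onFun] using h2.2 hne
  · rw [← h4]
    ext x
    simp only [mem_union, mem_iUnion]
    constructor
    · rintro ⟨k, h⟩
      rcases Fin.eq_zero_or_eq_succ k with rfl | ⟨l, rfl⟩
      · exact Or.inl (by simpa using h)
      · exact Or.inr ⟨l, by simpa using h⟩
    · rintro (h | ⟨l, h⟩)
      · exact ⟨0, by simpa using h⟩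
      · exact ⟨l.succ, by simpa using h⟩

/-- The member `P i` of a partition and the others form a state. -/
theorem state_of_partn {P : Fin (q + 1) → Set E} (hP : Pool.Agent.WD.IsPartn N univ P)
    (i : Fin (q + 1)) : IsState N (P i) (fun l : Fin q => P (i.succAbove l)) := by
  refine ⟨⟨fun l => hP.1.1 _, ?_⟩, ?_, ?_⟩
  · intro a b hab
    exact hP.1.2 (fun h => hab (Fin.succAbove_right_injective h))
  · intro l
    exact hP.1.2 (Fin.succAbove_ne i l).symm
  · rw [← hP.2]
    ext x
    simp only [mem_union, mem_iUnion]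
    constructor
    · rintro (h | ⟨l, h⟩)
      · exact ⟨i, h⟩
      · exact ⟨_, h⟩
    · rintro ⟨j, h⟩
      by_cases hj : j = i
      · subst hj
        exact Or.inl h
      · obtain ⟨l, rfl⟩ := Fin.exists_succAbove_eq hj
        exact Or.inr ⟨l, h⟩

theorem base_of_det [Fintype E] (hN : N.E = univ) (hv : IsRep k N v) (b : Module.Basis ι k T)
    {a : ι → E} (h : b.det (fun s => v (a s)) ≠ 0) :
    Function.Injective a ∧ N.IsBase (range a) := by
  obtain ⟨h1, h2⟩ := (Module.Basis.is_basis_iff_det b).2 (isUnit_iff_ne_zero.2 h)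
  have ha : Function.Injective a := fun s s' hs => h1.injective (by
    show v (a s) = v (a s')
    rw [hs])
  have hi : N.Indep (range a) := by
    rw [hv, linearIndepOn_range_iff ha]
    exact h1
  refine ⟨ha, hi.isBase_of_spanning ?_⟩
  rw [Matroid.spanning_iff_closure_eq, hN]
  ext e
  simp only [mem_univ, iff_true]
  rw [mem_closure_iff hN hv, ← range_comp]
  have h3 : Submodule.span k (range (v ∘ a)) = ⊤ := h2
  rw [h3]
  exact Submodule.mem_top

theorem det_of_base [Fintype E] (hN : N.E = univ) (hv : IsRep k N v) (b : Module.Basis ι k T)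
    {a : ι → E} (ha : Function.Injective a) (hB : N.IsBase (range a)) :
    b.det (fun s => v (a s)) ≠ 0 := by
  have hi := hB.indep
  rw [hv, linearIndepOn_range_iff ha] at hi
  have hfin : FiniteDimensional k T := Module.Finite.of_basis b
  have h2 := hi.span_eq_top_of_card_eq_finrank' (Module.finrank_eq_card_basis b).symm
  exact ((Module.Basis.is_basis_iff_det b).1 ⟨hi, h2⟩).ne_zero

end Pool.Agent.W3
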