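import Pool.Agent.W3.Adapt

/-!
Corollaries of `span_compl`.

Proofs.
* `isBasis_compl`: `s.A l \ F` is independent, contained in `Fᶜ` and spans it.
* `card_le_of_ad`: `s'.A l' \ F` is an independent subset of `Fᶜ`, so
  `|s'.A l' \ F| ≤ |s.A l \ F|`, and `|s.A l| = |s'.A l'|` (bases of `N`); all sets are finite.
* `span_of_card`: if `|s'.A l' ∩ F| ≤ |s.A l ∩ F|` then `s'.A l' \ F` is an independent subset of `Fᶜ`
  with at least `eRk Fᶜ = |s.A l \ F|` elements, so it spans `Fᶜ`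
  (`Matroid.Indep.isBasis_of_...`, `IsRkFinite.isBasis_of_subset_closure_of_subset_of_encard_le` or
  `IsRkFinite.closure_eq_closure_of_subset_of_eRk_ge_eRk`).
* `card_split`: `univ` is the disjoint union of `s.B` and the `s.A l`.
* `exists_ad`: a basis `I0` of `F0`, extended to a basis `I1` of `F1`, to a basis `I2` of `F2`, to a
  base `B` of `Ω`; then `B ∩ Fi = Ii` (`Indep` and maximality), and `hc.base B` gives the state.
* `ad_iff_card`: `s.B ∩ F` is an independent subset of `F`; it is a basis iff its size is `eRk F`.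
-/

set_option autoImplicit false

namespace Pool.Agent.W3

open Set

variable {E : Type*} {N Ω : Matroid E} {q : ℕ}

private theorem sub_E (hc : Compl N Ω q) (X : Set E) : X ⊆ N.E := by
  rw [hc.groundN]
  exact Set.subset_univ X

private theorem sub_EO (hc : Compl N Ω q) (X : Set E) : X ⊆ Ω.E := by
  rw [hc.ground]
  exact Set.subset_univ X

/-- An independent subset which is large enough is a basis. -/
private theorem isBasis_of_encard [Finite E] {M : Matroid E} {I X : Set E} (hI : M.Indep I)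
    (hIX : I ⊆ X) (hX : X ⊆ M.E) (h : M.eRk X ≤ I.encard) : M.IsBasis I X := by
  obtain ⟨J, hJ, hIJ⟩ := hI.subset_isBasis_of_subset hIX hX
  have h1 : J.encard ≤ I.encard := by
    rw [hJ.encard_eq_eRk]
    exact h
  have h2 : I = J := Set.Finite.eq_of_subset_of_encard_le (Set.toFinite I) hIJ h1
  rw [h2]
  exact hJ

theorem isBasis_compl [Finite E] (hc : Compl N Ω q) (s : St N q) {F : Set E} (hs : s.Ad Ω F)
    (l : Fin q) : N.IsBasis (s.A l \ F) Fᶜ :=
  ((s.st.1.1 l).indep.subset Set.sdiff_subset).isBasis_of_subset_of_subset_closure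
    (fun _ hx => hx.2) (span_compl hc s hs l)

theorem card_le_of_ad [Finite E] (hc : Compl N Ω q) (s s' : St N q) {F : Set E}
    (hs : s.Ad Ω F) (l l' : Fin q) : (s.A l ∩ F).ncard ≤ (s'.A l' ∩ F).ncard := by
  have h1 := isBasis_compl hc s hs l
  have h2 : N.Indep (s'.A l' \ F) := (s'.st.1.1 l').indep.subset Set.sdiff_subset
  have h3 : (s'.A l' \ F).encard ≤ (s.A l \ F).encard := by
    rw [h1.encard_eq_eRk]
    exact h2.encard_le_eRk_of_subset (fun _ hx => hx.2)
  rw [← Set.Finite.cast_ncard_eq (Set.toFinite (s'.A l' \ F)),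
    ← Set.Finite.cast_ncard_eq (Set.toFinite (s.A l \ F))] at h3
  have h3' : (s'.A l' \ F).ncard ≤ (s.A l \ F).ncard := by exact_mod_cast h3
  have h4 := (s.st.1.1 l).ncard_eq_ncard_of_isBase (s'.st.1.1 l')
  have h5 := Set.ncard_inter_add_ncard_sdiff_eq_ncard (s.A l) F (Set.toFinite _)
  have h6 := Set.ncard_inter_add_ncard_sdiff_eq_ncard (s'.A l') F (Set.toFinite _)
  omega

theorem span_of_card [Finite E] (hc : Compl N Ω q) (s s' : St N q) {F : Set E}
    (hs : s.Ad Ω F) (l l' : Fin q) (h : (s'.A l' ∩ F).ncard ≤ (s.A l ∩ F).ncard) :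
    Fᶜ ⊆ N.closure (s'.A l' \ F) := by
  have h1 := isBasis_compl hc s hs l
  have h2 : N.Indep (s'.A l' \ F) := (s'.st.1.1 l').indep.subset Set.sdiff_subset
  have h4 := (s.st.1.1 l).ncard_eq_ncard_of_isBase (s'.st.1.1 l')
  have h5 := Set.ncard_inter_add_ncard_sdiff_eq_ncard (s.A l) F (Set.toFinite _)
  have h6 := Set.ncard_inter_add_ncard_sdiff_eq_ncard (s'.A l') F (Set.toFinite _)
  have h7 : (s.A l \ F).ncard ≤ (s'.A l' \ F).ncard := by omega
  have h8 : N.eRk Fᶜ ≤ (s'.A l' \ F).encard := by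
    rw [← h1.encard_eq_eRk, ← Set.Finite.cast_ncard_eq (Set.toFinite (s'.A l' \ F)),
      ← Set.Finite.cast_ncard_eq (Set.toFinite (s.A l \ F))]
    exact_mod_cast h7
  exact (isBasis_of_encard h2 (fun _ hx => hx.2) (sub_E hc _) h8).subset_closure

theorem card_split [Finite E] (s : St N q) (X : Set E) :
    X.ncard = (s.B ∩ X).ncard + ∑ l, (s.A l ∩ X).ncard := by
  classical
  have := Fintype.ofFinite E
  have key : ∀ Z : Set E, (Z ∩ X).ncard = ∑ x ∈ X.toFinset, if x ∈ Z then 1 else 0 := by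
    intro Z
    rw [Set.ncard_eq_toFinset_card', ← Finset.card_filter]
    congr 1
    ext x
    simp [and_comm]
  have key2 : X.ncard = ∑ x ∈ X.toFinset, 1 := by
    rw [Set.ncard_eq_toFinset_card', Finset.sum_const, smul_eq_mul, mul_one]
  rw [key2, key s.B, Finset.sum_congr rfl (fun l _ => key (s.A l)), Finset.sum_comm,
    ← Finset.sum_add_distrib]
  apply Finset.sum_congr rfl
  intro x _
  have hx : x ∈ s.B ∪ ⋃ l, s.A l := by rw [s.st.2.2]; exact Set.mem_univ x
  by_cases hB : x ∈ s.B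
  · have h0 : ∀ l, x ∉ s.A l := fun l h => Set.disjoint_left.1 (s.st.2.1 l) hB h
    rw [if_pos hB, Finset.sum_eq_zero (fun l _ => if_neg (h0 l)), add_zero]
  · rw [if_neg hB, zero_add]
    obtain ⟨l0, hl0⟩ := Set.mem_iUnion.1 (hx.resolve_left hB)
    rw [Finset.sum_eq_single l0, if_pos hl0]
    · intro l _ hl
      exact if_neg (fun h => Set.disjoint_left.1 (s.st.1.2 hl) h hl0)
    · intro h
      exact absurd (Finset.mem_univ l0) h

theorem ad_iff_card [Finite E] (hc : Compl N Ω q) (s : St N q) {F : Set E} (hF : Ω.IsFlat F) :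
    s.Ad Ω F ↔ Ω.eRk F ≤ (s.B ∩ F).ncard := by
  have hB : Ω.IsBase s.B := (hc.base s.B).2 ⟨s.A, s.st⟩
  constructor
  · rintro ⟨_, h⟩
    rw [← h.encard_eq_eRk, Set.Finite.cast_ncard_eq (Set.toFinite _)]
  · intro h
    refine ⟨hF, ?_⟩
    rw [Set.Finite.cast_ncard_eq (Set.toFinite _)] at h
    exact isBasis_of_encard (hB.indep.subset Set.inter_subset_left) Set.inter_subset_right
      (sub_EO hc _) h

theorem exists_ad [Finite E] (hc : Compl N Ω q) {F0 F1 F2 : Set E} (h0 : Ω.IsFlat F0)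
    (h1 : Ω.IsFlat F1) (h2 : Ω.IsFlat F2) (h01 : F0 ⊆ F1) (h12 : F1 ⊆ F2) :
    ∃ s : St N q, s.Ad Ω F0 ∧ s.Ad Ω F1 ∧ s.Ad Ω F2 := by
  obtain ⟨I0, hI0⟩ := Ω.exists_isBasis F0 (sub_EO hc _)
  obtain ⟨I1, hI1, hI01⟩ := hI0.indep.subset_isBasis_of_subset (hI0.subset.trans h01) (sub_EO hc _)
  obtain ⟨I2, hI2, hI12⟩ := hI1.indep.subset_isBasis_of_subset (hI1.subset.trans h12) (sub_EO hc _)
  obtain ⟨B, hB, hI2B⟩ := hI2.indep.exists_isBase_superset
  obtain ⟨A, hA⟩ := (hc.base B).1 hB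
  have key : ∀ {I F : Set E}, Ω.IsBasis I F → I ⊆ B → Ω.IsBasis (B ∩ F) F := by
    intro I F hI hIB
    have h := hI.eq_of_subset_indep (hB.indep.subset Set.inter_subset_left)
      (Set.subset_inter hIB hI.subset) (Set.inter_subset_right : B ∩ F ⊆ F)
    rw [← h]
    exact hI
  exact ⟨⟨B, A, hA⟩, ⟨h0, key hI0 (hI01.trans (hI12.trans hI2B))⟩, ⟨h1, key hI1 (hI12.trans hI2B)⟩,
    ⟨h2, key hI2 hI2B⟩⟩

end Pool.Agent.W3
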