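import Pool.Agent.W3.Exch

/-!
If the state `s` is adapted to the flat `F` then every `s.A l \ F` spans the complement of `F`.

Proof of `span_compl`. Let `X` be the union of the sets `RS N s.A b`, `b ∈ s.B \ F`.
(1) `X ∩ F = ∅`: let `z ∈ RS N s.A b`, `b ∈ s.B \ F`, `z ∈ F`. Then `z ∉ s.B`: an element of `RS` other
  than `b` is in some `A l` (`rs_subset`), and `b ∉ F`. By `rs_exchange` and `hc.base` the set
  `insert z (s.B \ {b})` is a base of `Ω`; so `insert z (s.B ∩ F)` is an independent subset of `F`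
  which is larger than the basis `s.B ∩ F` of `F`, a contradiction.
(2) `s.B ∩ X = s.B \ F` (by (1) and as elements of `RS` other than `b` are in some `A l`).
(3) For every `l`, `X ⊆ N.closure (s.A l ∩ X)` (`rs_closure` and monotonicity).
(4) For every base `B'` of `Ω`, with family `A'`: `|B' ∩ X| = |X| - ∑ |A' l ∩ X| ≥
  |X| - ∑ |s.A l ∩ X| = |s.B ∩ X| = |s.B \ F|` by `count_reach`, so `|B' \ X| ≤ |s.B ∩ F|` (all bases of
  `Ω` have the same finite size). So every independent subset of the complement of `X` has at most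
  `|s.B ∩ F| = eRk F` elements (extend it to a base). As `F ⊆ Xᶜ`, the rank of `Xᶜ` is that of `F`, and
  `F` is a flat, so `Xᶜ = F` (`Matroid.IsFlat`; e.g. an element `e ∈ Xᶜ \ F` gives
  `eRk (insert e F) = eRk F + 1`).
(5) So `Fᶜ = X ⊆ N.closure (s.A l ∩ X) = N.closure (s.A l \ F)`.
-/

set_option autoImplicit false

namespace Pool.Agent.W3

open Set

variable {E : Type*} {N Ω : Matroid E} {q : ℕ}

/-- An element of the reachable set other than the start is in some `A l`. -/
private lemma ad_notMem {B : Set E} {A : Fin q → Set E} (h : IsState N B A) {x z : E}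
    (hz : z ∈ RS N A x) : z = x ∨ z ∉ B := by
  have h1 : RS N A x ⊆ insert x (⋃ l, A l) := by
    refine rs_subset (mem_insert _ _) ?_
    intro l z w _ hw _ _
    exact mem_insert_of_mem _ (mem_iUnion.2 ⟨l, hw⟩)
  rcases h1 hz with h2 | h2
  · exact Or.inl h2
  · right
    obtain ⟨l, hl⟩ := mem_iUnion.1 h2
    exact fun hB => (Set.disjoint_left.1 (h.2.1 l)) hB hl

/-- The number of elements of a set in terms of a state. -/
private lemma ad_card [Finite E] {B : Set E} {A : Fin q → Set E} (h : IsState N B A) (X : Set E) :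
    X.ncard = (B ∩ X).ncard + ∑ l, (A l ∩ X).ncard := by
  have h1 : X = (B ∩ X) ∪ ⋃ l, (A l ∩ X) := by
    rw [← iUnion_inter, ← union_inter_distrib_right, h.2.2, univ_inter]
  have h2 : Disjoint (B ∩ X) (⋃ l, (A l ∩ X)) := by
    rw [disjoint_iUnion_right]
    exact fun l => (h.2.1 l).mono inter_subset_left inter_subset_left
  have h3 : Pairwise (Function.onFun Disjoint (fun l => A l ∩ X)) := fun i j hij =>
    (h.1.2 hij).mono inter_subset_left inter_subset_left
  conv_lhs => rw [h1]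
  rw [ncard_union_eq h2 (toFinite _) (toFinite _),
    ncard_iUnion_of_finite (fun _ => toFinite _) h3, finsum_eq_sum_of_fintype]

theorem span_compl [Finite E] (hc : Compl N Ω q) (s : St N q) {F : Set E} (hs : s.Ad Ω F)
    (l : Fin q) : Fᶜ ⊆ N.closure (s.A l \ F) := by
  obtain ⟨hF, hBF⟩ := hs
  have hNE := hc.groundN
  have hΩE := hc.ground
  have hB : Ω.IsBase s.B := (hc.base s.B).2 ⟨s.A, s.st⟩
  set X : Set E := ⋃ b ∈ s.B \ F, RS N s.A b with hX
  have hXm : ∀ z, z ∈ X ↔ ∃ b ∈ s.B \ F, z ∈ RS N s.A b := by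
    intro z
    rw [hX]
    simp only [mem_iUnion, exists_prop]
  -- (1)
  have h1 : ∀ z ∈ X, z ∉ F := by
    intro z hz hzF
    obtain ⟨b, hb, hzb⟩ := (hXm z).1 hz
    have hzB : z ∉ s.B := by
      rcases ad_notMem s.st hzb with h | h
      · exact absurd (h ▸ hzF) hb.2
      · exact h
    obtain ⟨A', hA'⟩ := rs_exchange hNE s.st hb.1 hzb hzB
    have hB' : Ω.IsBase (insert z (s.B \ {b})) := (hc.base _).2 ⟨A', hA'⟩
    have hI : Ω.Indep (insert z (s.B ∩ F)) := by
      refine hB'.indep.subset (insert_subset_insert ?_)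
      intro w hw
      exact ⟨hw.1, fun hwb => hb.2 (by rw [mem_singleton_iff] at hwb; exact hwb ▸ hw.2)⟩
    have h2 := hBF.eq_of_subset_indep hI (subset_insert _ _)
      (insert_subset hzF inter_subset_right)
    have h3 : z ∈ s.B ∩ F := by
      rw [h2]
      exact mem_insert _ _
    exact hzB h3.1
  -- (2)
  have h2 : s.B ∩ X = s.B \ F := by
    ext z
    constructor
    · rintro ⟨hz, hzX⟩
      exact ⟨hz, h1 z hzX⟩
    · rintro ⟨hz, hzF⟩
      exact ⟨hz, (hXm z).2 ⟨z, ⟨hz, hzF⟩, rs_self _ _⟩⟩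
  -- (3)
  have h3 : ∀ l, X ⊆ N.closure (s.A l ∩ X) := by
    intro l z hz
    obtain ⟨b, hb, hzb⟩ := (hXm z).1 hz
    refine N.closure_subset_closure ?_ (rs_closure hNE s.st.1 hzb l)
    intro w hw
    exact ⟨hw.1, (hXm w).2 ⟨b, hb, hw.2⟩⟩
  -- (4)
  have h4 : ∀ B', Ω.IsBase B' → (s.B \ F).ncard ≤ (B' ∩ X).ncard := by
    intro B' hB'
    obtain ⟨A', hA'⟩ := (hc.base B').1 hB'
    have e1 := ad_card s.st X
    have e2 := ad_card hA' X
    have e3 : ∑ l, (A' l ∩ X).ncard ≤ ∑ l, (s.A l ∩ X).ncard :=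
      Finset.sum_le_sum fun l _ => count_reach hNE (hA'.1.1 l) (h3 l)
    rw [h2] at e1
    omega
  -- (5)
  have h5 : Fᶜ ⊆ X := by
    intro e he
    by_contra heX
    have hcl : Ω.closure (s.B ∩ F) = F := by
      rw [hBF.closure_eq_closure, hF.closure]
    have hI : Ω.Indep (insert e (s.B ∩ F)) := by
      rw [hBF.indep.insert_indep_iff, hcl, hΩE]
      exact Or.inl ⟨mem_univ _, he⟩
    obtain ⟨B', hB', hsub⟩ := hI.exists_isBase_superset
    have e1 := h4 B' hB'
    have e2 := hB'.ncard_eq_ncard_of_isBase hB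
    have e3 : (insert e (s.B ∩ F)).ncard ≤ (B' \ X).ncard := by
      refine ncard_le_ncard ?_ (toFinite _)
      intro w hw
      refine ⟨hsub hw, ?_⟩
      rcases hw with rfl | hw
      · exact heX
      · exact fun hwX => h1 w hwX hw.2
    have e4 : (insert e (s.B ∩ F)).ncard = (s.B ∩ F).ncard + 1 :=
      ncard_insert_of_notMem (fun h => he h.2) (toFinite _)
    have e5 : (B' ∩ X).ncard + (B' \ X).ncard = B'.ncard :=
      ncard_inter_add_ncard_sdiff_eq_ncard _ _ (toFinite _)
    have e6 : (s.B ∩ F).ncard + (s.B \ F).ncard = s.B.ncard :=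
      ncard_inter_add_ncard_sdiff_eq_ncard _ _ (toFinite _)
    omega
  -- (6)
  intro e he
  refine N.closure_subset_closure ?_ (h3 l (h5 he))
  intro w hw
  exact ⟨hw.1, h1 w hw.2⟩

end Pool.Agent.W3
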