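import Pool.Agent.W3.Mix

/-!
The points of an interval `F0 < F2` of rank two and the colours.

Proof of `classes`. `F1 ∩ H = F0`: it is a flat containing `F0`, contained in `F1` and `H`; if it were
larger than `F0` its rank would be `eRk F0 + 1`, so it would be equal to `F1` and to `H`
(flats of the same finite rank, one inside the other, are equal).

First case: some `x ∈ s.B` is in `H \ F0`. For `t` as in the statement, `x ∉ F1`, so `x ∈ t.B`; so
`t.B ∩ H` contains the basis `t.B ∩ F0` of `F0` and `x`, so its size is at least `eRk F0 + 1 = eRk H`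
and `t` is adapted to `H` (`ad_iff_card`); use `span_compl`.

Second case: `s.B ∩ (H \ F0) = ∅`. Let `u` be a state adapted to `H` (`exists_ad`), `d := |u.A l ∩ H|`
(it does not depend on `l`, `card_le_of_ad` twice; if `q = 0` take `d = 0`). By `card_split` for `u` and
`s`: `|H| = eRk H + q * d` and `|H| = |s.B ∩ F0| + ∑ |s.A l ∩ H|`, so `∑ |s.A l ∩ H| = q * d + 1` with
`|s.A l ∩ H| ≥ d` for all `l`; so there is `c0` with `|s.A l ∩ H| = d` for all `l ≠ c0`. For `t` as in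
the statement and `l ≠ c0`: `|t.A l ∩ H| = |t.A l ∩ F0| + |t.A l ∩ (H \ F0)|`, the second term is
`|s.A l ∩ (H \ F0)|` because `H \ F0` is disjoint from `F1`, the first is `|s.A l ∩ F0|` by
`card_le_of_ad` twice. So `|t.A l ∩ H| = |s.A l ∩ H| = d ≤ |u.A l ∩ H|` and `span_of_card` applies.
-/

set_option autoImplicit false

namespace Pool.Agent.W3

open Set

variable {E : Type*} {N Ω : Matroid E} {q : ℕ}

/-- two different flats covering `F0` meet in `F0` -/
private theorem cov_inter [Finite E] (hc : Compl N Ω q) {F0 F1 H : Set E} (h01 : Cov Ω F0 F1)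
    (h0H : Cov Ω F0 H) (hne : H ≠ F1) {x : E} (hx1 : x ∈ F1) (hxH : x ∈ H) : x ∈ F0 := by
  by_contra hx0
  obtain ⟨f0, f1, s1, r1⟩ := h01
  obtain ⟨-, fH, sH, rH⟩ := h0H
  have hx : x ∈ Ω.E \ Ω.closure F0 := by
    rw [f0.closure, hc.ground]
    exact ⟨mem_univ _, hx0⟩
  have hr := Matroid.eRk_insert_eq_add_one hx
  have hfin : Ω.IsRkFinite (insert x F0) := Ω.isRkFinite_of_finite (Set.toFinite _)
  have e1 : Ω.closure (insert x F0) = Ω.closure F1 :=
    hfin.closure_eq_closure_of_subset_of_eRk_ge_eRk (insert_subset hx1 s1) (by rw [hr, r1])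
  have e2 : Ω.closure (insert x F0) = Ω.closure H :=
    hfin.closure_eq_closure_of_subset_of_eRk_ge_eRk (insert_subset hxH sH) (by rw [hr, rH])
  rw [f1.closure] at e1
  rw [fH.closure] at e2
  exact hne (e2.symm.trans e1)

/-- the size of the basis -/
private theorem ad_card [Finite E] {s : St N q} {F : Set E} (h : s.Ad Ω F) :
    ((s.B ∩ F).ncard : ℕ∞) = Ω.eRk F := by
  rw [← h.2.encard_eq_eRk, (Set.toFinite _).cast_ncard_eq]

private theorem sum_one {q : ℕ} (f g : Fin q → ℕ) (hle : ∀ l, g l ≤ f l)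
    (h : ∑ l, f l = ∑ l, g l + 1) : ∃ c0, ∀ l, l ≠ c0 → f l = g l := by
  classical
  obtain ⟨c0, hc0⟩ : ∃ c0, g c0 < f c0 := by
    by_contra hcon
    push Not at hcon
    have := Finset.sum_le_sum (fun l (_ : l ∈ Finset.univ) => hcon l)
    omega
  refine ⟨c0, fun l hl => ?_⟩
  have h1 := Finset.add_sum_erase Finset.univ f (Finset.mem_univ c0)
  have h2 := Finset.add_sum_erase Finset.univ g (Finset.mem_univ c0)
  have hl' : l ∈ Finset.univ.erase c0 := Finset.mem_erase.2 ⟨hl, Finset.mem_univ _⟩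
  have h3 := Finset.add_sum_erase (Finset.univ.erase c0) f hl'
  have h4 := Finset.add_sum_erase (Finset.univ.erase c0) g hl'
  have h5 := Finset.sum_le_sum (fun i (_ : i ∈ (Finset.univ.erase c0).erase l) => hle i)
  have h6 := hle l
  omega

theorem classes [Finite E] (hc : Compl N Ω q) {F0 F1 F2 H : Set E} (h01 : Cov Ω F0 F1)
    (h12 : Cov Ω F1 F2) (h0H : Cov Ω F0 H) (hH2 : Cov Ω H F2) (hne : H ≠ F1) (s : St N q)
    (hs0 : s.Ad Ω F0) (hs1 : s.Ad Ω F1) (hs2 : s.Ad Ω F2) :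
    ((∃ x ∈ s.B, x ∈ H \ F0) ∧ ∀ t : St N q, t.Ad Ω F0 → t.Ad Ω F1 → t.Ad Ω F2 →
        AgreeOff s t F1 → ∀ l, Hᶜ ⊆ N.closure (t.A l \ H)) ∨
      ((∀ x ∈ s.B, x ∉ H \ F0) ∧ ∃ c0 : Fin q, ∀ t : St N q, t.Ad Ω F0 → t.Ad Ω F1 →
        t.Ad Ω F2 → AgreeOff s t F1 → ∀ l, l ≠ c0 → Hᶜ ⊆ N.closure (t.A l \ H)) := by
  classical
  have f0 : Ω.IsFlat F0 := h01.1
  have fH : Ω.IsFlat H := h0H.2.1
  have s0H : F0 ⊆ H := h0H.2.2.1
  have rH : Ω.eRk H = Ω.eRk F0 + 1 := h0H.2.2.2
  have hF1H : ∀ x, x ∈ H → x ∉ F0 → x ∉ F1 := fun x hx hx0 hx1 =>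
    hx0 (cov_inter hc h01 h0H hne hx1 hx)
  by_cases hx : ∃ x ∈ s.B, x ∈ H \ F0
  · left
    refine ⟨hx, fun t ht0 _ _ hag l => ?_⟩
    obtain ⟨x, hxB, hxH, hx0⟩ := hx
    have hxt : x ∈ t.B := by
      have h1 : x ∈ s.B \ F1 := ⟨hxB, hF1H x hxH hx0⟩
      rw [hag.1] at h1
      exact h1.1
    have htH : t.Ad Ω H := by
      rw [ad_iff_card hc t fH, rH, ← ad_card ht0]
      have h1 : insert x (t.B ∩ F0) ⊆ t.B ∩ H :=
        insert_subset ⟨hxt, hxH⟩ (inter_subset_inter_right _ s0H)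
      have h2 := Set.ncard_le_ncard h1 (Set.toFinite _)
      rw [Set.ncard_insert_of_notMem (fun h => hx0 h.2) (Set.toFinite _)] at h2
      exact_mod_cast h2
    exact span_compl hc t htH l
  · right
    push Not at hx
    refine ⟨hx, ?_⟩
    obtain ⟨u, hu, -, -⟩ := exists_ad hc fH fH fH subset_rfl subset_rfl
    have c1 := card_split u H
    have c2 := card_split s H
    have e1 : s.B ∩ H = s.B ∩ F0 := by
      ext x
      constructor
      · rintro ⟨h1, h2⟩
        refine ⟨h1, ?_⟩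
        by_contra h3
        exact hx x h1 ⟨h2, h3⟩
      · rintro ⟨h1, h2⟩
        exact ⟨h1, s0H h2⟩
    have e2 : (u.B ∩ H).ncard = (s.B ∩ H).ncard + 1 := by
      have h1 := ad_card hu
      rw [rH, ← ad_card hs0, ← e1] at h1
      exact_mod_cast h1
    obtain ⟨c0, hc0⟩ := sum_one (fun l => (s.A l ∩ H).ncard) (fun l => (u.A l ∩ H).ncard)
      (fun l => card_le_of_ad hc u s hu l l) (by
        show ∑ l, (s.A l ∩ H).ncard = ∑ l, (u.A l ∩ H).ncard + 1
        omega)
    refine ⟨c0, fun t ht0 _ _ hag l hl => ?_⟩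
    refine span_of_card hc u t hu l l ?_
    have h1 : (s.A l ∩ H).ncard = (u.A l ∩ H).ncard := hc0 l hl
    have split : ∀ X : Set E, (X ∩ H).ncard = (X ∩ F0).ncard + (X ∩ (H \ F0)).ncard := by
      intro X
      rw [← Set.ncard_union_eq ?_ (Set.toFinite _) (Set.toFinite _)]
      · congr 1
        rw [← inter_union_distrib_left, union_sdiff_cancel s0H]
      · rw [Set.disjoint_left]
        rintro x ⟨-, h2⟩ ⟨-, h3⟩
        exact h3.2 h2
    have h2 : t.A l ∩ (H \ F0) = s.A l ∩ (H \ F0) := by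
      have h3 := hag.2 l
      ext x
      constructor
      · rintro ⟨h4, h5⟩
        have h6 : x ∈ t.A l \ F1 := ⟨h4, hF1H x h5.1 h5.2⟩
        rw [← h3] at h6
        exact ⟨h6.1, h5⟩
      · rintro ⟨h4, h5⟩
        have h6 : x ∈ s.A l \ F1 := ⟨h4, hF1H x h5.1 h5.2⟩
        rw [h3] at h6
        exact ⟨h6.1, h5⟩
    have h3 := card_le_of_ad hc t s ht0 l l
    rw [← h1, split (t.A l), split (s.A l), h2]
    omega

end Pool.Agent.W3
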