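import Pool.Agent.W3.Star
import Pool.Agent.W3.Red

/-!
Exactness of the complex of chains for fixed elements outside `S`.

Proof. Apply `col` (file Red) with `P := PF Ω`, `ρ := rho Ω` (`rho_strictMono`), `V := ML k E ι ⧸ ZA R S a`,
`J F := (JA Ω R S a F).map (ZA R S a).mkQ`, `C` the flat `CA Ω S a` (`ca_ne_univ`),
`j := S.card - 1`, and `z̄ c := mkQ (z c)`.
* `hφ`: `ja_step`; in the first case `J F = ⊥`. In the second case `φ := G`; `F ≤ G`, `C ≤ G`, and a flat
  containing `F` and `C` contains the closure of the union.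
* `hstar`: given `z̄'` choose `z' c` with `mkQ (z' c) = z̄' c`; since `ZA ≤ JA F` we have `mkQ f ∈ J F` iff
  `f ∈ JA F`, and `mkQ f = 0` iff `f ∈ ZA`; `bd` commutes with `mkQ` (`bd_map`). So `star` applies.
* From `w̄` choose `w c` with `mkQ (w c) = w̄ c`, and `w c = 0` if `w̄ c = 0`.
-/

set_option autoImplicit false

namespace Pool.Agent.W3

open Finset

variable {E : Type*} [Fintype E] [DecidableEq E] {Ω : Matroid E} {k : Type*} [Field k]
  {R : Submodule k (E → k)} {ι : Type*} [Fintype ι] [DecidableEq ι]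

private theorem colA_mem {S : Finset ι} {a : ι → E} {F : PF Ω} {f : ML k E ι} :
    (ZA R S a).mkQ f ∈ (JA Ω R S a F).map (ZA R S a).mkQ ↔ f ∈ JA Ω R S a F := by
  constructor
  · intro h
    obtain ⟨g, hg, hgf⟩ := Submodule.mem_map.1 h
    have h1 : f - g ∈ ZA R S a := by
      rw [← Submodule.ker_mkQ (ZA R S a), LinearMap.mem_ker, map_sub, hgf, sub_self]
    have h2 : f = (f - g) + g := by abel
    rw [h2]
    exact add_mem (za_le_ja S a F h1) hg
  · intro h
    exact Submodule.mem_map_of_mem h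

private theorem colA_bd {S : Finset ι} {a : ι → E} (z : Finset (PF Ω) → ML k E ι)
    (c : Finset (PF Ω)) :
    bd (rho Ω) (fun c => (ZA R S a).mkQ (z c)) c = (ZA R S a).mkQ (bd (rho Ω) z c) :=
  bd_map (rho Ω) ((ZA R S a).mkQ : ML k E ι →+ (ML k E ι ⧸ ZA R S a)) z c

theorem colA (hΩ : Ω.E = Set.univ) (hrk : Ω.eRank = Fintype.card ι) (hTop : TopVan Ω R ι)
    {S : Finset ι} (hS : 2 ≤ S.card) (a : ι → E) (z : Finset (PF Ω) → ML k E ι)
    (h1 : ∀ c, z c ≠ 0 → IsChain (· ≤ ·) (c : Set (PF Ω)) ∧ c.card + 1 = S.card)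
    (h2 : ∀ c, ∀ F ∈ c, z c ∈ JA Ω R S a F)
    (h3 : ∀ c, bd (rho Ω) z c ∈ ZA R S a) :
    ∃ w : Finset (PF Ω) → ML k E ι,
      (∀ c, w c ≠ 0 → IsChain (· ≤ ·) (c : Set (PF Ω)) ∧ c.card = S.card) ∧
      (∀ c, ∀ F ∈ c, w c ∈ JA Ω R S a F) ∧ ∀ c, z c - bd (rho Ω) w c ∈ ZA R S a := by
  classical
  obtain ⟨j, hj⟩ : ∃ j, S.card = j + 1 := ⟨S.card - 1, by omega⟩
  let C : PF Ω := ⟨CA Ω S a, Ω.isFlat_closure _, ca_ne_univ hΩ hrk (by omega) a⟩
  have hker : ∀ f : ML k E ι, (ZA R S a).mkQ f = 0 ↔ f ∈ ZA R S a := by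
    intro f
    rw [← LinearMap.mem_ker, Submodule.ker_mkQ]
  have hz : Adm (fun F => (JA Ω R S a F).map (ZA R S a).mkQ) j
      (fun c => (ZA R S a).mkQ (z c)) := by
    refine ⟨?_, ?_, ?_⟩
    · intro c hc
      have h4 : z c ≠ 0 := fun h => hc (by rw [h, map_zero])
      exact (h1 c h4).1
    · intro c hc
      have h4 : z c ≠ 0 := fun h => hc (by rw [h, map_zero])
      have := (h1 c h4).2
      omega
    · intro c F hF
      exact Submodule.mem_map_of_mem (h2 c F hF)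
  have hcyc : ∀ c, bd (rho Ω) (fun c => (ZA R S a).mkQ (z c)) c = 0 := by
    intro c
    rw [colA_bd, hker]
    exact h3 c
  have hφ : ∀ F : PF Ω, (JA Ω R S a F).map (ZA R S a).mkQ = ⊥ ∨
      ∃ φ, F ≤ φ ∧ C ≤ φ ∧ (JA Ω R S a F).map (ZA R S a).mkQ ≤
        (JA Ω R S a φ).map (ZA R S a).mkQ ∧ ∀ G, F ≤ G → C ≤ G → φ ≤ G := by
    intro F
    rcases ja_step (R := R) hΩ hrk S a F with h | ⟨G, hG, hle⟩
    · left
      rw [eq_bot_iff]
      rintro x hx
      obtain ⟨f, hf, rfl⟩ := Submodule.mem_map.1 hx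
      rw [Submodule.mem_bot, hker]
      exact h hf
    · right
      have hsub : F.1 ∪ CA Ω S a ⊆ G.1 := by
        rw [hG]
        exact Ω.subset_closure _ (by rw [hΩ]; exact Set.subset_univ _)
      refine ⟨G, ?_, ?_, Submodule.map_mono hle, ?_⟩
      · exact fun x hx => hsub (Or.inl hx)
      · exact fun x hx => hsub (Or.inr hx)
      · intro H hF hC
        change G.1 ⊆ H.1
        rw [hG, ← H.2.1.closure]
        refine Ω.closure_subset_closure ?_
        rintro x (hx | hx)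
        · exact hF hx
        · exact hC hx
  have hstar : ∀ z' : Finset (PF Ω) → (ML k E ι ⧸ ZA R S a),
      Adm (fun F => (JA Ω R S a F).map (ZA R S a).mkQ) j z' →
      (∀ c, z' c ≠ 0 → ∀ F ∈ c, C ≤ F) → (∀ c, bd (rho Ω) z' c = 0) →
      ∀ c, C ∉ c → z' c ∈ (JA Ω R S a C).map (ZA R S a).mkQ := by
    intro z' hz' hsup hcyc' c hCc
    have hsurj : ∀ c, ∃ f : ML k E ι, (ZA R S a).mkQ f = z' c :=
      fun c => Submodule.mkQ_surjective _ (z' c)
    choose y hy using hsurj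
    have hyz : (fun c => (ZA R S a).mkQ (y c)) = z' := funext hy
    have key := star (R := R) hΩ hrk hTop hS a C rfl y ?_ ?_ ?_ c hCc
    · rw [← hy c]
      exact Submodule.mem_map_of_mem key
    · intro c hc
      have h4 : z' c ≠ 0 := by
        rw [← hy c, Ne, hker]; exact hc
      refine ⟨hz'.chain c h4, ?_, hsup c h4⟩
      have := hz'.card c h4
      omega
    · intro c F hF
      rw [← colA_mem, hy c]
      exact hz'.mem c F hF
    · intro c
      rw [← hker, ← colA_bd, hyz]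
      exact hcyc' c
  obtain ⟨w, hw, hwz⟩ := col (rho_strictMono hΩ) C hφ hstar hz hcyc
  have hlift : ∀ c, ∃ f : ML k E ι, (ZA R S a).mkQ f = w c ∧ (w c = 0 → f = 0) := by
    intro c
    by_cases h : w c = 0
    · exact ⟨0, by rw [map_zero, h], fun _ => rfl⟩
    · obtain ⟨f, hf⟩ := Submodule.mkQ_surjective _ (w c)
      exact ⟨f, hf, fun h' => absurd h' h⟩
  choose y hy hy0 using hlift
  have hyw : (fun c => (ZA R S a).mkQ (y c)) = w := funext hy
  refine ⟨y, ?_, ?_, ?_⟩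
  · intro c hc
    have h4 : w c ≠ 0 := fun h => hc (hy0 c h)
    exact ⟨hw.chain c h4, by rw [hw.card c h4, hj]⟩
  · intro c F hF
    rw [← colA_mem, hy c]
    exact hw.mem c F hF
  · intro c
    rw [← hker, map_sub, ← colA_bd, hyw, hwz c, sub_self]

end Pool.Agent.W3
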