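import Pool.Agent.W3.P2a

/-!
The two step lemma for `b = 1`.

Proof. `|I| ≥ 3`. Let `F1 ∈ btw Ω F0 F2` and use `descend` with `b = 1`.
Step `n = 1`: `hn`: `z F1` vanishes if two arguments vanish on `F1`; `y p ∈ van F1` for one `p ∈ I`.
Choose `p', p'' ∈ I`, all different. By `span_GF` with a colour `c` and `ml_slot` (slot `p`; the part in
`R ⊓ van F2` is killed by the second hypothesis of `P2St`) it is enough to treat `y p = L ∈ GF s c` for
a state `s` adapted to `F0, F1, F2`. By `span_HF` for this `s` and colours `c'`, `c''` (three different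
colours, `3 ≤ q`) and `ml_slot` (slots `p'`, `p''`; the parts in `R ⊓ van F1` are killed by `hn`, as `y p`
also vanishes on `F1`, `GF_sub`) it is enough to treat `y p' ∈ HF s c'`, `y p'' ∈ HF s c''`. By
`triple_van`, for `H ≠ F1` in `btw Ω F0 F2` two of the three arguments vanish on `H`, so `z H y = 0` (third
hypothesis of `P2St`, `b + 1 = 2`). So `z F1 y = 0` because the sum is zero.
Step `n = 0`: `hn`: `z F1` vanishes if one argument vanishes on `F1`. Choose `p, p', p''` in `I`, any state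
`s` adapted to `F0, F1, F2` (`exists_ad`), and reduce by `span_HF` and `hn` to
`y p ∈ HF s c`, `y p' ∈ HF s c'`, `y p'' ∈ HF s c''`; conclude by `triple_van` as before.
-/

set_option autoImplicit false

namespace Pool.Agent.W3

variable {E : Type*} [Fintype E] {N Ω : Matroid E} {q : ℕ} {k T : Type*} [Field k]
  [AddCommGroup T] [Module k T] {v : E → T} {ι : Type*} [Fintype ι] [DecidableEq ι]

namespace P2

/-- The last step: three arguments of special form. -/
theorem fin3 (hc : Compl N Ω q) (hv : IsRep k N v) {F0 F1 F2 : Set E}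
    (hF1 : F1 ∈ btw Ω F0 F2) {I : Finset ι} {y0 : ι → E → k} {z : Set E → ML k E ι}
    (hsum : ∀ y, InY (Rel k v) F0 I y0 y → ∑ H ∈ btw Ω F0 F2, z H y = 0)
    (h3 : ∀ H ∈ btw Ω F0 F2, ∀ y, InY (Rel k v) F0 I y0 y →
      (∃ J ⊆ I, 1 + 1 ≤ J.card ∧ ∀ s ∈ J, y s ∈ van k H) → z H y = 0)
    (s : St N q) (hs : Ad3 Ω F0 F1 F2 s) {c c' c'' : Fin q} (h1 : c ≠ c') (h2 : c ≠ c'')
    (h23 : c' ≠ c'') {p p' p'' : ι} (hp : p ∈ I) (hp' : p' ∈ I) (hp'' : p'' ∈ I)
    (e1 : p ≠ p') (e2 : p ≠ p'') (e3 : p' ≠ p'') {y : ι → E → k}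
    (hy : InY (Rel k v) F0 I y0 y)
    (hL : y p ∈ GF k v F1 F2 s c ∨ y p ∈ HF k v Ω F0 F1 F2 s c)
    (hL' : y p' ∈ HF k v Ω F0 F1 F2 s c') (hL'' : y p'' ∈ HF k v Ω F0 F1 F2 s c'') :
    z F1 y = 0 := by
  obtain ⟨h01, h12⟩ := btw_iff.1 hF1
  refine sum_single hF1 (hsum _ hy) fun H hH hne => ?_
  obtain ⟨h0H, hH2⟩ := btw_iff.1 hH
  have two : ∀ a b : ι, a ∈ I → b ∈ I → a ≠ b → y a ∈ van k H → y b ∈ van k H → z H y = 0 := by
    intro a b ha hb hab hya hyb
    refine h3 H hH _ hy ⟨{a, b}, ?_, by rw [Finset.card_pair hab], ?_⟩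
    · intro t ht
      rw [Finset.mem_insert, Finset.mem_singleton] at ht
      rcases ht with rfl | rfl
      · exact ha
      · exact hb
    · intro t ht
      rw [Finset.mem_insert, Finset.mem_singleton] at ht
      rcases ht with rfl | rfl
      · exact hya
      · exact hyb
  rcases triple_van hc hv h01 h12 h0H hH2 hne s hs h1 h2 h23 hL hL' hL'' with
    ⟨h, h'⟩ | ⟨h, h'⟩ | ⟨h, h'⟩
  · exact two p p' hp hp' e1 h h'
  · exact two p p'' hp hp'' e2 h h'
  · exact two p' p'' hp' hp'' e3 h h'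

end P2

open P2

theorem p2_one (hc : Compl N Ω q) (hv : IsRep k N v) (hq : 3 ≤ q) (F0 F2 : Set E) :
    P2St Ω (Rel k v) ι F0 F2 1 := by
  intro I y0 z hI _ hsum hF2 h3 F1 hF1
  obtain ⟨h01, h12⟩ := btw_iff.1 hF1
  have cne : ∀ a b : ℕ, ∀ ha : a < q, ∀ hb : b < q, a ≠ b → (⟨a, ha⟩ : Fin q) ≠ ⟨b, hb⟩ := by
    intro a b ha hb hab h
    exact hab (Fin.mk.inj_iff.1 h)
  refine descend (b := 1) (F1 := F1) (h3 F1 hF1) ?_
  intro n hn hnn y hy hJ
  have pair : ∀ y', InY (Rel k v) F0 I y0 y' → ∀ a b : ι, a ∈ I → b ∈ I → a ≠ b →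
      y' a ∈ van k F1 → y' b ∈ van k F1 → n ≤ 1 → z F1 y' = 0 := by
    intro y' hy' a b ha hb hab hya hyb hn1
    refine hnn _ hy' ⟨{a, b}, ?_, by rw [Finset.card_pair hab]; omega, ?_⟩
    · intro t ht
      rw [Finset.mem_insert, Finset.mem_singleton] at ht
      rcases ht with rfl | rfl
      · exact ha
      · exact hb
    · intro t ht
      rw [Finset.mem_insert, Finset.mem_singleton] at ht
      rcases ht with rfl | rfl
      · exact hya
      · exact hyb
  rcases Nat.lt_or_ge n 1 with h0 | h0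
  · obtain rfl : n = 0 := by omega
    obtain ⟨p, hp, p', hp', p'', hp'', e1, e2, e3⟩ :=
      Finset.two_lt_card.1 (by omega : 2 < I.card)
    obtain ⟨s, hs⟩ := exists_ad hc h01.1 h12.1 h12.2.1 h01.2.2.1 h12.2.2.1
    have one : ∀ y', InY (Rel k v) F0 I y0 y' → ∀ a : ι, a ∈ I → y' a ∈ van k F1 →
        z F1 y' = 0 := by
      intro y' hy' a ha hya
      refine hnn _ hy' ⟨{a}, by simpa using ha, by simp, ?_⟩
      intro t ht
      rw [Finset.mem_singleton] at ht
      subst ht
      exact hya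
    refine red_HF hc hv h01 h12 s hs ⟨0, by omega⟩ _ y p (hy.2 p hp) (fun L hL => ?_)
      (fun L hL => ?_)
    · exact one _ (inY_upd hy hp ⟨hL.1, van_anti h01.2.2.1 hL.2⟩) p hp (by
        rw [Function.update_self]; exact hL.2)
    have hy1 := inY_upd hy hp (HF_sub hL)
    refine red_HF hc hv h01 h12 s hs ⟨1, by omega⟩ _ _ p' (hy1.2 p' hp') (fun L' hL' => ?_)
      (fun L' hL' => ?_)
    · exact one _ (inY_upd hy1 hp' ⟨hL'.1, van_anti h01.2.2.1 hL'.2⟩) p' hp' (by
        rw [Function.update_self]; exact hL'.2)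
    have hy2 := inY_upd hy1 hp' (HF_sub hL')
    refine red_HF hc hv h01 h12 s hs ⟨2, by omega⟩ _ _ p'' (hy2.2 p'' hp'') (fun L'' hL'' => ?_)
      (fun L'' hL'' => ?_)
    · exact one _ (inY_upd hy2 hp'' ⟨hL''.1, van_anti h01.2.2.1 hL''.2⟩) p'' hp'' (by
        rw [Function.update_self]; exact hL''.2)
    have hy3 := inY_upd hy2 hp'' (HF_sub hL'')
    refine fin3 hc hv hF1 hsum h3 s hs (cne 0 1 (by omega) (by omega) (by norm_num))
      (cne 0 2 (by omega) (by omega) (by norm_num)) (cne 1 2 (by omega) (by omega) (by norm_num))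
      hp hp' hp'' e1 e2 e3 hy3 (Or.inr ?_) ?_ ?_
    · rw [Function.update_of_ne e2, Function.update_of_ne e1, Function.update_self]
      exact hL
    · rw [Function.update_of_ne e3, Function.update_self]
      exact hL'
    · rw [Function.update_self]
      exact hL''
  · obtain rfl : n = 1 := by omega
    obtain ⟨J, hJI, hJc, hJv⟩ := hJ
    obtain ⟨p, rfl⟩ := Finset.card_eq_one.1 hJc
    have hp : p ∈ I := hJI (Finset.mem_singleton_self p)
    have hyp : y p ∈ van k F1 := hJv p (Finset.mem_singleton_self p)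
    have hcard : 1 < (I.erase p).card := by
      rw [Finset.card_erase_of_mem hp]
      omega
    obtain ⟨p', hp', p'', hp'', e3⟩ := Finset.one_lt_card.1 hcard
    rw [Finset.mem_erase] at hp' hp''
    obtain ⟨e1, hp'⟩ := hp'
    obtain ⟨e2, hp''⟩ := hp''
    refine red_GF hc hv h01 h12 ⟨0, by omega⟩ _ y p ⟨(hy.2 p hp).1, hyp⟩ (fun L hL => ?_)
      (fun s hs L hL => ?_)
    · exact hF2 F1 hF1 _ (inY_upd hy hp ⟨hL.1, van_anti (h01.2.2.1.trans h12.2.2.1) hL.2⟩)
        ⟨p, hp, by rw [Function.update_self]; exact hL.2⟩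
    have hLs := GF_sub hL
    have hy1 := inY_upd hy hp ⟨hLs.1, van_anti h01.2.2.1 hLs.2⟩
    refine red_HF hc hv h01 h12 s hs ⟨1, by omega⟩ _ _ p' (hy1.2 p' hp') (fun L' hL' => ?_)
      (fun L' hL' => ?_)
    · refine pair _ (inY_upd hy1 hp' ⟨hL'.1, van_anti h01.2.2.1 hL'.2⟩) p p' hp hp' e1.symm ?_ ?_
        le_rfl
      · rw [Function.update_of_ne e1.symm, Function.update_self]
        exact hLs.2
      · rw [Function.update_self]
        exact hL'.2
    have hy2 := inY_upd hy1 hp' (HF_sub hL')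
    refine red_HF hc hv h01 h12 s hs ⟨2, by omega⟩ _ _ p'' (hy2.2 p'' hp'') (fun L'' hL'' => ?_)
      (fun L'' hL'' => ?_)
    · refine pair _ (inY_upd hy2 hp'' ⟨hL''.1, van_anti h01.2.2.1 hL''.2⟩) p p'' hp hp'' e2.symm
        ?_ ?_ le_rfl
      · rw [Function.update_of_ne e2.symm, Function.update_of_ne e1.symm, Function.update_self]
        exact hLs.2
      · rw [Function.update_self]
        exact hL''.2
    have hy3 := inY_upd hy2 hp'' (HF_sub hL'')
    refine fin3 hc hv hF1 hsum h3 s hs (cne 0 1 (by omega) (by omega) (by norm_num))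
      (cne 0 2 (by omega) (by omega) (by norm_num)) (cne 1 2 (by omega) (by omega) (by norm_num))
      hp hp' hp'' e1.symm e2.symm e3 hy3 (Or.inl ?_) ?_ ?_
    · rw [Function.update_of_ne e2.symm, Function.update_of_ne e1.symm, Function.update_self]
      exact hL
    · rw [Function.update_of_ne e3, Function.update_self]
      exact hL'
    · rw [Function.update_self]
      exact hL''

end Pool.Agent.W3
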