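import Pool.Agent.W3.P2a
import Pool.Agent.W3.P2b

/-!
The two step lemma for all `b`.

Proof of `p2_step` (`b ≥ 2`, from `b - 1`). `|I| ≥ 2 b + 1`. Let `F1 ∈ btw Ω F0 F2` and use `descend`.
Let `n ≤ b`, `hn`: `z F1` vanishes if `n + 1` arguments vanish on `F1`; `J ⊆ I` with `n` elements and
`y s ∈ van F1` for `s ∈ J`. As `|I| ≥ 2 b + 1 > n` there is `p' ∈ I \ J`.
Let `p ∈ J` if `n ≥ 1`, and `p ∈ I`, `p ≠ p'` if `n = 0`. Let `c ≠ c'` be two colours.
If `n ≥ 1`: by `span_GF` and `ml_slot` (slot `p`, the part in `R ⊓ van F2` is killed by the second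
hypothesis of `P2St`) we may assume that `y p ∈ GF s c`, `s` adapted to the three flats; by
`span_HF` for this `s` and `ml_slot` (slot `p'`, the part in `R ⊓ van F1` is killed by `hn`: the set
`insert p' J`) we may assume `y p' ∈ HF s c'`. If `n = 0`: similarly with any `s` and both
`y p ∈ HF s c`, `y p' ∈ HF s c'`.
Now fix these two arguments: apply the statement for `b - 1` to `I' = I \ {p, p'}`
(`|I'| ≥ 2 b - 1 = 2 (b - 1) + 1` and `≥ 3`), `y0 := y` and the same family `z`. Its hypotheses: an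
argument `y'` with `InY R F0 I' y y'` satisfies `InY R F0 I y0 y'` (`y' p = y p`, `y' p' = y p'`). Sum and
second hypothesis: clear. Third hypothesis: let `J' ⊆ I'`, `|J'| ≥ b`, `y' s ∈ van H` for `s ∈ J'`. If
`H ≠ F1` then `y p` or `y p'` vanishes on `H` by `pair_van`, so `b + 1` arguments vanish on `H`. If `H = F1` and
`n ≥ 1` then `y p ∈ van F1` (`GF_sub`), again `b + 1` arguments. If `H = F1` and `n = 0` then `hn` applies
(`b ≥ 1`: at least one argument vanishes on `F1`). The conclusion for `H = F1` and `y' = y` is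
`z F1 y = 0`.
-/

set_option autoImplicit false

namespace Pool.Agent.W3

variable {E : Type*} [Fintype E] {N Ω : Matroid E} {q : ℕ} {k T : Type*} [Field k]
  [AddCommGroup T] [Module k T] {v : E → T} {ι : Type*} [Fintype ι] [DecidableEq ι]

open P2

theorem p2_step (hc : Compl N Ω q) (hv : IsRep k N v) (hq : 3 ≤ q) (F0 F2 : Set E) {b : ℕ}
    (hb : 2 ≤ b) (h : P2St Ω (Rel k v) ι F0 F2 (b - 1)) :
    P2St Ω (Rel k v) ι F0 F2 b := by
  intro I y0 z hI _ hsum hF2 h3 F1 hF1
  obtain ⟨h01, h12⟩ := btw_iff.1 hF1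
  have cne : ∀ a b : ℕ, ∀ ha : a < q, ∀ hb : b < q, a ≠ b → (⟨a, ha⟩ : Fin q) ≠ ⟨b, hb⟩ := by
    intro a b ha hb hab h
    exact hab (Fin.mk.inj_iff.1 h)
  refine descend (b := b) (F1 := F1) (h3 F1 hF1) ?_
  intro n hn hnn y hy hJ
  -- the common last step
  have last : ∀ (s : St N q), Ad3 Ω F0 F1 F2 s → ∀ p p' : ι, p ∈ I → p' ∈ I → p ≠ p' →
      ∀ y', InY (Rel k v) F0 I y0 y' →
      ((y' p ∈ GF k v F1 F2 s ⟨0, by omega⟩ ∧ 1 ≤ n) ∨
        (y' p ∈ HF k v Ω F0 F1 F2 s ⟨0, by omega⟩ ∧ n = 0)) →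
      y' p' ∈ HF k v Ω F0 F1 F2 s ⟨1, by omega⟩ → z F1 y' = 0 := by
    intro s hs p p' hp hp' hpp y' hy' hL hL'
    set I' := (I.erase p).erase p' with hI'
    have hp'1 : p' ∈ I.erase p := Finset.mem_erase.2 ⟨hpp.symm, hp'⟩
    have hI'c : I'.card + 2 = I.card := by
      rw [hI', Finset.card_erase_of_mem hp'1, Finset.card_erase_of_mem hp]
      omega
    have hI'I : I' ⊆ I := (Finset.erase_subset _ _).trans (Finset.erase_subset _ _)
    have hpI' : p ∉ I' := fun h1 => by
      rw [hI', Finset.mem_erase, Finset.mem_erase] at h1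
      exact h1.2.1 rfl
    have hp'I' : p' ∉ I' := fun h1 => by
      rw [hI', Finset.mem_erase] at h1
      exact h1.1 rfl
    have hin : ∀ w, InY (Rel k v) F0 I' y' w → InY (Rel k v) F0 I y0 w := by
      intro w hw
      refine ⟨fun t ht => ?_, fun t ht => ?_⟩
      · rw [hw.1 t (fun h1 => ht (hI'I h1))]
        exact hy'.1 t ht
      · by_cases h1 : t ∈ I'
        · exact hw.2 t h1
        · rw [hw.1 t h1]
          exact hy'.2 t ht
    have hself : InY (Rel k v) F0 I' y' y' := ⟨fun _ _ => rfl, fun t ht => hy'.2 t (hI'I ht)⟩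
    have addone : ∀ H ∈ btw Ω F0 F2, ∀ w, InY (Rel k v) F0 I' y' w → ∀ J ⊆ I', b ≤ J.card →
        (∀ t ∈ J, w t ∈ van k H) → ∀ a, a ∈ I → a ∉ I' → w a ∈ van k H → z H w = 0 := by
      intro H hH w hw J hJI hJc hJv a ha haI' hwa
      refine h3 H hH w (hin w hw) ⟨insert a J, ?_, ?_, ?_⟩
      · intro t ht
        rcases Finset.mem_insert.1 ht with rfl | ht
        · exact ha
        · exact hI'I (hJI ht)
      · rw [Finset.card_insert_of_notMem (fun h1 => haI' (hJI h1))]
        omega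
      · intro t ht
        rcases Finset.mem_insert.1 ht with rfl | ht
        · exact hwa
        · exact hJv t ht
    refine h I' y' z (by omega) (by omega) (fun w hw => hsum w (hin w hw)) ?_ ?_ F1 hF1 y' hself
    · rintro H hH w hw ⟨t, ht, htv⟩
      exact hF2 H hH w (hin w hw) ⟨t, hI'I ht, htv⟩
    · rintro H hH w hw ⟨J, hJI, hJc, hJv⟩
      have hJc' : b ≤ J.card := by omega
      by_cases hne : H = F1
      · subst hne
        rcases hL with ⟨hL, h1n⟩ | ⟨hL, hn0⟩
        · refine addone H hH w hw J hJI hJc' hJv p hp hpI' ?_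
          rw [hw.1 p hpI']
          exact (GF_sub hL).2
        · refine hnn w (hin w hw) ⟨J, hJI.trans hI'I, by omega, hJv⟩
      · obtain ⟨h0H, hH2⟩ := btw_iff.1 hH
        rcases pair_van hc hv h01 h12 h0H hH2 hne s hs (c := ⟨0, by omega⟩)
          (c' := ⟨1, by omega⟩) (cne 0 1 (by omega) (by omega) (by norm_num))
          (L := y' p) (L' := y' p') (by
            rcases hL with ⟨hL, -⟩ | ⟨hL, -⟩
            · exact Or.inl hL
            · exact Or.inr hL) hL' with h1 | h1
        · exact addone H hH w hw J hJI hJc' hJv p hp hpI' (by rw [hw.1 p hpI']; exact h1)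
        · exact addone H hH w hw J hJI hJc' hJv p' hp' hp'I' (by rw [hw.1 p' hp'I']; exact h1)
  obtain ⟨J, hJI, hJc, hJv⟩ := hJ
  rcases Nat.eq_zero_or_pos n with h0 | h0
  · subst h0
    obtain ⟨p, hp, p', hp', hpp⟩ := Finset.one_lt_card.1 (by omega : 1 < I.card)
    obtain ⟨s, hs⟩ := exists_ad hc h01.1 h12.1 h12.2.1 h01.2.2.1 h12.2.2.1
    have one : ∀ y', InY (Rel k v) F0 I y0 y' → ∀ a : ι, a ∈ I → y' a ∈ van k F1 →
        z F1 y' = 0 := by
      intro y' hy' a ha hya
      refine hnn _ hy' ⟨{a}, by simpa using ha, by simp, ?_⟩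
      intro t ht
      rw [Finset.mem_singleton] at ht
      subst ht
      exact hya
    refine red_HF hc hv h01 h12 s hs ⟨0, by omega⟩ _ y p (hy.2 p hp) (fun L hL => ?_)
      (fun L hL => ?_)
    · exact one _ (inY_upd hy hp ⟨hL.1, van_anti h01.2.2.1 hL.2⟩) p hp (by
        rw [Function.update_self]; exact hL.2)
    have hy1 := inY_upd hy hp (HF_sub hL)
    refine red_HF hc hv h01 h12 s hs ⟨1, by omega⟩ _ _ p' (hy1.2 p' hp') (fun L' hL' => ?_)
      (fun L' hL' => ?_)
    · exact one _ (inY_upd hy1 hp' ⟨hL'.1, van_anti h01.2.2.1 hL'.2⟩) p' hp' (by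
        rw [Function.update_self]; exact hL'.2)
    have hy2 := inY_upd hy1 hp' (HF_sub hL')
    refine last s hs p p' hp hp' hpp _ hy2 (Or.inr ⟨?_, rfl⟩) ?_
    · rw [Function.update_of_ne hpp, Function.update_self]
      exact hL
    · rw [Function.update_self]
      exact hL'
  · obtain ⟨p, hpJ⟩ : ∃ p, p ∈ J := Finset.card_pos.1 (by omega)
    have hp : p ∈ I := hJI hpJ
    obtain ⟨p', hp', hp'J⟩ : ∃ p' ∈ I, p' ∉ J := by
      by_contra hcon
      push Not at hcon
      have := Finset.card_le_card (show I ⊆ J from fun t ht => hcon t ht)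
      omega
    have hpp : p ≠ p' := fun h1 => hp'J (h1 ▸ hpJ)
    refine red_GF hc hv h01 h12 ⟨0, by omega⟩ _ y p ⟨(hy.2 p hp).1, hJv p hpJ⟩ (fun L hL => ?_)
      (fun s hs L hL => ?_)
    · exact hF2 F1 hF1 _ (inY_upd hy hp ⟨hL.1, van_anti (h01.2.2.1.trans h12.2.2.1) hL.2⟩)
        ⟨p, hp, by rw [Function.update_self]; exact hL.2⟩
    have hLs := GF_sub hL
    have hy1 := inY_upd hy hp ⟨hLs.1, van_anti h01.2.2.1 hLs.2⟩
    refine red_HF hc hv h01 h12 s hs ⟨1, by omega⟩ _ _ p' (hy1.2 p' hp') (fun L' hL' => ?_)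
      (fun L' hL' => ?_)
    · refine hnn _ (inY_upd hy1 hp' ⟨hL'.1, van_anti h01.2.2.1 hL'.2⟩) ⟨insert p' J, ?_, ?_, ?_⟩
      · intro t ht
        rcases Finset.mem_insert.1 ht with rfl | ht
        · exact hp'
        · exact hJI ht
      · rw [Finset.card_insert_of_notMem hp'J]
        omega
      · intro t ht
        by_cases h1 : t = p'
        · subst h1
          rw [Function.update_self]
          exact hL'.2
        · rw [Function.update_of_ne h1]
          by_cases h2 : t = p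
          · subst h2
            rw [Function.update_self]
            exact hLs.2
          · rw [Function.update_of_ne h2]
            exact hJv t ((Finset.mem_insert.1 ht).resolve_left h1)
    have hy2 := inY_upd hy1 hp' (HF_sub hL')
    refine last s hs p p' hp hp' hpp _ hy2 (Or.inl ⟨?_, h0⟩) ?_
    · rw [Function.update_of_ne hpp, Function.update_self]
      exact hL
    · rw [Function.update_self]
      exact hL'

theorem p2_all (hc : Compl N Ω q) (hv : IsRep k N v) (hq : 3 ≤ q) (F0 F2 : Set E) (b : ℕ) :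
    P2St Ω (Rel k v) ι F0 F2 b := by
  induction b with
  | zero => exact p2_zero hc hv hq F0 F2
  | succ b ih =>
    rcases Nat.eq_zero_or_pos b with rfl | hb
    · exact p2_one hc hv hq F0 F2
    · exact p2_step hc hv hq F0 F2 (by omega) (by simpa using ih)

end Pool.Agent.W3
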