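import Pool.Agent.W3.LL
import Pool.Agent.W3.Det
import Pool.Agent.W3.P2c
import Pool.Agent.W3.Claim
import Pool.Agent.W3.LiftThm

/-!
Partitions of the ground set of a linear matroid into at least four bases are connected.

Proof of `core3_span` (the vectors span `T`). `P 0` and the other members form a state
(`state_of_partn`), so there is `Ω` with `Compl N Ω q` (`exists_compl`). Let `ι := ↥(P 0)`. The vectors
`v x`, `x ∈ P 0`, form a basis of `T` (linearly independent by `hv`; they span because `P 0` is a base,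
`mem_closure_iff`, and `hspan`): `b : Module.Basis ι k T`. `P 0` is a base of `Ω` (`hc.base`), so
`Ω.eRank = Fintype.card ι`. `topVan` and `p2_all` give `TopVan Ω (Rel k v) ι`; `lifting` with `g := gf`
(`gf_LL`) gives `G`, `chi_const` gives `chi (P 0) = chi (Q 0)`; `chi_self`, `reach_of_chi`.

Proof of `core3`: replace `T` by the span of the range of `v`.
-/

set_option autoImplicit false

namespace Pool.Agent.W3

open Set

variable {E : Type*} [Fintype E] {N : Matroid E} {q : ℕ} {k T : Type*}
  [Field k] [AddCommGroup T] [Module k T] {v : E → T}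

theorem core3_span (hN : N.E = univ) (hv : IsRep k N v)
    (hspan : Submodule.span k (range v) = ⊤) (hq : 3 ≤ q)
    (P Q : Fin (q + 1) → Set E) (hk : (((P 0).ncard).factorial : k) ≠ 0)
    (hP : Pool.Agent.WD.IsPartn N univ P) (hQ : Pool.Agent.WD.IsPartn N univ Q) :
    Relation.ReflTransGen (Pool.Agent.WD.Share N univ) P Q := by
  classical
  obtain ⟨Ω, hc⟩ := exists_compl (q := q) hN ⟨P 0, _, state_of_partn hP 0⟩
  have hB0 : N.IsBase (P 0) := hP.1.1 0
  have hQ0 : N.IsBase (Q 0) := hQ.1.1 0
  have hΩP : Ω.IsBase (P 0) := (hc.base _).2 ⟨_, state_of_partn hP 0⟩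
  have hΩQ : Ω.IsBase (Q 0) := (hc.base _).2 ⟨_, state_of_partn hQ 0⟩
  have hΩ := hc.ground
  let _ : Fintype ↥(P 0) := Fintype.ofFinite _
  have hcard : Fintype.card ↥(P 0) = (P 0).ncard := by
    rw [← Nat.card_eq_fintype_card, Nat.card_coe_set_eq]
  have hrk : Ω.eRank = Fintype.card ↥(P 0) := by
    rw [← hΩP.encard_eq_eRank, hcard, Set.Finite.cast_ncard_eq (Set.toFinite _)]
  have hli : LinearIndependent k (fun x : ↥(P 0) => v x) := (hv (P 0)).1 hB0.indep
  have hsp : ⊤ ≤ Submodule.span k (range (fun x : ↥(P 0) => v x)) := by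
    rw [← hspan, Submodule.span_le]
    rintro _ ⟨e, rfl⟩
    have he : e ∈ N.closure (P 0) := by
      rw [hB0.closure_eq, hN]
      exact mem_univ e
    have h1 := (mem_closure_iff hN hv (P 0) e).1 he
    rw [image_eq_range] at h1
    exact h1
  have hTop : TopVan Ω (Rel k v) ↥(P 0) :=
    topVan hΩ (fun F0 F2 _ _ _ _ b => p2_all hc hv hq F0 F2 b)
  obtain ⟨G, hG, hGg⟩ := lifting hΩ hrk hTop (gf N Ω P v (Module.Basis.mk hli hsp))
    (fun a ha => by
      unfold gf at ha
      by_contra h
      rw [if_neg h] at ha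
      exact ha rfl)
    (fun s a ha hA L hL => gf_LL hc hv (by omega) hrk _ hP s a ha hA L hL)
  have h1 := chi_const hN hv hspan hrk (Module.Basis.mk hli hsp) (by rw [hcard]; exact hk) hG hGg
    hB0 hQ0 hΩP hΩQ
  rw [chi_self] at h1
  exact reach_of_chi hP hQ 0 (by rw [← h1]; exact one_ne_zero)

theorem core3 (hN : N.E = univ) (hv : IsRep k N v) (hq : 3 ≤ q)
    (P Q : Fin (q + 1) → Set E) (hk : (((P 0).ncard).factorial : k) ≠ 0)
    (hP : Pool.Agent.WD.IsPartn N univ P) (hQ : Pool.Agent.WD.IsPartn N univ Q) :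
    Relation.ReflTransGen (Pool.Agent.WD.Share N univ) P Q := by
  let v' : E → ↥(Submodule.span k (range v)) := fun e =>
    ⟨v e, Submodule.subset_span ⟨e, rfl⟩⟩
  have hv' : IsRep k N v' := by
    intro I
    rw [hv I]
    exact (LinearMap.linearIndependent_iff (v := fun x : ↥I => v' x)
      (Submodule.span k (range v)).subtype (Submodule.ker_subtype _))
  have hs' : Submodule.span k (range v') = ⊤ := by
    have h1 : range v' = ((↑) : ↥(Submodule.span k (range v)) → T) ⁻¹' (range v) := by
      ext x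
      constructor
      · rintro ⟨e, rfl⟩
        exact ⟨e, rfl⟩
      · rintro ⟨e, he⟩
        exact ⟨e, Subtype.ext he⟩
    rw [h1]
    exact Submodule.span_span_coe_preimage
  exact core3_span hN hv' hs' hq P Q hk hP hQ

end Pool.Agent.W3
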