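import Pool.Agent.WD.Defs

/-!
Definitions for the theorem: the toric ideal of a matroid which is representable over a field of
characteristic zero is generated in degree at most 3 (problem MP_e6151a_ag).
See `BLUEPRINT.md` in this folder.
-/

set_option autoImplicit false

namespace Pool.Agent.W3

open Set

section Matroids

variable {E : Type*}

/-- `B` and the pairwise disjoint bases `A 0, ..., A (q-1)` of `N` form a partition. -/
def IsState (N : Matroid E) {q : ℕ} (B : Set E) (A : Fin q → Set E) : Prop :=
  Pool.Agent.WD.IsFam N A ∧ (∀ l, Disjoint B (A l)) ∧ B ∪ (⋃ l, A l) = univ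

/-- The bases of `Ω` are the complements of the unions of `q` disjoint bases of `N`. -/
structure Compl (N Ω : Matroid E) (q : ℕ) : Prop where
  groundN : N.E = univ
  ground : Ω.E = univ
  base : ∀ B, Ω.IsBase B ↔ ∃ A : Fin q → Set E, IsState N B A

/-- A state. -/
structure St (N : Matroid E) (q : ℕ) where
  B : Set E
  A : Fin q → Set E
  st : IsState N B A

/-- The state `s` is adapted to the flat `F` of `Ω`. -/
def St.Ad {N : Matroid E} {q : ℕ} (s : St N q) (Ω : Matroid E) (F : Set E) : Prop :=
  Ω.IsFlat F ∧ Ω.IsBasis (s.B ∩ F) F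

/-- The states `s` and `s'` agree outside `X`. -/
def AgreeOff {N : Matroid E} {q : ℕ} (s s' : St N q) (X : Set E) : Prop :=
  s.B \ X = s'.B \ X ∧ ∀ l, s.A l \ X = s'.A l \ X

/-- `F'` covers `F` in the lattice of flats. -/
def Cov (Ω : Matroid E) (F F' : Set E) : Prop :=
  Ω.IsFlat F ∧ Ω.IsFlat F' ∧ F ⊆ F' ∧ Ω.eRk F' = Ω.eRk F + 1

open Classical in
/-- The flats `H` with `F ⋖ H ⋖ G`. -/
noncomputable def btw [Fintype E] (Ω : Matroid E) (F G : Set E) : Finset (Set E) :=
  Finset.univ.filter (fun H => Cov Ω F H ∧ Cov Ω H G)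

/-- Maximal flags from `F` to the ground set; `F` is not in the list, the ground set is its last
entry. -/
def IsFlag (Ω : Matroid E) : Set E → List (Set E) → Prop
  | F, [] => F = univ
  | F, (G :: l) => Cov Ω F G ∧ IsFlag Ω G l

/-- All sums over the possible choices of one interior member of the flags starting above `F` are
zero; `n` is the number of members of the flags. -/
def Cyc {k : Type*} [Field k] [Fintype E] (Ω : Matroid E) :
    ℕ → (List (Set E) → k) → Set E → Prop
  | 0, _, _ => True
  | n + 1, ζ, F => (∀ G, Cov Ω F G → Cyc Ω n (fun l => ζ (G :: l)) G) ∧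
      ∀ G l, IsFlag Ω G l → Ω.IsFlat G → F ⊆ G → Ω.eRk G = Ω.eRk F + 2 →
        ∑ H ∈ btw Ω F G, ζ (H :: G :: l) = 0

/-- The type of proper flats. -/
abbrev PF (Ω : Matroid E) : Type _ := {F : Set E // Ω.IsFlat F ∧ F ≠ univ}

noncomputable instance instFintypePF [Fintype E] (Ω : Matroid E) : Fintype (PF Ω) :=
  Fintype.ofFinite _

noncomputable instance instDecidableEqPF (Ω : Matroid E) : DecidableEq (PF Ω) :=
  fun a b => Classical.propDecidable (a = b)

/-- The rank of a proper flat. -/
noncomputable def rho (Ω : Matroid E) (F : PF Ω) : ℕ := (Ω.eRk F.1).toNat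

end Matroids

section Linear

variable {E : Type*} (k : Type*) {T : Type*} [Field k] [AddCommGroup T] [Module k T]

/-- The vectors which vanish on `F`. -/
def van (F : Set E) : Submodule k (E → k) where
  carrier := {y | ∀ e ∈ F, y e = 0}
  add_mem' := by
    intro a b ha hb e he
    simp [ha e he, hb e he]
  zero_mem' := by
    intro e _
    rfl
  smul_mem' := by
    intro c a ha e he
    simp [ha e he]

/-- The linear relations of the vectors `v e`. -/
def Rel [Fintype E] (v : E → T) : Submodule k (E → k) :=
  LinearMap.ker (Fintype.linearCombination k v)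

/-- `N` is the linear matroid of `v`. -/
def IsRep (N : Matroid E) (v : E → T) : Prop := ∀ I : Set E, N.Indep I ↔ LinearIndepOn k v I

variable {k}

/-- `L` is a relation supported in `A ∪ {y}` with coefficient one at `y`. -/
structure Circ (R : Submodule k (E → k)) (A : Set E) (y : E) (L : E → k) : Prop where
  mem : L ∈ R
  one : L y = 1
  supp : ∀ e, e ∉ A → e ≠ y → L e = 0

end Linear

section Complex

/-- The sign of `F` with respect to `c`. -/
noncomputable def eps {P : Type*} (ρ : P → ℕ) (F : P) (c : Finset P) : ℤ := by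
  classical exact (-1) ^ (c.filter (fun G => ρ G < ρ F)).card

open Classical in
/-- The boundary operator. -/
noncomputable def bd {P V : Type*} [Fintype P] [AddCommGroup V] (ρ : P → ℕ)
    (z : Finset P → V) (c : Finset P) : V :=
  ∑ F ∈ Finset.univ \ c, eps ρ F c • z (insert F c)

open Classical in
/-- The cone operator. -/
noncomputable def cone {P V : Type*} [AddCommGroup V] (ρ : P → ℕ) (C : P)
    (z : Finset P → V) (c : Finset P) : V :=
  if C ∈ c then eps ρ C (c.erase C) • z (c.erase C) else 0

/-- Chains of `j` elements with coefficients in the submodules `J`. -/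
structure Adm {k P V : Type*} [Field k] [PartialOrder P] [AddCommGroup V] [Module k V]
    (J : P → Submodule k V) (j : ℕ) (z : Finset P → V) : Prop where
  chain : ∀ c, z c ≠ 0 → IsChain (· ≤ ·) (c : Set P)
  card : ∀ c, z c ≠ 0 → c.card = j
  mem : ∀ c, ∀ F ∈ c, z c ∈ J F

end Complex

section Slots

variable {E : Type*} {k : Type*} [Field k] {ι : Type*} [Fintype ι]

/-- Multilinear functions in the arguments `y s : E → k`. -/
abbrev ML (k E ι : Type*) [Field k] : Type _ := MultilinearMap k (fun _ : ι => E → k) k

open Classical in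
/-- The number of slots whose argument vanishes on `F`. -/
noncomputable def nv (F : Set E) (y : ι → E → k) : ℕ :=
  (Finset.univ.filter (fun s => y s ∈ van k F)).card

/-- The submodule `J_F`. -/
def JF (Ω : Matroid E) (F : PF Ω) : Submodule k (ML k E ι) where
  carrier := {f | ∀ y, Fintype.card ι ≤ rho Ω F + nv F.1 y → f y = 0}
  add_mem' := by
    intro a b ha hb y hy
    simp [ha y hy, hb y hy]
  zero_mem' := by
    intro y _
    rfl
  smul_mem' := by
    intro c a ha y hy
    simp [ha y hy]

/-- Multilinear functions which vanish if the argument in some slot of `X` is a relation. -/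
def TT (R : Submodule k (E → k)) (X : Finset ι) : Submodule k (ML k E ι) where
  carrier := {f | ∀ y, ∀ s ∈ X, y s ∈ R → f y = 0}
  add_mem' := by
    intro a b ha hb y s hs hy
    simp [ha y s hs hy, hb y s hs hy]
  zero_mem' := by
    intro y s _ _
    rfl
  smul_mem' := by
    intro c a ha y s hs hy
    simp [ha y s hs hy]

/-- Multilinear functions which vanish if the arguments in all slots of `S` are relations. -/
def VR (R : Submodule k (E → k)) (S : Finset ι) : Submodule k (ML k E ι) where
  carrier := {f | ∀ y, (∀ s ∈ S, y s ∈ R) → f y = 0}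
  add_mem' := by
    intro a b ha hb y hy
    simp [ha y hy, hb y hy]
  zero_mem' := by
    intro y _
    rfl
  smul_mem' := by
    intro c a ha y hy
    simp [ha y hy]

/-- `J_F` together with the condition `TT`. -/
def JT (R : Submodule k (E → k)) (Ω : Matroid E) (X : Finset ι) (F : PF Ω) :
    Submodule k (ML k E ι) := JF Ω F ⊓ TT R X

/-- The vanishing theorem for top dimensional cycles (consequence of `Claim`). -/
def TopVan (Ω : Matroid E) (R : Submodule k (E → k)) (ι : Type*) [Fintype E] [Fintype ι] :
    Prop :=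
  ∀ (n : ℕ) (C : Set E), Ω.IsFlat C → Ω.eRk C + n = Ω.eRank → 1 ≤ n →
    ∀ (I : Finset ι) (y0 : ι → E → k) (Z : List (Set E) → ML k E ι), I.card = n →
    (∀ y : ι → E → k, (∀ s, s ∉ I → y s = y0 s) → (∀ s ∈ I, y s ∈ R ⊓ van k C) →
      Cyc Ω n (fun l => Z l y) C) →
    (∀ G l, IsFlag Ω C (G :: l) → ∀ y : ι → E → k, (∀ s, s ∉ I → y s = y0 s) →
      (∀ s ∈ I, y s ∈ R ⊓ van k C) → (∃ J ⊆ I, n ≤ 1 + J.card ∧ ∀ s ∈ J, y s ∈ van k G) →
      Z (G :: l) y = 0) →
    ∀ l, IsFlag Ω C l → ∀ y : ι → E → k, (∀ s, s ∉ I → y s = y0 s) →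
      (∀ s ∈ I, y s ∈ R ⊓ van k C) → Z l y = 0

end Slots

end Pool.Agent.W3
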