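import Pool.Agent.W3.Reach

/-!
The complements of unions of `q` disjoint bases of `N` are the bases of a matroid `Ω`.

Proofs.
* `count_reach`: `A l ∩ X` is independent and spans `X` for every `l`, so `N.eRk X = |A l ∩ X|`, and
  `|A' l ∩ X| ≤ N.eRk X`.
* `state_exchange`: let `X = RS N A b`. Suppose that no element of `X` lies in `B' \ B`. Then
  `X ⊆ ⋃ A'` : `b ∉ B'`, and an element `z ≠ b` of `X` is either in `B'`, then in `B` by assumption, but
  elements of `X` other than `b` are end points of edges and so lie in some `A l`, disjoint from `B`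
  (use `rs_subset` with `{b} ∪ ⋃ A l`); so `z ∉ B'` and `z ∈ A' l` for some `l`. All `A l ∩ X` span `X`
  by `rs_closure`. So `|X| = 1 + ∑ |A l ∩ X| = 1 + q * r(X)` and `|X| = ∑ |A' l ∩ X| ≤ q * r(X)`, a
  contradiction. So there is `b' ∈ X ∩ (B' \ B)` and `rs_exchange` gives the state.
* `exists_compl`: `Matroid.ofExistsFiniteIsBase univ (fun B => ∃ A, IsState N B A)`; the exchange
  property is `state_exchange`.
-/

set_option autoImplicit false

namespace Pool.Agent.W3

open Set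

variable {E : Type*} {N : Matroid E} {q : ℕ}

/-- The number of elements of `X` in a base `A' l` is at most the number of elements of `X` in a
base `A l` such that `A l ∩ X` spans `X`. -/
theorem count_reach [Finite E] (hN : N.E = univ) {C D X : Set E} (hD : N.IsBase D)
    (hC : X ⊆ N.closure (C ∩ X)) : (D ∩ X).ncard ≤ (C ∩ X).ncard := by
  have h1 : (D ∩ X).encard ≤ (C ∩ X).encard := by
    calc (D ∩ X).encard ≤ N.eRk (N.closure (C ∩ X)) :=
          (hD.indep.subset inter_subset_left).encard_le_eRk_of_subset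
            (inter_subset_right.trans hC)
      _ = N.eRk (C ∩ X) := N.eRk_closure_eq _
      _ ≤ _ := N.eRk_le_encard _
  rw [← (toFinite (D ∩ X)).cast_ncard_eq, ← (toFinite (C ∩ X)).cast_ncard_eq] at h1
  exact_mod_cast h1

theorem state_exchange [Finite E] (hN : N.E = univ) {B B' : Set E} {A A' : Fin q → Set E}
    (h : IsState N B A) (h' : IsState N B' A') {b : E} (hb : b ∈ B \ B') :
    ∃ b' ∈ B' \ B, ∃ A'' : Fin q → Set E, IsState N (insert b' (B \ {b})) A'' := by
  by_cases hex : ∃ z ∈ RS N A b, z ∈ B' \ B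
  · obtain ⟨z, hz, hzB', hzB⟩ := hex
    obtain ⟨A'', hA''⟩ := rs_exchange hN h hb.1 hz hzB
    exact ⟨z, ⟨hzB', hzB⟩, A'', hA''⟩
  exfalso
  push Not at hex
  obtain ⟨X, hXdef⟩ : ∃ X, X = RS N A b := ⟨_, rfl⟩
  rw [← hXdef] at hex
  have hbX : b ∈ X := hXdef ▸ rs_self A b
  have hcl : ∀ l, X ⊆ N.closure (A l ∩ X) := by
    intro l z hz
    rw [hXdef] at hz ⊢
    exact rs_closure hN h.1 hz l
  have hsub : X ⊆ insert b (⋃ l, A l) := by
    rw [hXdef]
    refine rs_subset (mem_insert _ _) ?_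
    intro l z w _ hw _ _
    exact mem_insert_of_mem _ (mem_iUnion.2 ⟨l, hw⟩)
  have hcov : ∀ z, z ∉ B' → z ∈ ⋃ l, A' l := by
    intro z hz
    have h2 : z ∈ B' ∪ ⋃ l, A' l := h'.2.2 ▸ mem_univ z
    exact h2.resolve_left hz
  have hXA' : X ⊆ ⋃ l, A' l := by
    intro z hz
    apply hcov
    rcases hsub hz with rfl | hz'
    · exact hb.2
    · intro hzB'
      obtain ⟨l, hl⟩ := mem_iUnion.1 hz'
      have hzB : z ∈ B := by
        by_contra hcon
        exact hex z hz ⟨hzB', hcon⟩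
      exact disjoint_left.1 (h.2.1 l) hzB hl
  have hfin : ∀ l, (A l ∩ X).Finite := fun l => toFinite _
  have c1 : X.ncard ≤ ∑ l, (A' l ∩ X).ncard := by
    calc X.ncard ≤ (⋃ l, A' l ∩ X).ncard := by
          apply ncard_le_ncard _ (toFinite _)
          intro z hz
          obtain ⟨l, hl⟩ := mem_iUnion.1 (hXA' hz)
          exact mem_iUnion.2 ⟨l, hl, hz⟩
      _ ≤ _ := ncard_iUnion_le_of_fintype _
  have c2 : ∑ l, (A l ∩ X).ncard + 1 ≤ X.ncard := by
    have e1 : (⋃ l, A l ∩ X).ncard = ∑ l, (A l ∩ X).ncard := by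
      rw [ncard_iUnion_of_finite hfin (fun i j hij => ?_), finsum_eq_sum_of_fintype]
      exact (h.1.2 hij).mono inter_subset_left inter_subset_left
    rw [← e1]
    have hnb : b ∉ ⋃ l, A l ∩ X := by
      intro hmem
      obtain ⟨l, hl, _⟩ := mem_iUnion.1 hmem
      exact disjoint_left.1 (h.2.1 l) hb.1 hl
    rw [← ncard_insert_of_notMem hnb (toFinite _)]
    apply ncard_le_ncard _ (toFinite _)
    intro z hz
    rcases hz with rfl | hz
    · exact hbX
    · obtain ⟨l, _, hzX⟩ := mem_iUnion.1 hz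
      exact hzX
  have c3 : ∑ l, (A' l ∩ X).ncard ≤ ∑ l, (A l ∩ X).ncard :=
    Finset.sum_le_sum fun l _ => count_reach hN (h'.1.1 l) (hcl l)
  omega

theorem exists_compl [Finite E] (hN : N.E = univ)
    (h : ∃ (B : Set E) (A : Fin q → Set E), IsState N B A) : ∃ Ω : Matroid E, Compl N Ω q := by
  refine ⟨Matroid.ofExistsFiniteIsBase univ (fun B => ∃ A : Fin q → Set E, IsState N B A) ?_ ?_
    (fun _ _ => subset_univ _), ⟨hN, rfl, fun B => Iff.rfl⟩⟩
  · obtain ⟨B, A, hA⟩ := h
    exact ⟨B, ⟨A, hA⟩, toFinite _⟩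
  · rintro B B' ⟨A, hA⟩ ⟨A', hA'⟩ b hb
    obtain ⟨b', hb', A'', hA''⟩ := state_exchange hN hA hA' hb
    exact ⟨b', hb', A'', hA''⟩

end Pool.Agent.W3
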