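import Pool.Agent.W3.Mix
import Pool.Agent.W3.RepL

/-!
For consecutive flats `F ⋖ F'` the relations vanishing on `F` are generated, modulo the relations
vanishing on `F'`, by the circuits of one colour `c` of the states which are adapted to `F` and `F'`
and agree outside `F' \ F` with a given one.

Proofs.
* `swap_state`: `insert y (s.A l \ {e})` is a base of `N` by `base_of_circ` (a `Circ` for `s.A l \ F` is
  one for `s.A l`). The sets of `t` are again a partition. `t.B ∩ F = s.B ∩ F` and `t.B ∩ F'` has the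
  size of `s.B ∩ F'` (`y, e ∈ F' \ F`), so `t` is adapted by `ad_iff_card`.
* `span_circ`. Let `A := s.A c \ F`; by `isBasis_compl` it is independent and spans `Fᶜ`; for
  `e ∈ Fᶜ \ A` let `L_e` be the relation `Circ (Rel k v) A e` (`exists_circ`). Let `W` be the right hand
  side. By `rel_sum` (a relation vanishing on `F` is a combination of the `L_e`, `e ∈ Fᶜ \ A`) it
  is enough to show that all `L_e` are in `W`.
  (1) `e ∉ F'`: `e` is in the closure of `s.A c \ F'` (`span_compl` for `F'`), so `L_e` is, by uniqueness,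
  the relation `Circ` for `s.A c \ F'`, so it vanishes on `F'`.
  (2) Let `Re` be the set of states `t` which can be reached from `s` by finitely many steps of
  `swap_state` (any colours `l`, any admissible `e`), e.g. an inductive predicate or
  `Relation.ReflTransGen`. All of them are adapted to `F` and `F'` and agree with `s` outside `F' \ F`.
  Say that `e ∈ F' \ F` is good if `e ∈ A` or `L_e ∈ W`. Claim: for `t ∈ Re` all elements of
  `t.A c ∩ (F' \ F)` are good and all elements `y` of `t.B ∩ (F' \ F)` are good. The second part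
  follows from the first: let `L` be the relation `Circ` for `t.A c \ F` and `y` (`span_compl` for `t`
  and `F`); it is in `W`. By `rel_sum`, `L = ∑ L(e) L_e` over `e ∈ Fᶜ \ A`; the terms with `e ≠ y` and
  `L(e) ≠ 0` have `e ∈ t.A c \ F`, so `e ∈ F' \ F` is good or `e ∉ F'`, and `L_e ∈ W` in both cases; as
  `L(y) = 1`, `L_y ∈ W` (if `y ∉ A`). The first part holds for `s` (all are in `A`) and is preserved by
  a step: a step in the colour `c` replaces `e` by `y` which is good, other steps do not change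
  `t.A c`.
  (3) Let `Y` be the set of all `y` such that `y ∈ t.B ∩ (F' \ F)` for some `t ∈ Re`. Note that
  `t.B ∩ (F' \ F)` has exactly one element (sizes). Then `Y = F' \ F`: For `t ∈ Re` with
  `y ∈ t.B ∩ (F' \ F)` and any colour `l`, if `L` is the circuit of `y` for `t.A l \ F` then every
  `e ∈ t.A l ∩ (F' \ F)` with `L e ≠ 0` is in `Y` (do the swap). So
  `y ∈ closure ((t.A l ∩ Y) ∪ F'ᶜ)`. For `t ∈ Re` and every `l`, the closure of
  `(t.A l ∩ Y) ∪ F'ᶜ` is that of `(s.A l ∩ Y) ∪ F'ᶜ` (induction on the steps: a step in the colour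
  `l` replaces `e` by `y`, both in `Y`, the new set is contained in the old closure and has the same
  rank: `(t.A l ∩ Y) ∪ (t.A l \ F')` is independent with the same closure and the same size as the new
  one). So `Y ⊆ closure ((s.A l ∩ Y) ∪ (s.A l \ F'))` for every `l`.
  Suppose `e ∈ (F' \ F) \ Y`. Let `u` be a state adapted to `F`, `F'` with `e ∈ u.B`
  (`state_with`). All elements of `Y` are in some `u.A l` (as `u.B ∩ (F' \ F) = {e}`), and
  `(u.A l ∩ Y) ∪ (u.A l \ F')` is independent, contained in the closure of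
  `(s.A l ∩ Y) ∪ (s.A l \ F')`, and `|u.A l \ F'| = |s.A l \ F'|`, so `|u.A l ∩ Y| ≤ |s.A l ∩ Y|`. So
  `|Y| ≤ ∑ |s.A l ∩ Y|`, but `Y` also contains the element of `s.B ∩ (F' \ F)`, so
  `|Y| ≥ 1 + ∑ |s.A l ∩ Y|`. Contradiction.
  (`F' \ F` is not empty and `s.B ∩ (F' \ F)` has one element because `eRk F' = eRk F + 1`.)
-/

set_option autoImplicit false

namespace Pool.Agent.W3

open Set

variable {E : Type*} [Fintype E] {N Ω : Matroid E} {q : ℕ} {k T : Type*} [Field k]
  [AddCommGroup T] [Module k T] {v : E → T}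

omit [Fintype E] in
private theorem circ_mono {R : Submodule k (E → k)} {X X' : Set E} {y : E} {L : E → k}
    (h : Circ R X y L) (hs : X ⊆ X') : Circ R X' y L :=
  ⟨h.mem, h.one, fun e he hy => h.supp e (fun h' => he (hs h')) hy⟩

omit [Fintype E] in
private theorem St.notMem_A (s : St N q) {y : E} (hy : y ∈ s.B) (l : Fin q) : y ∉ s.A l :=
  fun h => Set.disjoint_left.1 (s.st.2.1 l) hy h

omit [Fintype E] in
private theorem St.A_disj (s : St N q) {y : E} {l l' : Fin q} (hl : l ≠ l') (hy : y ∈ s.A l) :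
    y ∉ s.A l' :=
  fun h => Set.disjoint_left.1 (s.st.1.2 hl) hy h

omit [Fintype E] in
private theorem St.cover (s : St N q) (x : E) : x ∈ s.B ∨ ∃ l, x ∈ s.A l := by
  have h : x ∈ s.B ∪ ⋃ l, s.A l := by rw [s.st.2.2]; exact Set.mem_univ x
  rcases h with h | h
  · exact Or.inl h
  · exact Or.inr (Set.mem_iUnion.1 h)

omit [Fintype E] in
private theorem agree_trans {s t u : St N q} {X : Set E} (h : AgreeOff s t X) (h' : AgreeOff t u X) :
    AgreeOff s u X :=
  ⟨h.1.trans h'.1, fun l => (h.2 l).trans (h'.2 l)⟩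

omit [Fintype E] in
private theorem agree_refl (s : St N q) (X : Set E) : AgreeOff s s X := ⟨rfl, fun _ => rfl⟩

theorem swap_state (hc : Compl N Ω q) (hv : IsRep k N v) {F F' : Set E} (hcov : Cov Ω F F')
    (s : St N q) (hF : s.Ad Ω F) (hF' : s.Ad Ω F') {y : E} (hy : y ∈ s.B ∩ (F' \ F)) {l : Fin q}
    {L : E → k} (hL : Circ (Rel k v) (s.A l \ F) y L) {e : E} (he : e ∈ s.A l ∩ (F' \ F))
    (hLe : L e ≠ 0) : ∃ t : St N q, t.B = insert e (s.B \ {y}) ∧
      t.A l = insert y (s.A l \ {e}) ∧ (∀ l', l' ≠ l → t.A l' = s.A l') ∧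
      t.Ad Ω F ∧ t.Ad Ω F' ∧ AgreeOff s t (F' \ F) := by
  classical
  obtain ⟨hyB, hyF', hyF⟩ := hy
  obtain ⟨heA, heF', heF⟩ := he
  have hyA : ∀ l', y ∉ s.A l' := fun l' => s.notMem_A hyB l'
  have heB : e ∉ s.B := fun h => s.notMem_A h l heA
  have hne : y ≠ e := fun h => heB (h ▸ hyB)
  have heA' : ∀ l', l' ≠ l → e ∉ s.A l' := fun l' hl' => s.A_disj (Ne.symm hl') heA
  have hbase : N.IsBase (insert y (s.A l \ {e})) :=
    base_of_circ hc.groundN hv (s.st.1.1 l) (hyA l) heA (circ_mono hL Set.sdiff_subset) hLe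
  obtain ⟨A', hA'⟩ : ∃ A' : Fin q → Set E, A' = fun l' => if l' = l then insert y (s.A l \ {e})
    else s.A l' := ⟨_, rfl⟩
  have hA'l : A' l = insert y (s.A l \ {e}) := by rw [hA']; simp
  have hA'l' : ∀ l', l' ≠ l → A' l' = s.A l' := by
    intro l' hl'
    rw [hA']
    simp [hl']
  have hst : IsState N (insert e (s.B \ {y})) A' := by
    refine ⟨⟨?_, ?_⟩, ?_, ?_⟩
    · intro l'
      by_cases h : l' = l
      · rw [h, hA'l]
        exact hbase
      · rw [hA'l' l' h]
        exact s.st.1.1 l'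
    · intro a b hab
      show Disjoint (A' a) (A' b)
      rw [Set.disjoint_left]
      intro x hxa hxb
      by_cases ha : a = l
      · have hb : b ≠ l := fun h => hab (ha.trans h.symm)
        rw [ha, hA'l] at hxa
        rw [hA'l' b hb] at hxb
        rcases hxa with rfl | hxa
        · exact hyA b hxb
        · exact s.A_disj (Ne.symm hb) hxa.1 hxb
      · rw [hA'l' a ha] at hxa
        by_cases hb : b = l
        · rw [hb, hA'l] at hxb
          rcases hxb with rfl | hxb
          · exact hyA a hxa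
          · exact s.A_disj ha hxa hxb.1
        · rw [hA'l' b hb] at hxb
          exact s.A_disj hab hxa hxb
    · intro l'
      rw [Set.disjoint_left]
      intro x hx hxA
      by_cases h : l' = l
      · rw [h, hA'l] at hxA
        rcases hx with rfl | hx
        · rcases hxA with h1 | h1
          · exact hne h1.symm
          · exact h1.2 rfl
        · rcases hxA with h1 | h1
          · exact hx.2 h1
          · exact s.notMem_A hx.1 l h1.1
      · rw [hA'l' l' h] at hxA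
        rcases hx with rfl | hx
        · exact heA' l' h hxA
        · exact s.notMem_A hx.1 l' hxA
    · ext x
      simp only [Set.mem_union, Set.mem_iUnion, Set.mem_univ, iff_true]
      by_cases hxe : x = e
      · exact Or.inl (Or.inl hxe)
      by_cases hxy : x = y
      · exact Or.inr ⟨l, by rw [hA'l]; exact Or.inl hxy⟩
      rcases s.cover x with h | ⟨l', h⟩
      · exact Or.inl (Or.inr ⟨h, hxy⟩)
      · right
        refine ⟨l', ?_⟩
        by_cases hl' : l' = l
        · rw [hl', hA'l]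
          rw [hl'] at h
          exact Or.inr ⟨h, hxe⟩
        · rw [hA'l' l' hl']
          exact h
  obtain ⟨t, htB, htA⟩ : ∃ t : St N q, t.B = insert e (s.B \ {y}) ∧ t.A = A' :=
    ⟨⟨_, _, hst⟩, rfl, rfl⟩
  refine ⟨t, htB, by rw [htA, hA'l], fun l' hl' => by rw [htA, hA'l' l' hl'], ?_, ?_, ?_, ?_⟩
  · refine ⟨hF.1, ?_⟩
    have h1 : t.B ∩ F = s.B ∩ F := by
      rw [htB]
      ext x
      constructor
      · rintro ⟨rfl | hx, hxF⟩
        · exact absurd hxF heF
        · exact ⟨hx.1, hxF⟩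
      · rintro ⟨hx, hxF⟩
        exact ⟨Or.inr ⟨hx, fun h => hyF (h ▸ hxF)⟩, hxF⟩
    rw [h1]
    exact hF.2
  · rw [ad_iff_card hc t hF'.1]
    have h1 := (ad_iff_card hc s hF'.1).1 hF'
    have h2 : t.B ∩ F' = insert e ((s.B ∩ F') \ {y}) := by
      rw [htB]
      ext x
      constructor
      · rintro ⟨rfl | hx, hxF⟩
        · exact Or.inl rfl
        · exact Or.inr ⟨⟨hx.1, hxF⟩, hx.2⟩
      · rintro (rfl | ⟨⟨hx, hxF⟩, hxy⟩)
        · exact ⟨Or.inl rfl, heF'⟩
        · exact ⟨Or.inr ⟨hx, hxy⟩, hxF⟩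
    have h3 : (t.B ∩ F').ncard = (s.B ∩ F').ncard := by
      rw [h2, Set.ncard_insert_of_notMem (fun h => heB h.1.1) (Set.toFinite _),
        Set.ncard_sdiff_singleton_add_one (show y ∈ s.B ∩ F' from ⟨hyB, hyF'⟩) (Set.toFinite _)]
    rw [h3]
    exact h1
  · rw [htB]
    ext x
    constructor
    · rintro ⟨hx, hxn⟩
      exact ⟨Or.inr ⟨hx, fun h => hxn (by rw [Set.mem_singleton_iff.1 h]; exact ⟨hyF', hyF⟩)⟩, hxn⟩
    · rintro ⟨rfl | hx, hxn⟩
      · exact absurd ⟨heF', heF⟩ hxn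
      · exact ⟨hx.1, hxn⟩
  · intro l'
    rw [htA]
    by_cases hl' : l' = l
    · rw [hl', hA'l]
      ext x
      constructor
      · rintro ⟨hx, hxn⟩
        exact ⟨Or.inr ⟨hx, fun h => hxn (by rw [Set.mem_singleton_iff.1 h]; exact ⟨heF', heF⟩)⟩, hxn⟩
      · rintro ⟨rfl | hx, hxn⟩
        · exact absurd ⟨hyF', hyF⟩ hxn
        · exact ⟨hx.1, hxn⟩
    · rw [hA'l' l' hl']

/-- one swap -/
private def Step (N Ω : Matroid E) (q : ℕ) (k : Type*) [Field k] [Module k T] (v : E → T)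
    (F F' : Set E) (t t' : St N q) : Prop :=
  ∃ (y : E) (l : Fin q) (L : E → k) (e : E), y ∈ t.B ∩ (F' \ F) ∧
    Circ (Rel k v) (t.A l \ F) y L ∧ e ∈ t.A l ∩ (F' \ F) ∧ L e ≠ 0 ∧
    t'.B = insert e (t.B \ {y}) ∧ t'.A l = insert y (t.A l \ {e}) ∧
    (∀ l', l' ≠ l → t'.A l' = t.A l') ∧ t'.Ad Ω F ∧ t'.Ad Ω F' ∧ AgreeOff t t' (F' \ F)

private theorem closure_of_circ (hN : N.E = univ) (hv : IsRep k N v) {X : Set E} {y : E} {L : E → k}
    (hL : Circ (Rel k v) X y L) : y ∈ N.closure X := by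
  classical
  rw [mem_closure_iff hN hv X y]
  have h := (mem_rel L).1 hL.mem
  rw [← Finset.add_sum_erase Finset.univ _ (Finset.mem_univ y), hL.one, one_smul] at h
  rw [eq_neg_of_add_eq_zero_left h]
  apply Submodule.neg_mem
  apply Submodule.sum_mem
  intro e he
  have hey := (Finset.mem_erase.1 he).1
  by_cases heX : e ∈ X
  · exact Submodule.smul_mem _ _ (Submodule.subset_span ⟨e, heX, rfl⟩)
  · rw [hL.supp e heX hey, zero_smul]
    exact Submodule.zero_mem _

/-- exactly one element of the base is in `F' \ F` -/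
private theorem one_elt {F F' : Set E} (hcov : Cov Ω F F') (t : St N q)
    (hF : t.Ad Ω F) (hF' : t.Ad Ω F') : (t.B ∩ (F' \ F)).encard = 1 := by
  have h1 := hF.2.encard_eq_eRk
  have h2 := hF'.2.encard_eq_eRk
  have h3 : t.B ∩ F' = (t.B ∩ F) ∪ (t.B ∩ (F' \ F)) := by
    rw [← Set.inter_union_distrib_left, Set.union_sdiff_cancel hcov.2.2.1]
  have h4 : Disjoint (t.B ∩ F) (t.B ∩ (F' \ F)) := by
    rw [Set.disjoint_left]
    rintro x ⟨_, hx⟩ ⟨_, _, hx'⟩
    exact hx' hx
  rw [h3, Set.encard_union_eq h4, h1, hcov.2.2.2] at h2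
  have h5 : Ω.eRk F ≠ ⊤ := by
    rw [← h1]
    exact (Set.toFinite _).encard_lt_top.ne
  exact ENat.add_right_injective_of_ne_top h5 h2

omit [Fintype E] in
private theorem diff_sub {F F' X Y : Set E} (h : X \ (F' \ F) = Y \ (F' \ F)) :
    X \ F' = Y \ F' := by
  ext x
  constructor
  · rintro ⟨hx, hxF'⟩
    have h1 : x ∈ X \ (F' \ F) := ⟨hx, fun h' => hxF' h'.1⟩
    rw [h] at h1
    exact ⟨h1.1, hxF'⟩
  · rintro ⟨hx, hxF'⟩
    have h1 : x ∈ Y \ (F' \ F) := ⟨hx, fun h' => hxF' h'.1⟩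
    rw [← h] at h1
    exact ⟨h1.1, hxF'⟩

theorem span_circ (hc : Compl N Ω q) (hv : IsRep k N v) {F F' : Set E} (hcov : Cov Ω F F')
    (s : St N q) (hF : s.Ad Ω F) (hF' : s.Ad Ω F') (c : Fin q) :
    Rel k v ⊓ van k F ≤ (Rel k v ⊓ van k F') ⊔ Submodule.span k
      {L | ∃ (t : St N q) (y : E), t.Ad Ω F ∧ t.Ad Ω F' ∧ AgreeOff s t (F' \ F) ∧
        y ∈ t.B ∩ (F' \ F) ∧ Circ (Rel k v) (t.A c \ F) y L} := by
  classical
  have hN := hc.groundN
  have hFF' : F ⊆ F' := hcov.2.2.1
  obtain ⟨W, hW⟩ : ∃ W : Submodule k (E → k), W = (Rel k v ⊓ van k F') ⊔ Submodule.span k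
      {L | ∃ (t : St N q) (y : E), t.Ad Ω F ∧ t.Ad Ω F' ∧ AgreeOff s t (F' \ F) ∧
        y ∈ t.B ∩ (F' \ F) ∧ Circ (Rel k v) (t.A c \ F) y L} := ⟨_, rfl⟩
  rw [← hW]
  have hW1 : Rel k v ⊓ van k F' ≤ W := by rw [hW]; exact le_sup_left
  have hW2 : ∀ (t : St N q) (y : E) (L : E → k), t.Ad Ω F → t.Ad Ω F' → AgreeOff s t (F' \ F) →
      y ∈ t.B ∩ (F' \ F) → Circ (Rel k v) (t.A c \ F) y L → L ∈ W := by
    intro t y L h1 h2 h3 h4 h5
    rw [hW]
    exact Submodule.mem_sup_right (Submodule.subset_span ⟨t, y, h1, h2, h3, h4, h5⟩)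
  obtain ⟨A, hA⟩ : ∃ A : Set E, A = s.A c \ F := ⟨_, rfl⟩
  have hAi : N.Indep A := by
    rw [hA]
    exact (s.st.1.1 c).indep.subset Set.sdiff_subset
  have hspanA : ∀ e, e ∉ F → e ∈ N.closure A := by
    intro e he
    rw [hA]
    exact span_compl hc s hF c he
  -- reachable states
  obtain ⟨Re, hRe⟩ : ∃ Re : St N q → Prop,
    Re = fun t => Relation.ReflTransGen (Step N Ω q k v F F') s t := ⟨_, rfl⟩
  have hRe0 : Re s := by rw [hRe]
  have hRe1 : ∀ t t', Re t → Step N Ω q k v F F' t t' → Re t' := by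
    intro t t' h h'
    rw [hRe] at h ⊢
    exact h.tail h'
  have hReI : ∀ P : St N q → Prop, P s →
      (∀ t t', Re t → Step N Ω q k v F F' t t' → P t → P t') → ∀ t, Re t → P t := by
    intro P h0 h1 t ht
    rw [hRe] at ht
    induction ht with
    | refl => exact h0
    | tail hab hbc ih =>
      refine h1 _ _ ?_ hbc ih
      rw [hRe]
      exact hab
  have hReAd : ∀ t, Re t → t.Ad Ω F ∧ t.Ad Ω F' ∧ AgreeOff s t (F' \ F) := by
    apply hReI
    · exact ⟨hF, hF', agree_refl _ _⟩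
    · rintro t t' _ ⟨y, l, L, e, _, _, _, _, _, _, _, h1, h2, h3⟩ ⟨_, _, h4⟩
      exact ⟨h1, h2, agree_trans h4 h3⟩
  -- a step from a reachable state
  have hstep : ∀ t, Re t → ∀ (y : E) (l : Fin q) (L : E → k) (e : E), y ∈ t.B ∩ (F' \ F) →
      Circ (Rel k v) (t.A l \ F) y L → e ∈ t.A l ∩ (F' \ F) → L e ≠ 0 →
      ∃ t', Re t' ∧ e ∈ t'.B := by
    intro t ht y l L e hy hL he hLe
    obtain ⟨h1, h2, _⟩ := hReAd t ht
    obtain ⟨t', a1, a2, a3, a4, a5, a6⟩ := swap_state hc hv hcov t h1 h2 hy hL he hLe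
    refine ⟨t', hRe1 t t' ht ⟨y, l, L, e, hy, hL, he, hLe, a1, a2, a3, a4, a5, a6⟩, ?_⟩
    rw [a1]
    exact Or.inl rfl
  -- the chosen circuits
  have hex : ∀ e : E, ∃ L : E → k, e ∉ F → e ∉ A → Circ (Rel k v) A e L := by
    intro e
    by_cases h : e ∉ F ∧ e ∉ A
    · obtain ⟨L, hL⟩ := exists_circ hN hv (hspanA e h.1) h.2
      exact ⟨L, fun _ _ => hL⟩
    · exact ⟨0, fun h1 h2 => absurd ⟨h1, h2⟩ h⟩
  choose cc hcc using hex
  -- (1)
  have hout : ∀ e, e ∉ F' → e ∉ A → cc e ∈ W := by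
    intro e he heA
    have heF : e ∉ F := fun h => he (hFF' h)
    have hes : e ∉ s.A c := fun h => heA (by rw [hA]; exact ⟨h, heF⟩)
    obtain ⟨L', hL'⟩ := exists_circ hN hv (span_compl hc s hF' c he) (fun h => hes h.1)
    have hsub : s.A c \ F' ⊆ A := by
      rw [hA]
      exact fun x hx => ⟨hx.1, fun h => hx.2 (hFF' h)⟩
    have h1 : cc e = L' := circ_unique hv hAi (hcc e heF heA) (circ_mono hL' hsub)
    rw [h1]
    apply hW1
    refine ⟨hL'.mem, ?_⟩
    intro x hx
    exact hL'.supp x (fun h => h.2 hx) (fun h => he (h ▸ hx))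
  -- (2)
  have hG2 : ∀ t, Re t → (∀ e ∈ t.A c ∩ (F' \ F), e ∉ A → cc e ∈ W) →
      ∀ y ∈ t.B ∩ (F' \ F), y ∉ A → cc y ∈ W := by
    intro t ht hg y hy hyA
    obtain ⟨h1, h2, h3⟩ := hReAd t ht
    have hyt : y ∉ t.A c := t.notMem_A hy.1 c
    obtain ⟨L, hL⟩ := exists_circ hN hv (span_compl hc t h1 c hy.2.2) (fun h => hyt h.1)
    have hLW : L ∈ W := hW2 t y L h1 h2 h3 hy hL
    have hsum := rel_sum hv hAi cc hL.mem (fun e he hLe => by
      apply hcc e _ he
      intro heF
      apply hLe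
      apply hL.supp e (fun h => h.2 heF)
      rintro rfl
      exact hy.2.2 heF)
    rw [← Finset.add_sum_erase Finset.univ _ (Finset.mem_univ y), if_neg hyA, hL.one,
      one_smul] at hsum
    have h4 : ∑ e ∈ Finset.univ.erase y, (if e ∈ A then (0 : E → k) else L e • cc e) ∈ W := by
      apply Submodule.sum_mem
      intro e he
      have hey := (Finset.mem_erase.1 he).1
      by_cases heA : e ∈ A
      · rw [if_pos heA]
        exact Submodule.zero_mem _
      · rw [if_neg heA]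
        by_cases hLe : L e = 0
        · rw [hLe, zero_smul]
          exact Submodule.zero_mem _
        · apply Submodule.smul_mem
          have het : e ∈ t.A c \ F := by
            by_contra hn
            exact hLe (hL.supp e hn hey)
          by_cases heF' : e ∈ F'
          · exact hg e ⟨het.1, heF', het.2⟩ heA
          · exact hout e heF' heA
    have h5 : cc y = L - ∑ e ∈ Finset.univ.erase y,
        (if e ∈ A then (0 : E → k) else L e • cc e) := by
      rw [eq_sub_iff_add_eq]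
      exact hsum.symm
    rw [h5]
    exact Submodule.sub_mem _ hLW h4
  have hG1 : ∀ t, Re t → ∀ e ∈ t.A c ∩ (F' \ F), e ∉ A → cc e ∈ W := by
    apply hReI
    · intro e he heA
      exact absurd (by rw [hA]; exact ⟨he.1, he.2.2⟩) heA
    · rintro t t' ht ⟨y, l, L, e, hy, _, _, _, _, b2, b3, _, _, _⟩ ih x hx hxA
      by_cases hl : c = l
      · rw [hl, b2] at hx
        rcases hx.1 with h | h
        · rw [h]
          rw [h] at hxA
          exact hG2 t ht ih y hy hxA
        · exact ih x (by rw [hl]; exact ⟨h.1, hx.2⟩) hxA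
      · rw [b3 c hl] at hx
        exact ih x hx hxA
  -- (3)
  obtain ⟨Y, hY⟩ : ∃ Y : Set E, Y = {y | ∃ t, Re t ∧ y ∈ t.B ∩ (F' \ F)} := ⟨_, rfl⟩
  have hYm : ∀ y, y ∈ Y ↔ ∃ t, Re t ∧ y ∈ t.B ∩ (F' \ F) := by
    intro y
    rw [hY]
    rfl
  have hYsub : Y ⊆ F' \ F := by
    intro y hy
    obtain ⟨t, _, h⟩ := (hYm y).1 hy
    exact h.2
  have h3a : ∀ t, Re t → ∀ y ∈ t.B ∩ (F' \ F), ∀ l,
      y ∈ N.closure ((t.A l ∩ Y) ∪ (t.A l \ F')) := by
    intro t ht y hy l
    obtain ⟨h1, h2, _⟩ := hReAd t ht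
    have hyt : y ∉ t.A l := t.notMem_A hy.1 l
    obtain ⟨L, hL⟩ := exists_circ hN hv (span_compl hc t h1 l hy.2.2) (fun h => hyt h.1)
    apply closure_of_circ hN hv (L := L)
    refine ⟨hL.mem, hL.one, ?_⟩
    intro e he hey
    by_contra hLe
    have het : e ∈ t.A l \ F := by
      by_contra hn
      exact hLe (hL.supp e hn hey)
    by_cases heF' : e ∈ F'
    · obtain ⟨t', ht', het'⟩ := hstep t ht y l L e hy hL ⟨het.1, heF', het.2⟩ hLe
      exact he (Or.inl ⟨het.1, (hYm e).2 ⟨t', ht', het', heF', het.2⟩⟩)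
    · exact he (Or.inr ⟨het.1, heF'⟩)
  have hdiff : ∀ t, Re t → ∀ l, t.A l \ F' = s.A l \ F' := fun t ht l =>
    (diff_sub ((hReAd t ht).2.2.2 l)).symm
  have h3b : ∀ t, Re t → ∀ l, N.closure ((t.A l ∩ Y) ∪ (t.A l \ F')) ⊆
      N.closure ((s.A l ∩ Y) ∪ (s.A l \ F')) := by
    apply hReI
    · intro l
      exact subset_rfl
    · rintro t t' ht hst ih l
      have ht' := hRe1 t t' ht hst
      obtain ⟨y, l0, L, e, hy, hL, he, hLe, b1, b2, b3, _, _, _⟩ := hst
      refine subset_trans ?_ (ih l)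
      by_cases hl : l = l0
      · have h1 : (t'.A l ∩ Y) ∪ (t'.A l \ F') ⊆ N.closure ((t.A l ∩ Y) ∪ (t.A l \ F')) := by
          intro x hx
          have h2 : (t.A l ∩ Y) ∪ (t.A l \ F') ⊆ N.closure ((t.A l ∩ Y) ∪ (t.A l \ F')) :=
            N.subset_closure _ (by rw [hN]; exact Set.subset_univ _)
          rcases hx with hx | hx
          · have h3 := hx.1
            rw [hl, b2] at h3
            rcases h3 with h3 | h3
            · rw [h3]
              exact h3a t ht y hy l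
            · exact h2 (Or.inl ⟨by rw [hl]; exact h3.1, hx.2⟩)
          · rw [hdiff t' ht' l, ← hdiff t ht l] at hx
            exact h2 (Or.inr hx)
        exact N.closure_subset_closure_of_subset_closure h1
      · rw [b3 l hl]
  have hYcl : ∀ l, Y ⊆ N.closure ((s.A l ∩ Y) ∪ (s.A l \ F')) := by
    intro l y hy
    obtain ⟨t, ht, h⟩ := (hYm y).1 hy
    exact h3b t ht l (h3a t ht y h l)
  have hYeq : ∀ e ∈ F' \ F, e ∈ Y := by
    intro e he
    by_contra heY
    obtain ⟨u, u1, u2, u3, u4⟩ := state_with hc hcov s hF hF' he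
    have huniq : ∀ y ∈ Y, y ∉ u.B := by
      intro y hy hyu
      obtain ⟨z, hz⟩ := Set.encard_eq_one.1 (one_elt hcov u u1 u2)
      have h1 : e ∈ u.B ∩ (F' \ F) := ⟨u3, he⟩
      have h2 : y ∈ u.B ∩ (F' \ F) := ⟨hyu, hYsub hy⟩
      rw [hz] at h1 h2
      apply heY
      rw [Set.mem_singleton_iff.1 h1, ← Set.mem_singleton_iff.1 h2]
      exact hy
    have hle : ∀ l, (u.A l ∩ Y).ncard ≤ (s.A l ∩ Y).ncard := by
      intro l
      have hd : u.A l \ F' = s.A l \ F' := (diff_sub (u4.2 l)).symm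
      have i1 : N.Indep ((u.A l ∩ Y) ∪ (u.A l \ F')) :=
        (u.st.1.1 l).indep.subset (Set.union_subset Set.inter_subset_left Set.sdiff_subset)
      have i2 : N.Indep ((s.A l ∩ Y) ∪ (s.A l \ F')) :=
        (s.st.1.1 l).indep.subset (Set.union_subset Set.inter_subset_left Set.sdiff_subset)
      have h1 : (u.A l ∩ Y) ∪ (u.A l \ F') ⊆ N.closure ((s.A l ∩ Y) ∪ (s.A l \ F')) := by
        rintro x (hx | hx)
        · exact hYcl l hx.2
        · rw [hd] at hx
          exact N.subset_closure _ (by rw [hN]; exact Set.subset_univ _) (Or.inr hx)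
      have h2 := i1.encard_le_eRk_of_subset h1
      rw [N.eRk_closure_eq, i2.eRk_eq_encard] at h2
      have dj : ∀ X : Set E, Disjoint (X ∩ Y) (X \ F') := by
        intro X
        rw [Set.disjoint_left]
        rintro x ⟨_, hx⟩ ⟨_, hx'⟩
        exact hx' (hYsub hx).1
      rw [Set.encard_union_eq (dj _), Set.encard_union_eq (dj _), hd] at h2
      have h3 : (s.A l \ F').encard ≠ ⊤ := (Set.toFinite _).encard_lt_top.ne
      have h4 : (u.A l ∩ Y).encard ≤ (s.A l ∩ Y).encard := (ENat.add_le_add_iff_right h3).1 h2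
      rw [← Set.Finite.cast_ncard_eq (Set.toFinite (u.A l ∩ Y)),
        ← Set.Finite.cast_ncard_eq (Set.toFinite (s.A l ∩ Y))] at h4
      exact_mod_cast h4
    have c1 := card_split u Y
    have c2 := card_split s Y
    have c3 : (u.B ∩ Y).ncard = 0 := by
      rw [Set.ncard_eq_zero (Set.toFinite _)]
      ext x
      simp only [Set.mem_inter_iff, Set.mem_empty_iff_false, iff_false]
      rintro ⟨h1, h2⟩
      exact huniq x h2 h1
    have c4 : 1 ≤ (s.B ∩ Y).ncard := by
      obtain ⟨z, hz⟩ := Set.encard_eq_one.1 (one_elt hcov s hF hF')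
      have h1 : z ∈ s.B ∩ (F' \ F) := by rw [hz]; exact Set.mem_singleton z
      have h2 : z ∈ s.B ∩ Y := ⟨h1.1, (hYm z).2 ⟨s, hRe0, h1⟩⟩
      rw [Nat.one_le_iff_ne_zero]
      intro h0
      rw [Set.ncard_eq_zero (Set.toFinite _)] at h0
      rw [h0] at h2
      exact h2
    have c5 : ∑ l, (u.A l ∩ Y).ncard ≤ ∑ l, (s.A l ∩ Y).ncard :=
      Finset.sum_le_sum (fun l _ => hle l)
    omega
  -- conclusion
  rintro L ⟨hL1, hL2⟩
  have hsum := rel_sum hv hAi cc hL1 (fun e he hLe => hcc e (fun heF => hLe (hL2 e heF)) he)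
  rw [hsum]
  apply Submodule.sum_mem
  intro e _
  by_cases heA : e ∈ A
  · rw [if_pos heA]
    exact Submodule.zero_mem _
  · rw [if_neg heA]
    by_cases hLe : L e = 0
    · rw [hLe, zero_smul]
      exact Submodule.zero_mem _
    · apply Submodule.smul_mem
      have heF : e ∉ F := fun h => hLe (hL2 e h)
      by_cases heF' : e ∈ F'
      · obtain ⟨t, ht, h⟩ := (hYm e).1 (hYeq e ⟨heF', heF⟩)
        exact hG2 t ht (hG1 t ht) e h heA
      · exact hout e heF' heA

end Pool.Agent.W3
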