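import Pool.Agent.W3.Classes
import Pool.Agent.W3.SpanCirc

/-!
The linear forms used in the two step lemma `P2`.

`HF s c`: circuits of colour `c` through an element of `F1 \ F0`, for states which agree with `s`
outside `F1`; `GF s c`: circuits of colour `c` of `s` through the element of `F2 \ F1`.

Proofs.
* `HF_sub`, `GF_sub`: `y ∉ F0` and `t.A c \ F0` is disjoint from `F0`, similarly for `GF` with `F1`.
* `span_HF`: `span_circ` for `F0 ⋖ F1`; a state which agrees with `s` outside `F1 \ F0` agrees with `s`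
  outside `F1`, and is adapted to `F2` by `ad_of_agree`.
* `span_GF`: take a state `s` adapted to `F0, F1, F2` (`exists_ad`) and apply `span_circ` for `F1 ⋖ F2`;
  the states which occur are adapted to `F0` by `ad_of_agree`.
* `pair_van`, `triple_van`: use `classes`. If `y ∉ H` and `Hᶜ ⊆ N.closure (A \ H)`, `A` a base of `N`,
  then a relation `Circ (Rel k v) (A \ F0) y L` (or with `A \ F1`) vanishes on `H`: by `exists_circ` there
  is a relation `Circ (Rel k v) (A \ H) y L'`, both are `Circ (Rel k v) A y`, so `L = L'` by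
  `circ_unique`. Note `F1 ∩ H = F0` (see `classes`), so `y ∈ F1 \ F0` is not in `H`; and `x ∈ F2 \ F1`
  is not in `H` in the second case of `classes` (there `x ∈ s.B`, `x ∉ F0`).
  First case of `classes`: all elements of `HF s c`, all `c`, vanish on `H`. Second case: all
  elements of `HF s c` and of `GF s c` with `c ≠ c0` vanish on `H`.
-/

set_option autoImplicit false

namespace Pool.Agent.W3

open Set

variable {E : Type*} [Fintype E] {N Ω : Matroid E} {q : ℕ} {k T : Type*} [Field k]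
  [AddCommGroup T] [Module k T] {v : E → T}

/-- The state `s` is adapted to the three flats. -/
def Ad3 (Ω : Matroid E) (F0 F1 F2 : Set E) (s : St N q) : Prop :=
  s.Ad Ω F0 ∧ s.Ad Ω F1 ∧ s.Ad Ω F2

/-- Circuits through an element of `F1 \ F0`. -/
def HF (k : Type*) {T : Type*} [Field k] [AddCommGroup T] [Module k T] (v : E → T)
    (Ω : Matroid E) (F0 F1 F2 : Set E) (s : St N q) (c : Fin q) : Set (E → k) :=
  {L | ∃ (t : St N q) (y : E), Ad3 Ω F0 F1 F2 t ∧ AgreeOff s t F1 ∧ y ∈ t.B ∩ (F1 \ F0) ∧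
    Circ (Rel k v) (t.A c \ F0) y L}

/-- Circuits through an element of `F2 \ F1`. -/
def GF (k : Type*) {T : Type*} [Field k] [AddCommGroup T] [Module k T] (v : E → T)
    (F1 F2 : Set E) (s : St N q) (c : Fin q) : Set (E → k) :=
  {L | ∃ x : E, x ∈ s.B ∩ (F2 \ F1) ∧ Circ (Rel k v) (s.A c \ F1) x L}

namespace Fo

omit [Fintype E] in
theorem agree_mono {s t : St N q} {X Y : Set E} (h : AgreeOff s t X) (hXY : X ⊆ Y) :
    AgreeOff s t Y := by
  have key : ∀ S S' : Set E, S \ X = S' \ X → S \ Y = S' \ Y := by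
    intro S S' h1
    ext x
    constructor
    · rintro ⟨hx, hxY⟩
      have h2 : x ∈ S \ X := ⟨hx, fun h3 => hxY (hXY h3)⟩
      rw [h1] at h2
      exact ⟨h2.1, hxY⟩
    · rintro ⟨hx, hxY⟩
      have h2 : x ∈ S' \ X := ⟨hx, fun h3 => hxY (hXY h3)⟩
      rw [← h1] at h2
      exact ⟨h2.1, hxY⟩
  exact ⟨key _ _ h.1, fun l => key _ _ (h.2 l)⟩

omit [Fintype E] in
theorem circ_mono {R : Submodule k (E → k)} {X X' : Set E} {y : E} {L : E → k}
    (h : Circ R X y L) (hs : X ⊆ X') : Circ R X' y L :=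
  ⟨h.mem, h.one, fun e he hy => h.supp e (fun h' => he (hs h')) hy⟩

theorem van_of_span (hN : N.E = univ) (hv : IsRep k N v) {A : Set E} (hA : N.IsBase A)
    {F H : Set E} {y : E} {L : E → k} (hL : Circ (Rel k v) (A \ F) y L) (hyA : y ∉ A)
    (hyH : y ∉ H) (hs : Hᶜ ⊆ N.closure (A \ H)) : L ∈ van k H := by
  obtain ⟨L', hL'⟩ := exists_circ hN hv (hs hyH) (fun h => hyA h.1)
  have h1 : L = L' := circ_unique hv hA.indep (circ_mono hL Set.sdiff_subset)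
    (circ_mono hL' Set.sdiff_subset)
  rw [h1]
  intro e he
  exact hL'.supp e (fun h => h.2 he) (fun h => hyH (h ▸ he))

/-- Different points of an interval of rank two meet in the lower flat. -/
theorem cov_inter {F0 F1 H : Set E} (hg : Ω.E = univ) (h01 : Cov Ω F0 F1) (h0H : Cov Ω F0 H)
    (hne : H ≠ F1) {y : E} (hy : y ∈ F1 \ F0) : y ∉ H := by
  intro hyH
  have h1 : Ω.eRk (insert y F0) = Ω.eRk F0 + 1 := by
    apply Matroid.eRk_insert_eq_add_one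
    rw [h01.1.closure]
    exact ⟨by rw [hg]; exact mem_univ y, hy.2⟩
  have key : ∀ G : Set E, Cov Ω F0 G → y ∈ G → Ω.closure (insert y F0) = G := by
    intro G hG hyG
    have hfin : Ω.IsRkFinite (insert y F0) :=
      Ω.isRkFinite_of_finite (Set.toFinite _)
    have hsub : insert y F0 ⊆ G := Set.insert_subset hyG hG.2.2.1
    have h2 := hfin.closure_eq_closure_of_subset_of_eRk_ge_eRk hsub (by
      rw [h1, hG.2.2.2])
    rw [h2, hG.2.1.closure]
  exact hne ((key H h0H hyH).symm.trans (key F1 h01 hy.1))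

theorem HF_van (hc : Compl N Ω q) (hv : IsRep k N v) {F0 F1 F2 H : Set E}
    (h01 : Cov Ω F0 F1) (h0H : Cov Ω F0 H) (hne : H ≠ F1) {s : St N q} {c : Fin q} {L : E → k}
    (hsp : ∀ t : St N q, t.Ad Ω F0 → t.Ad Ω F1 → t.Ad Ω F2 → AgreeOff s t F1 →
      Hᶜ ⊆ N.closure (t.A c \ H)) (hL : L ∈ HF k v Ω F0 F1 F2 s c) : L ∈ van k H := by
  obtain ⟨t, y, ht, hag, hy, hcirc⟩ := hL
  exact van_of_span hc.groundN hv (t.st.1.1 c) hcirc
    (fun h => Set.disjoint_left.1 (t.st.2.1 c) hy.1 h)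
    (cov_inter hc.ground h01 h0H hne hy.2) (hsp t ht.1 ht.2.1 ht.2.2 hag)

theorem GF_van (hc : Compl N Ω q) (hv : IsRep k N v) {F0 F1 F2 H : Set E}
    (h01 : Cov Ω F0 F1) {s : St N q} {c : Fin q} {L : E → k}
    (hx : ∀ x ∈ s.B, x ∉ H \ F0) (hsp : Hᶜ ⊆ N.closure (s.A c \ H))
    (hL : L ∈ GF k v F1 F2 s c) : L ∈ van k H := by
  obtain ⟨x, hxB, hcirc⟩ := hL
  refine van_of_span hc.groundN hv (s.st.1.1 c) hcirc
    (fun h => Set.disjoint_left.1 (s.st.2.1 c) hxB.1 h) ?_ hsp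
  intro hxH
  exact hx x hxB.1 ⟨hxH, fun h => hxB.2.2 (h01.2.2.1 h)⟩

end Fo

open Fo

theorem HF_sub {F0 F1 F2 : Set E} {s : St N q} {c : Fin q} :
    HF k v Ω F0 F1 F2 s c ⊆ (Rel k v ⊓ van k F0 : Submodule k (E → k)) := by
  rintro L ⟨t, y, _, _, hy, hcirc⟩
  refine ⟨hcirc.mem, fun e he => ?_⟩
  exact hcirc.supp e (fun h => h.2 he) (fun h => hy.2.2 (h ▸ he))

theorem GF_sub {F1 F2 : Set E} {s : St N q} {c : Fin q} :
    GF k v F1 F2 s c ⊆ (Rel k v ⊓ van k F1 : Submodule k (E → k)) := by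
  rintro L ⟨x, hx, hcirc⟩
  refine ⟨hcirc.mem, fun e he => ?_⟩
  exact hcirc.supp e (fun h => h.2 he) (fun h => hx.2.2 (h ▸ he))

theorem span_HF (hc : Compl N Ω q) (hv : IsRep k N v) {F0 F1 F2 : Set E} (h01 : Cov Ω F0 F1)
    (h12 : Cov Ω F1 F2) (s : St N q) (hs : Ad3 Ω F0 F1 F2 s) (c : Fin q) :
    Rel k v ⊓ van k F0 ≤
      (Rel k v ⊓ van k F1) ⊔ Submodule.span k (HF k v Ω F0 F1 F2 s c) := by
  refine (span_circ hc hv h01 s hs.1 hs.2.1 c).trans (sup_le_sup_left (Submodule.span_mono ?_) _)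
  rintro L ⟨t, y, h0, h1, hag, hy, hcirc⟩
  refine ⟨t, y, ⟨h0, h1, ?_⟩, agree_mono hag Set.sdiff_subset, hy, hcirc⟩
  exact ad_of_agree hc h01.2.2.1 hs.1 hs.2.1 h0 h1 hag hs.2.2 (Or.inr h12.2.2.1)

theorem span_GF (hc : Compl N Ω q) (hv : IsRep k N v) {F0 F1 F2 : Set E} (h01 : Cov Ω F0 F1)
    (h12 : Cov Ω F1 F2) (c : Fin q) :
    Rel k v ⊓ van k F1 ≤ (Rel k v ⊓ van k F2) ⊔ Submodule.span k
      {L | ∃ s : St N q, Ad3 Ω F0 F1 F2 s ∧ L ∈ GF k v F1 F2 s c} := by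
  obtain ⟨s, hs0, hs1, hs2⟩ := exists_ad hc h01.1 h12.1 h12.2.1 h01.2.2.1 h12.2.2.1
  refine (span_circ hc hv h12 s hs1 hs2 c).trans (sup_le_sup_left (Submodule.span_mono ?_) _)
  rintro L ⟨t, y, h1, h2, hag, hy, hcirc⟩
  refine ⟨t, ⟨?_, h1, h2⟩, y, hy, hcirc⟩
  exact ad_of_agree hc h12.2.2.1 hs1 hs2 h1 h2 hag hs0 (Or.inl h01.2.2.1)

/-- Of two forms of different colours one vanishes on `H`. -/
theorem pair_van (hc : Compl N Ω q) (hv : IsRep k N v) {F0 F1 F2 H : Set E}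
    (h01 : Cov Ω F0 F1) (h12 : Cov Ω F1 F2) (h0H : Cov Ω F0 H) (hH2 : Cov Ω H F2) (hne : H ≠ F1)
    (s : St N q) (hs : Ad3 Ω F0 F1 F2 s) {c c' : Fin q} (hcc : c ≠ c') {L L' : E → k}
    (hL : L ∈ GF k v F1 F2 s c ∨ L ∈ HF k v Ω F0 F1 F2 s c)
    (hL' : L' ∈ HF k v Ω F0 F1 F2 s c') : L ∈ van k H ∨ L' ∈ van k H := by
  rcases classes hc h01 h12 h0H hH2 hne s hs.1 hs.2.1 hs.2.2 with ⟨-, h⟩ | ⟨hx, c0, h⟩
  · exact Or.inr (HF_van hc hv h01 h0H hne (fun t h0 h1 h2 hag => h t h0 h1 h2 hag c') hL')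
  · by_cases hc0 : c' = c0
    · left
      have hc1 : c ≠ c0 := fun h3 => hcc (h3.trans hc0.symm)
      rcases hL with hL | hL
      · exact GF_van hc hv h01 hx (h s hs.1 hs.2.1 hs.2.2 ⟨rfl, fun _ => rfl⟩ c hc1) hL
      · exact HF_van hc hv h01 h0H hne (fun t h0 h1 h2 hag => h t h0 h1 h2 hag c hc1) hL
    · exact Or.inr (HF_van hc hv h01 h0H hne (fun t h0 h1 h2 hag => h t h0 h1 h2 hag c' hc0) hL')

/-- Of three forms of different colours two vanish on `H`. -/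
theorem triple_van (hc : Compl N Ω q) (hv : IsRep k N v) {F0 F1 F2 H : Set E}
    (h01 : Cov Ω F0 F1) (h12 : Cov Ω F1 F2) (h0H : Cov Ω F0 H) (hH2 : Cov Ω H F2) (hne : H ≠ F1)
    (s : St N q) (hs : Ad3 Ω F0 F1 F2 s) {c c' c'' : Fin q} (h1 : c ≠ c') (h2 : c ≠ c'')
    (h3 : c' ≠ c'') {L L' L'' : E → k}
    (hL : L ∈ GF k v F1 F2 s c ∨ L ∈ HF k v Ω F0 F1 F2 s c)
    (hL' : L' ∈ HF k v Ω F0 F1 F2 s c') (hL'' : L'' ∈ HF k v Ω F0 F1 F2 s c'') :
    (L ∈ van k H ∧ L' ∈ van k H) ∨ (L ∈ van k H ∧ L'' ∈ van k H) ∨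
      (L' ∈ van k H ∧ L'' ∈ van k H) := by
  rcases classes hc h01 h12 h0H hH2 hne s hs.1 hs.2.1 hs.2.2 with ⟨-, h⟩ | ⟨hx, c0, h⟩
  · exact Or.inr (Or.inr
      ⟨HF_van hc hv h01 h0H hne (fun t a0 a1 a2 hag => h t a0 a1 a2 hag c') hL',
        HF_van hc hv h01 h0H hne (fun t a0 a1 a2 hag => h t a0 a1 a2 hag c'') hL''⟩)
  · have v0 : c ≠ c0 → L ∈ van k H := by
      intro hc1
      rcases hL with hL | hL
      · exact GF_van hc hv h01 hx (h s hs.1 hs.2.1 hs.2.2 ⟨rfl, fun _ => rfl⟩ c hc1) hL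
      · exact HF_van hc hv h01 h0H hne (fun t a0 a1 a2 hag => h t a0 a1 a2 hag c hc1) hL
    have v1 : c' ≠ c0 → L' ∈ van k H := fun hc1 =>
      HF_van hc hv h01 h0H hne (fun t a0 a1 a2 hag => h t a0 a1 a2 hag c' hc1) hL'
    have v2 : c'' ≠ c0 → L'' ∈ van k H := fun hc1 =>
      HF_van hc hv h01 h0H hne (fun t a0 a1 a2 hag => h t a0 a1 a2 hag c'' hc1) hL''
    by_cases e1 : c' = c0
    · exact Or.inr (Or.inl ⟨v0 (fun h4 => h1 (h4.trans e1.symm)),
        v2 (fun h4 => h3 (e1.trans h4.symm))⟩)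
    · by_cases e2 : c'' = c0
      · exact Or.inl ⟨v0 (fun h4 => h2 (h4.trans e2.symm)), v1 e1⟩
      · exact Or.inr (Or.inr ⟨v1 e1, v2 e2⟩)

end Pool.Agent.W3
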