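import Pool.Agent.W3.LLDefs

/-!
The function `gf` is locally linear.

Proof of `gf_LL`. Let `A0 := a '' {s}ᶜ`, `H := Ω.closure A0`. `A0` is independent with `card ι - 1`
elements, so `Ω.eRk H + 1 = Ω.eRank`, and `Cov Ω H univ` (`univ = Ω.E` is a flat). Extend `A0` to a base
`B` of `Ω` (`Indep.exists_isBase_superset`); `hc.base` gives a state `s0` with `s0.B = B`. `B ∩ H = A0`
(`B ∩ H` is independent and contained in the closure of `A0 ⊆ B ∩ H`), so `s0` is adapted to `H`; it is
adapted to `univ` (`IsBase`, `Matroid.isBasis_ground_iff`).
The set of the `L` with `∑ e, L e * gf (update a s e) = 0` is a submodule. Apply `span_circ` with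
`F := H`, `F' := univ`, the state `s0` and a colour `c`; `Rel k v ⊓ van k univ` contains only zero. So it is
enough to treat `L` with `Circ (Rel k v) (t.A c \ H) y L`, where `t` is adapted to `H`,
`y ∈ t.B ∩ (univ \ H)` and `t.B ∩ H = s0.B ∩ H = A0` (`AgreeOff s0 t (univ \ H)`). `t.B` is a base of `Ω`
(`hc.base`), so it has `card ι` elements and `t.B = insert y A0`.
Let `c' ≠ c` be another colour (`2 ≤ q`) and `x := chi k N P0 (t.A c')`. Claim: for every `e` with
`L e ≠ 0`: `gf (update a s e) = x * b.det (fun s' => v (update a s e s'))`.
Proof: `e = y` or `e ∈ t.A c \ H`, so `e ∉ H`; so `update a s e` is injective (the other values are in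
`A0 ⊆ H`) with range `insert e A0`, which is a base of `Ω` (independent because `e ∉ closure A0`, with
`card ι` elements). If the determinant is zero both sides are zero. If it is not zero then
`insert e A0` is a base of `N` (`base_of_det`). If `e = y`, `partn_of_state t` and `chi_eq` for the
members `t.B` and `t.A c'` give `chi (insert y A0) = x`. If `e ≠ y`: `swap_state` (`F := H`, `F' := univ`)
gives a state `t'` with `t'.B = insert e (t.B \ {y}) = insert e A0` and `t'.A c' = t.A c'`; again
`chi_eq` for `partn_of_state t'`.
So `∑ e, L e * gf (update a s e) = x * ∑ e, L e * b.det (update (v ∘ a) s (v e))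
= x * b.det (update (v ∘ a) s (∑ e, L e • v e)) = 0` (`mem_rel`; `AlternatingMap.map_update_sum`,
`map_update_smul`, `map_update_zero`).
-/

set_option autoImplicit false

namespace Pool.Agent.W3

open Set

section Aux

variable {E : Type*}

private theorem ll_base_of_card [Finite E] {Ω : Matroid E} {I : Set E} (hI : Ω.Indep I)
    (h : Ω.eRank ≤ I.encard) : Ω.IsBase I := by
  obtain ⟨B, hB, hIB⟩ := hI.exists_isBase_superset
  have h1 : B.encard = Ω.eRank := hB.encard_eq_eRank
  have h2 : I = B := by
    refine Set.Finite.eq_of_subset_of_encard_le (Set.toFinite I) hIB ?_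
    rw [h1]
    exact h
  rw [h2]
  exact hB

private theorem ll_range_update {ι : Type*} [DecidableEq ι] (a : ι → E) (s : ι) (e : E) :
    range (Function.update a s e) = insert e (a '' {s}ᶜ) := by
  ext z
  simp only [mem_range, mem_insert_iff, mem_image, mem_compl_iff, mem_singleton_iff]
  constructor
  · rintro ⟨i, hi⟩
    by_cases h : i = s
    · subst h
      rw [Function.update_self] at hi
      exact Or.inl hi.symm
    · rw [Function.update_of_ne h] at hi
      exact Or.inr ⟨i, h, hi⟩
  · rintro (h | ⟨i, h, hi⟩)
    · exact ⟨s, by rw [Function.update_self, h]⟩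
    · exact ⟨i, by rw [Function.update_of_ne h, hi]⟩

private theorem ll_update_injective {ι : Type*} [DecidableEq ι] {a : ι → E} {s : ι} {e : E}
    (ha : Set.InjOn a {s}ᶜ) (he : e ∉ a '' {s}ᶜ) : Function.Injective (Function.update a s e) := by
  intro i j hij
  by_cases hi : i = s
  · by_cases hj : j = s
    · rw [hi, hj]
    · exfalso
      rw [hi, Function.update_self, Function.update_of_ne hj] at hij
      exact he ⟨j, hj, hij.symm⟩
  · by_cases hj : j = s
    · exfalso
      rw [hj, Function.update_self, Function.update_of_ne hi] at hij
      exact he ⟨i, hi, hij⟩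
    · rw [Function.update_of_ne hi, Function.update_of_ne hj] at hij
      exact ha hi hj hij

end Aux

variable {E : Type*} [Fintype E] [DecidableEq E] {N Ω : Matroid E} {q : ℕ} {k T : Type*}
  [Field k] [AddCommGroup T] [Module k T] {v : E → T} {ι : Type*} [Fintype ι] [DecidableEq ι]

theorem gf_LL (hc : Compl N Ω q) (hv : IsRep k N v) (hq : 2 ≤ q)
    (hrk : Ω.eRank = Fintype.card ι) (b : Module.Basis ι k T) {P0 : Fin (q + 1) → Set E}
    (h0 : Pool.Agent.WD.IsPartn N univ P0) (s : ι) (a : ι → E) (ha : Set.InjOn a {s}ᶜ)
    (hA : Ω.Indep (a '' {s}ᶜ)) (L : E → k)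
    (hL : L ∈ Rel k v ⊓ van k (Ω.closure (a '' {s}ᶜ))) :
    ∑ e, L e * gf N Ω P0 v b (Function.update a s e) = 0 := by
  classical
  set A0 : Set E := a '' {s}ᶜ with hA0
  set H : Set E := Ω.closure A0 with hH
  -- sizes
  have hcard : A0.encard + 1 = Fintype.card ι := by
    rw [hA0, ha.encard_image]
    have h1 : ({s}ᶜ : Set ι).encard = ((Fintype.card ι - 1 : ℕ) : ℕ∞) := by
      rw [Set.encard_eq_coe_toFinset_card, Set.toFinset_compl, Set.toFinset_singleton,
        Finset.card_compl, Finset.card_singleton]
    rw [h1]
    have h2 : 0 < Fintype.card ι := Fintype.card_pos_iff.2 ⟨s⟩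
    have h3 : Fintype.card ι = (Fintype.card ι - 1) + 1 := by omega
    conv_rhs => rw [h3]
    push_cast
    rfl
  have hground : Ω.E = univ := hc.ground
  have hA0H : A0 ⊆ H := Ω.subset_closure A0 (by rw [hground]; exact subset_univ _)
  have hflatH : Ω.IsFlat H := Ω.isFlat_closure A0
  have hflatU : Ω.IsFlat univ := by
    rw [← hground]
    exact Ω.ground_isFlat
  have hrkH : Ω.eRk H = A0.encard := by
    rw [hH, Matroid.eRk_closure_eq, hA.eRk_eq_encard]
  have hrkU : Ω.eRk univ = Ω.eRank := by
    rw [← hground, Matroid.eRk_ground]
  have hcov : Cov Ω H univ := ⟨hflatH, hflatU, subset_univ _, by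
    rw [hrkU, hrkH, hcard, hrk]⟩
  -- for `e ∉ H`, `insert e A0` is a base
  have hins : ∀ e, e ∉ H → Ω.IsBase (insert e A0) := by
    intro e he
    have h1 := (hA.notMem_closure_iff (e := e) (by rw [hground]; exact mem_univ _)).1 he
    refine ll_base_of_card h1.1 ?_
    rw [Set.encard_insert_of_notMem h1.2, hcard, hrk]
  -- the first state
  obtain ⟨B, hB, hAB⟩ := hA.exists_isBase_superset
  obtain ⟨A, hst⟩ := (hc.base B).1 hB
  set s0 : St N q := ⟨B, A, hst⟩ with hs0
  have hBH : B ∩ H = A0 := by
    have h1 : Ω.IsBasis A0 H := hA.isBasis_closure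
    exact (h1.eq_of_subset_indep (hB.indep.subset inter_subset_left)
      (subset_inter hAB hA0H) inter_subset_right).symm
  have hF : s0.Ad Ω H := ⟨hflatH, by
    change Ω.IsBasis (B ∩ H) H
    rw [hBH]
    exact hA.isBasis_closure⟩
  have hF' : s0.Ad Ω univ := ⟨hflatU, by
    change Ω.IsBasis (B ∩ univ) univ
    rw [inter_univ, ← hground]
    exact hB.isBasis_ground⟩
  -- colours
  have hq0 : 0 < q := by omega
  have hq1 : 1 < q := by omega
  set c : Fin q := ⟨0, hq0⟩ with hcdef
  set c' : Fin q := ⟨1, hq1⟩ with hc'def
  have hcc' : c' ≠ c := by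
    rw [hcdef, hc'def]
    intro h
    have := congrArg Fin.val h
    simp at this
  -- the submodule
  set g : E → k := fun e => gf N Ω P0 v b (Function.update a s e) with hg
  set K : Submodule k (E → k) := LinearMap.ker (Fintype.linearCombination k g) with hK
  have memK : ∀ L' : E → k, L' ∈ K ↔ ∑ e, L' e * g e = 0 := by
    intro L'
    rw [hK, LinearMap.mem_ker, Fintype.linearCombination_apply]
    simp only [smul_eq_mul]
  have hspan := span_circ hc hv hcov s0 hF hF' c
  have hle : (Rel k v ⊓ van k univ) ⊔ Submodule.span k
      {L | ∃ (t : St N q) (y : E), t.Ad Ω H ∧ t.Ad Ω univ ∧ AgreeOff s0 t (univ \ H) ∧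
        y ∈ t.B ∩ (univ \ H) ∧ Circ (Rel k v) (t.A c \ H) y L} ≤ K := by
    refine sup_le ?_ ?_
    · intro L' hL'
      have h1 : ∀ e, L' e = 0 := fun e => hL'.2 e (mem_univ e)
      rw [memK]
      refine Finset.sum_eq_zero fun e _ => ?_
      rw [h1 e, zero_mul]
    · rw [Submodule.span_le]
      rintro L' ⟨t, y, ht, ht', hag, hy, hLc⟩
      rw [SetLike.mem_coe, memK]
      have hyH : y ∉ H := hy.2.2
      have hyA0 : y ∉ A0 := fun h => hyH (hA0H h)
      have htB : Ω.IsBase t.B := (hc.base t.B).2 ⟨t.A, t.st⟩
      have htH : t.B ∩ H = A0 := by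
        have h1 := hag.1
        have h2 : ∀ X : Set E, X \ (univ \ H) = X ∩ H := by
          intro X
          ext z
          simp
        rw [h2, h2] at h1
        rw [← h1]
        exact hBH
      have htBeq : insert y A0 = t.B := by
        refine (hins y hyH).eq_of_subset_isBase htB ?_
        intro z hz
        rcases hz with rfl | hz
        · exact hy.1
        · rw [← htH] at hz
          exact hz.1
      have htBy : t.B \ {y} = A0 := by
        rw [← htBeq]
        ext z
        simp only [mem_diff, mem_insert_iff, mem_singleton_iff]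
        constructor
        · rintro ⟨h | h, h'⟩
          · exact absurd h h'
          · exact h
        · intro h
          exact ⟨Or.inr h, fun h' => hyA0 (h' ▸ h)⟩
      set x : k := chi k N P0 (t.A c') with hx
      have hclaim : ∀ e, L' e ≠ 0 → g e = x * b.det (fun s' => v (Function.update a s e s')) := by
        intro e hLe
        have he : e = y ∨ e ∈ t.A c \ H := by
          by_contra hcon
          push Not at hcon
          exact hLe (hLc.supp e hcon.2 hcon.1)
        have heH : e ∉ H := by
          rcases he with rfl | he
          · exact hyH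
          · exact he.2
        have heA0 : e ∉ A0 := fun h => heH (hA0H h)
        have hinj : Function.Injective (Function.update a s e) := ll_update_injective ha heA0
        have hran : range (Function.update a s e) = insert e A0 := ll_range_update a s e
        have hbase : Ω.IsBase (range (Function.update a s e)) := by
          rw [hran]
          exact hins e heH
        have hgf : g e = chi k N P0 (insert e A0) *
            b.det (fun s' => v (Function.update a s e s')) := by
          rw [hg]
          change gf N Ω P0 v b (Function.update a s e) = _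
          unfold gf
          rw [if_pos ⟨hinj, hbase⟩, hran]
        rw [hgf]
        by_cases hdet : b.det (fun s' => v (Function.update a s e s')) = 0
        · rw [hdet, mul_zero, mul_zero]
        · congr 1
          have hN := (base_of_det hc.groundN hv b hdet).2
          rw [hran] at hN
          by_cases hey : e = y
          · rw [hey] at hN ⊢
            rw [htBeq] at hN ⊢
            have h1 := partn_of_state t hN
            have h2 := chi_eq (k := k) h0 h1 0 (Fin.succ c')
            rw [Fin.cons_zero, Fin.cons_succ] at h2
            rw [h2]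
          · have he' : e ∈ t.A c \ H := by
              rcases he with h | h
              · exact absurd h hey
              · exact h
            obtain ⟨t', h1, _, h3, _, _, _⟩ := swap_state hc hv hcov t ht ht' hy hLc
              (e := e) ⟨he'.1, mem_univ _, he'.2⟩ hLe
            rw [htBy] at h1
            rw [← h1] at hN ⊢
            have h4 := partn_of_state t' hN
            have h5 := chi_eq (k := k) h0 h4 0 (Fin.succ c')
            rw [Fin.cons_zero, Fin.cons_succ] at h5
            rw [h5, h3 c' hcc']
      have hdetlin : ∀ e, b.det (fun s' => v (Function.update a s e s')) =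
          b.det.toMultilinearMap.toLinearMap (fun s' => v (a s')) s (v e) := by
        intro e
        rw [MultilinearMap.toLinearMap_apply]
        change b.det _ = b.det _
        congr 1
        funext s'
        by_cases h : s' = s
        · subst h
          rw [Function.update_self, Function.update_self]
        · rw [Function.update_of_ne h, Function.update_of_ne h]
      have hsum : ∑ e, L' e * g e =
          ∑ e, x * (L' e • b.det.toMultilinearMap.toLinearMap (fun s' => v (a s')) s (v e)) := by
        refine Finset.sum_congr rfl fun e _ => ?_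
        by_cases hLe : L' e = 0
        · rw [hLe, zero_mul, zero_smul, mul_zero]
        · rw [hclaim e hLe, hdetlin e, smul_eq_mul]
          ring
      rw [hsum, ← Finset.mul_sum]
      have hrel := (mem_rel (v := v) L').1 hLc.mem
      have hz : ∑ e, L' e • b.det.toMultilinearMap.toLinearMap (fun s' => v (a s')) s (v e) =
          b.det.toMultilinearMap.toLinearMap (fun s' => v (a s')) s (∑ e, L' e • v e) := by
        rw [map_sum]
        refine Finset.sum_congr rfl fun e _ => ?_
        rw [map_smul]
      rw [hz, hrel, map_zero, mul_zero]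
  have hfin := hle (hspan hL)
  exact (memK L).1 hfin

end Pool.Agent.W3
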