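import Pool.Agent.W3.Forms
import Pool.Agent.W3.MLspan

/-!
The statement of the two step lemma, and the descending induction on the number of arguments
which vanish on `F1`.

`P2St Ω R ι F0 F2 b`: for families `z H` (`F0 ⋖ H ⋖ F2`) of multilinear functions, considered in the
slots of `I`, with arguments in `R ⊓ van F0`, `|I| ≥ max (2 b + 1) 2`.

Proof of `descend`. Show by descending induction on `n ≤ b + 1`: `z F1 y = 0` if the set of the
`s ∈ I` with `y s ∈ van k F1` contains a subset with `n` elements. For `n = b + 1` this is `h3`.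
Step from `n + 1` to `n`, `n ≤ b`: let `J ⊆ I` be a set with `n` elements, `y s ∈ van k F1` for
`s ∈ J`. If `y s ∈ van k F1` for some `s ∈ I \ J`, use the case `n + 1`. By `hstep` it is enough to
treat the arguments of the special form given by the hypothesis `hgen`. This is just the
hypothesis `hstep` applied to `n`.
(So `descend` is a trivial induction; it fixes the format for `P2a`, `P2b`, `P2c`.)
-/

set_option autoImplicit false

namespace Pool.Agent.W3

variable {E : Type*} [Fintype E] {k : Type*} [Field k] {ι : Type*} [Fintype ι]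

/-- The arguments considered: fixed outside `I`, in `R` and vanishing on `F` in `I`. -/
def InY (R : Submodule k (E → k)) (F : Set E) (I : Finset ι) (y0 y : ι → E → k) : Prop :=
  (∀ s, s ∉ I → y s = y0 s) ∧ ∀ s ∈ I, y s ∈ R ⊓ van k F

/-- The two step lemma with parameter `b`. -/
def P2St (Ω : Matroid E) (R : Submodule k (E → k)) (ι : Type*) [Fintype ι] (F0 F2 : Set E)
    (b : ℕ) : Prop :=
  ∀ (I : Finset ι) (y0 : ι → E → k) (z : Set E → ML k E ι), 2 * b + 1 ≤ I.card → 2 ≤ I.card →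
    (∀ y, InY R F0 I y0 y → ∑ H ∈ btw Ω F0 F2, z H y = 0) →
    (∀ H ∈ btw Ω F0 F2, ∀ y, InY R F0 I y0 y → (∃ s ∈ I, y s ∈ van k F2) → z H y = 0) →
    (∀ H ∈ btw Ω F0 F2, ∀ y, InY R F0 I y0 y →
      (∃ J ⊆ I, b + 1 ≤ J.card ∧ ∀ s ∈ J, y s ∈ van k H) → z H y = 0) →
    ∀ H ∈ btw Ω F0 F2, ∀ y, InY R F0 I y0 y → z H y = 0

theorem descend {R : Submodule k (E → k)} {F0 F1 : Set E} {I : Finset ι} {y0 : ι → E → k}
    {f : ML k E ι} {b : ℕ}
    (h3 : ∀ y, InY R F0 I y0 y → (∃ J ⊆ I, b + 1 ≤ J.card ∧ ∀ s ∈ J, y s ∈ van k F1) →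
      f y = 0)
    (hstep : ∀ n ≤ b, (∀ y, InY R F0 I y0 y →
        (∃ J ⊆ I, n + 1 ≤ J.card ∧ ∀ s ∈ J, y s ∈ van k F1) → f y = 0) →
      ∀ y, InY R F0 I y0 y → (∃ J ⊆ I, J.card = n ∧ ∀ s ∈ J, y s ∈ van k F1) → f y = 0) :
    ∀ y, InY R F0 I y0 y → f y = 0 := by
  have key : ∀ j, j ≤ b + 1 → ∀ y, InY R F0 I y0 y →
      (∃ J ⊆ I, (b + 1 - j) ≤ J.card ∧ ∀ s ∈ J, y s ∈ van k F1) → f y = 0 := by
    intro j
    induction j with
    | zero => intro _ y hy h; exact h3 y hy (by simpa using h)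
    | succ j ih =>
      intro hj y hy h
      have ih' := ih (by omega)
      obtain ⟨J, hJI, hJc, hJ⟩ := h
      obtain ⟨J', hJ'J, hJ'c⟩ := Finset.exists_subset_card_eq hJc
      refine hstep (b + 1 - (j + 1)) (by omega) ?_ y hy
        ⟨J', hJ'J.trans hJI, hJ'c, fun s hs => hJ s (hJ'J hs)⟩
      intro y' hy' h'
      refine ih' y' hy' ?_
      obtain ⟨K, hKI, hKc, hK⟩ := h'
      exact ⟨K, hKI, by omega, hK⟩
  intro y hy
  exact key (b + 1) le_rfl y hy ⟨∅, Finset.empty_subset _, by simp, by simp⟩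

end Pool.Agent.W3
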