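import Pool.Agent.W3.P2Defs

/-!
The two step lemma for `b = 0`.

Proof. Let `H ∈ btw Ω F0 F2`, call it `F1`; so `F0 ⋖ F1 ⋖ F2`. Use `descend` with `b = 0`: only
`n = 0` occurs. Let `y` be given, `hn : ` the function `z F1` vanishes if one argument (in `I`)
vanishes on `F1`. Choose `p ≠ p'` in `I` (`2 ≤ I.card`), a state `s` adapted to `F0, F1, F2`
(`exists_ad`), and two colours `c ≠ c'` (`0`, `1`; `2 ≤ q`). By `ml_slot` and `span_HF` (slot `p`, then
slot `p'`; the part in `R ⊓ van F1` is killed by `hn`) it is enough to prove `z F1 y = 0` if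
`y p ∈ HF s c` and `y p' ∈ HF s c'` (these are in `R ⊓ van F0` by `HF_sub`, so `InY` is preserved).
By `pair_van`, for every `H ∈ btw Ω F0 F2`, `H ≠ F1`, one of `y p`, `y p'` vanishes on `H`, so `z H y = 0`
by the third hypothesis of `P2St` (with `J = {p}` or `{p'}`). So the sum over `btw Ω F0 F2`, which is
zero, is `z F1 y`.
(Only two colours are needed here.)
-/

set_option autoImplicit false

namespace Pool.Agent.W3

variable {E : Type*} [Fintype E] {N Ω : Matroid E} {q : ℕ} {k T : Type*} [Field k]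
  [AddCommGroup T] [Module k T] {v : E → T} {ι : Type*} [Fintype ι] [DecidableEq ι]

namespace P2

omit [Fintype E] [Fintype ι] in
theorem inY_upd {R : Submodule k (E → k)} {F : Set E} {I : Finset ι} {y0 y : ι → E → k}
    (hy : InY R F I y0 y) {p : ι} (hp : p ∈ I) {L : E → k} (hL : L ∈ R ⊓ van k F) :
    InY R F I y0 (Function.update y p L) := by
  refine ⟨fun s hs => ?_, fun s hs => ?_⟩
  · have : s ≠ p := fun h => hs (h ▸ hp)
    rw [Function.update_of_ne this]
    exact hy.1 s hs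
  · by_cases h : s = p
    · subst h
      rw [Function.update_self]
      exact hL
    · rw [Function.update_of_ne h]
      exact hy.2 s hs

omit [Fintype E] in
theorem van_anti {F F' : Set E} (h : F ⊆ F') {L : E → k} (hL : L ∈ van k F') : L ∈ van k F :=
  fun e he => hL e (h he)

/-- Reduction of the slot `p` to `HF`. -/
theorem red_HF (hc : Compl N Ω q) (hv : IsRep k N v) {F0 F1 F2 : Set E} (h01 : Cov Ω F0 F1)
    (h12 : Cov Ω F1 F2) (s : St N q) (hs : Ad3 Ω F0 F1 F2 s) (c : Fin q) (f : ML k E ι)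
    (y : ι → E → k) (p : ι) (hyp : y p ∈ Rel k v ⊓ van k F0)
    (hU : ∀ L ∈ Rel k v ⊓ van k F1, f (Function.update y p L) = 0)
    (hG : ∀ L ∈ HF k v Ω F0 F1 F2 s c, f (Function.update y p L) = 0) : f y = 0 :=
  ml_slot f y p _ _ hU hG (span_HF hc hv h01 h12 s hs c hyp)

/-- Reduction of the slot `p` to `GF`. -/
theorem red_GF (hc : Compl N Ω q) (hv : IsRep k N v) {F0 F1 F2 : Set E} (h01 : Cov Ω F0 F1)
    (h12 : Cov Ω F1 F2) (c : Fin q) (f : ML k E ι)
    (y : ι → E → k) (p : ι) (hyp : y p ∈ Rel k v ⊓ van k F1)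
    (hU : ∀ L ∈ Rel k v ⊓ van k F2, f (Function.update y p L) = 0)
    (hG : ∀ s : St N q, Ad3 Ω F0 F1 F2 s → ∀ L ∈ GF k v F1 F2 s c,
      f (Function.update y p L) = 0) : f y = 0 :=
  ml_slot f y p _ _ hU (by
    rintro L ⟨s, hs, hL⟩
    exact hG s hs L hL) (span_GF hc hv h01 h12 c hyp)

theorem btw_iff {F0 F2 H : Set E} : H ∈ btw Ω F0 F2 ↔ Cov Ω F0 H ∧ Cov Ω H F2 := by
  classical
  unfold btw
  rw [Finset.mem_filter]
  simp

theorem sum_single {F0 F1 F2 : Set E} (hF1 : F1 ∈ btw Ω F0 F2) {z : Set E → ML k E ι}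
    {y : ι → E → k} (hsum : ∑ H ∈ btw Ω F0 F2, z H y = 0)
    (hoth : ∀ H ∈ btw Ω F0 F2, H ≠ F1 → z H y = 0) : z F1 y = 0 := by
  rw [Finset.sum_eq_single_of_mem F1 hF1 hoth] at hsum
  exact hsum

end P2

open P2

theorem p2_zero (hc : Compl N Ω q) (hv : IsRep k N v) (hq : 3 ≤ q) (F0 F2 : Set E) :
    P2St Ω (Rel k v) ι F0 F2 0 := by
  intro I y0 z _ hI hsum _ h3 F1 hF1
  obtain ⟨h01, h12⟩ := btw_iff.1 hF1
  obtain ⟨p, hp, p', hp', hpp⟩ := Finset.one_lt_card.1 (by omega : 1 < I.card)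
  refine descend (b := 0) (F1 := F1) (h3 F1 hF1) ?_
  intro n hn hnn y hy _
  obtain rfl : n = 0 := by omega
  obtain ⟨s, hs⟩ := exists_ad hc h01.1 h12.1 h12.2.1 h01.2.2.1 h12.2.2.1
  refine red_HF hc hv h01 h12 s hs ⟨0, by omega⟩ _ y p (hy.2 p hp) (fun L hL => ?_)
    (fun L hL => ?_)
  · refine hnn _ (inY_upd hy hp ⟨hL.1, van_anti h01.2.2.1 hL.2⟩) ⟨{p}, by simpa using hp, by simp,
      ?_⟩
    intro t ht
    rw [Finset.mem_singleton] at ht
    subst ht
    rw [Function.update_self]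
    exact hL.2
  · have hy1 := inY_upd hy hp (HF_sub hL)
    refine red_HF hc hv h01 h12 s hs ⟨1, by omega⟩ _ _ p' (hy1.2 p' hp') (fun L' hL' => ?_)
      (fun L' hL' => ?_)
    · refine hnn _ (inY_upd hy1 hp' ⟨hL'.1, van_anti h01.2.2.1 hL'.2⟩) ⟨{p'}, by simpa using hp',
        by simp, ?_⟩
      intro t ht
      rw [Finset.mem_singleton] at ht
      subst ht
      rw [Function.update_self]
      exact hL'.2
    · have hy2 := inY_upd hy1 hp' (HF_sub hL')
      refine sum_single hF1 (hsum _ hy2) fun H hH hne => ?_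
      obtain ⟨h0H, hH2⟩ := btw_iff.1 hH
      rcases pair_van hc hv h01 h12 h0H hH2 hne s hs (c := ⟨0, by omega⟩) (c' := ⟨1, by omega⟩)
        (by simp) (Or.inr hL) hL' with h | h
      · refine h3 H hH _ hy2 ⟨{p}, by simpa using hp, by simp, ?_⟩
        intro t ht
        rw [Finset.mem_singleton] at ht
        subst ht
        rw [Function.update_of_ne hpp, Function.update_self]
        exact h
      · refine h3 H hH _ hy2 ⟨{p'}, by simpa using hp', by simp, ?_⟩
        intro t ht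
        rw [Finset.mem_singleton] at ht
        subst ht
        rw [Function.update_self]
        exact h

end Pool.Agent.W3
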