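import Pool.Agent.W3.Defs

/-!
Projections onto `R` which are compatible with a chain of subspaces.

Proof of `exists_proj`. Find submodules: by induction on the chain `c` (e.g. on `c.card`, removing
the largest element) there is a submodule `K` with `K ⊓ R = ⊥` and `U = (U ⊓ R) ⊔ (U ⊓ K)` for all
`U ∈ c`, and `K ≤` the largest element of `c` (`K = ⊥` if `c` is empty). Step: let `U` be the largest
element of `c`, `K'` for `c.erase U`, so `K' ≤ U` (or `K' = ⊥`), `K' ⊓ R = ⊥`. Let `D` be a complement of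
`(U ⊓ R) ⊔ K'` in `U` (`Submodule.exists_isCompl` in the lattice of submodules; the lattice is
modular and complemented, e.g. take a complement `D0` of `(U ⊓ R) ⊔ K'` in the whole space and
`D := D0 ⊓ U`), `K := K' ⊔ D`. Then `K ≤ U`, `(U ⊓ R) ⊔ K = U`, `K ⊓ R = K ⊓ (U ⊓ R) = ⊥` (disjointness of three
summands). For `U' ∈ c.erase U`: `U' = (U' ⊓ R) ⊔ (U' ⊓ K') ≤ (U' ⊓ R) ⊔ (U' ⊓ K) ≤ U'`.
Finally extend `K` to a complement `K1 ≥ K` of `R` (a complement `D` of `R ⊔ K`, `K1 := K ⊔ D`; or apply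
the step with `U = ⊤`, i.e. do the induction for `insert ⊤ c`), and let `τ` be the projection onto
`R` along `K1` (`Submodule.projectionOnto` or its present name, composed with `R.subtype`).
For `x ∈ U ∈ c`: `x = r + κ` with `r ∈ U ⊓ R`, `κ ∈ U ⊓ K ≤ K1`, so `τ x = r ∈ U`.

`exists_proj_chain`: apply it to the image of `c` under `F ↦ van k F.1` (`van` is antitone, so it is a
chain).
-/

set_option autoImplicit false

namespace Pool.Agent.W3

private theorem proj_aux {k V : Type*} [Field k] [AddCommGroup V] [Module k V]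
    (R : Submodule k V) : ∀ (n : ℕ) (c : Finset (Submodule k V)), c.card = n →
    IsChain (· ≤ ·) (c : Set (Submodule k V)) →
    ∃ K : Submodule k V, K ⊓ R = ⊥ ∧ (∀ U ∈ c, U ≤ (U ⊓ R) ⊔ (U ⊓ K)) ∧ K ≤ c.sup id := by
  classical
  intro n
  induction n with
  | zero =>
    intro c hn _
    rw [Finset.card_eq_zero] at hn
    subst hn
    exact ⟨⊥, bot_inf_eq R, by simp, bot_le⟩
  | succ n ih =>
    intro c hn hc
    have hne : c.Nonempty := by
      rw [← Finset.card_pos, hn]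
      exact Nat.succ_pos n
    obtain ⟨U, hU⟩ := c.exists_maximal hne
    have hUc : U ∈ c := hU.1
    have hmax : ∀ W ∈ c, W ≤ U := by
      intro W hW
      by_cases h : W = U
      · exact h.le
      · rcases hc hW hUc h with h1 | h1
        · exact h1
        · exact hU.2 hW h1
    have hc' : IsChain (· ≤ ·) ((c.erase U : Finset (Submodule k V)) : Set (Submodule k V)) :=
      hc.mono (by intro x hx; exact Finset.mem_of_mem_erase (Finset.mem_coe.1 hx))
    obtain ⟨K', h1, h2, h3⟩ := ih (c.erase U) (by rw [Finset.card_erase_of_mem hUc, hn]; rfl) hc'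
    have hK'U : K' ≤ U := by
      refine le_trans h3 (Finset.sup_le fun W hW => ?_)
      exact hmax W (Finset.mem_of_mem_erase hW)
    obtain ⟨D0, hD0⟩ := exists_isCompl ((U ⊓ R) ⊔ K')
    have hle : (U ⊓ R) ⊔ K' ≤ U := sup_le inf_le_left hK'U
    have hK : K' ⊔ (D0 ⊓ U) ≤ U := sup_le hK'U inf_le_right
    refine ⟨K' ⊔ (D0 ⊓ U), ?_, ?_, ?_⟩
    · rw [eq_bot_iff]
      rintro x ⟨hx1, hx2⟩
      obtain ⟨y, hy, d, hd, rfl⟩ := Submodule.mem_sup.1 hx1
      have hxU : y + d ∈ U := hK hx1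
      have hd1 : d ∈ (U ⊓ R) ⊔ K' := by
        have : d = (y + d) + (-y) := by abel
        rw [this]
        exact Submodule.add_mem_sup ⟨hxU, hx2⟩ (neg_mem hy)
      have hd2 : d ∈ ((U ⊓ R) ⊔ K') ⊓ D0 := ⟨hd1, hd.1⟩
      rw [hD0.inf_eq_bot, Submodule.mem_bot] at hd2
      have hy2 : y ∈ K' ⊓ R := ⟨hy, by rw [hd2, add_zero] at hx2; exact hx2⟩
      rw [h1, Submodule.mem_bot] at hy2
      rw [hd2, hy2, add_zero]
      exact Submodule.zero_mem _
    · intro W hW
      by_cases h : W = U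
      · rw [h, inf_eq_right.2 hK]
        have h4 : (((U ⊓ R) ⊔ K') ⊔ D0) ⊓ U = ((U ⊓ R) ⊔ K') ⊔ (D0 ⊓ U) :=
          sup_inf_assoc_of_le D0 hle
        rw [hD0.sup_eq_top, top_inf_eq] at h4
        rw [← sup_assoc, ← h4]
      · have h5 := h2 W (Finset.mem_erase.2 ⟨h, hW⟩)
        exact le_trans h5 (sup_le_sup le_rfl (inf_le_inf le_rfl le_sup_left))
    · exact le_trans hK (Finset.le_sup (f := id) hUc)

theorem exists_proj {k V : Type*} [Field k] [AddCommGroup V] [Module k V]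
    (R : Submodule k V) (c : Finset (Submodule k V))
    (hc : IsChain (· ≤ ·) (c : Set (Submodule k V))) :
    ∃ τ : V →ₗ[k] V, (∀ x, τ x ∈ R) ∧ (∀ x ∈ R, τ x = x) ∧ ∀ U ∈ c, ∀ x ∈ U, τ x ∈ U := by
  obtain ⟨K, h1, h2, -⟩ := proj_aux R c.card c rfl hc
  obtain ⟨D, hD⟩ := exists_isCompl (R ⊔ K)
  have hcompl : IsCompl R (K ⊔ D) := by
    constructor
    · rw [disjoint_iff, eq_bot_iff]
      rintro x ⟨hx1, hx2⟩
      obtain ⟨y, hy, d, hd, rfl⟩ := Submodule.mem_sup.1 hx2
      have hd1 : d ∈ R ⊔ K := by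
        have : d = (y + d) + (-y) := by abel
        rw [this]
        exact Submodule.add_mem_sup hx1 (neg_mem hy)
      have hd2 : d ∈ (R ⊔ K) ⊓ D := ⟨hd1, hd⟩
      rw [hD.inf_eq_bot, Submodule.mem_bot] at hd2
      have hy2 : y ∈ K ⊓ R := ⟨hy, by rw [hd2, add_zero] at hx1; exact hx1⟩
      rw [h1, Submodule.mem_bot] at hy2
      rw [hd2, hy2, add_zero]
      exact Submodule.zero_mem _
    · rw [codisjoint_iff, ← sup_assoc]
      exact hD.sup_eq_top
  refine ⟨R.subtype ∘ₗ Submodule.projectionOnto R (K ⊔ D) hcompl, ?_, ?_, ?_⟩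
  · intro x
    exact (Submodule.projectionOnto R (K ⊔ D) hcompl x).2
  · intro x hx
    have := Submodule.projectionOnto_apply_left hcompl ⟨x, hx⟩
    show ((Submodule.projectionOnto R (K ⊔ D) hcompl x : R) : V) = x
    rw [this]
  · intro U hU x hx
    obtain ⟨r, hr, y, hy, rfl⟩ := Submodule.mem_sup.1 (h2 U hU hx)
    show ((Submodule.projectionOnto R (K ⊔ D) hcompl (r + y) : R) : V) ∈ U
    have e1 := Submodule.projectionOnto_apply_left hcompl ⟨r, hr.2⟩
    have e2 := Submodule.projectionOnto_apply_right hcompl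
      ⟨y, (le_sup_left : K ≤ K ⊔ D) hy.2⟩
    rw [map_add, e1, e2, add_zero]
    exact hr.1

theorem exists_proj_chain {E k : Type*} [Field k] {Ω : Matroid E} (R : Submodule k (E → k))
    (c : Finset (PF Ω)) (hc : IsChain (· ≤ ·) (c : Set (PF Ω))) :
    ∃ τ : (E → k) →ₗ[k] (E → k), (∀ x, τ x ∈ R) ∧ (∀ x ∈ R, τ x = x) ∧
      ∀ F ∈ c, ∀ x ∈ van k F.1, τ x ∈ van k F.1 := by
  classical
  have hanti : ∀ F G : PF Ω, F ≤ G → van k G.1 ≤ van k F.1 := by
    intro F G h x hx e he
    exact hx e (h he)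
  obtain ⟨τ, h1, h2, h3⟩ := exists_proj R (c.image (fun F => van k F.1)) (by
    intro U hU W hW hne
    rw [Finset.coe_image] at hU hW
    obtain ⟨F, hF, rfl⟩ := hU
    obtain ⟨G, hG, rfl⟩ := hW
    have hFG : F ≠ G := by
      rintro rfl
      exact hne rfl
    rcases hc hF hG hFG with h | h
    · exact Or.inr (hanti F G h)
    · exact Or.inl (hanti G F h))
  exact ⟨τ, h1, h2, fun F hF x hx => h3 _ (Finset.mem_image_of_mem _ hF) x hx⟩

end Pool.Agent.W3
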