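import Pool.Agent.W3.PtsDefs

/-!
Auxiliary lemmas for `W3/Pts` and `W3/LiftStep`: passing from `TT R X` to `TT R (insert t X)` by
subtracting the projection onto relations in the slot `t`.
-/

set_option autoImplicit false

namespace Pool.Agent.W3

open Finset

variable {E : Type*} [Fintype E] [DecidableEq E] {Ω : Matroid E} {k : Type*} [Field k]
  {R : Submodule k (E → k)} {ι : Type*} [Fintype ι] [DecidableEq ι]

/-- the boundary of functions with values in a submodule -/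
theorem bd_mem_submodule {P V : Type*} [Fintype P] [AddCommGroup V] [Module k V] (ρ : P → ℕ)
    (W : Submodule k V) {z : Finset P → V} (hz : ∀ c, z c ∈ W) (c : Finset P) : bd ρ z c ∈ W := by
  classical
  unfold bd
  exact Submodule.sum_mem _ fun F _ => zsmul_mem (hz _) _

theorem TT_anti {X Y : Finset ι} (h : X ⊆ Y) : (TT R Y : Submodule k (ML k E ι)) ≤ TT R X := by
  intro f hf y s hs hy
  exact hf y s (h hs) hy

theorem VR_mono {X Y : Finset ι} (h : X ⊆ Y) : (VR R X : Submodule k (ML k E ι)) ≤ VR R Y := by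
  intro f hf y hy
  exact hf y fun s hs => hy s (h hs)

theorem TT_le_VR {X S : Finset ι} {t : ι} (h1 : t ∈ X) (h2 : t ∈ S) :
    (TT R X : Submodule k (ML k E ι)) ≤ VR R S := by
  intro f hf y hy
  exact hf y t h1 (hy t h2)

theorem adm_TT {X : Finset ι} {j : ℕ} (hj : 1 ≤ j) {z : Finset (PF Ω) → ML k E ι}
    (hz : Adm (JT R Ω X) j z) (c : Finset (PF Ω)) : z c ∈ TT R X := by
  by_cases h0 : z c = 0
  · rw [h0]
    exact (TT R X).zero_mem
  · have h1 := hz.card c h0
    obtain ⟨F, hF⟩ : c.Nonempty := Finset.card_pos.mp (by omega)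
    exact (hz.mem c F hF).2

theorem adm_anti {X Y : Finset ι} (h : X ⊆ Y) {j : ℕ} {z : Finset (PF Ω) → ML k E ι}
    (hz : Adm (JT R Ω Y) j z) : Adm (JT R Ω X) j z :=
  ⟨hz.chain, hz.card, fun c F hF => ⟨(hz.mem c F hF).1, TT_anti h (hz.mem c F hF).2⟩⟩

/-- subtraction of the projection in the slot `t` -/
theorem slot_step {X S : Finset ι} {t : ι} (htX : t ∉ X) (htS : t ∉ S) {j : ℕ}
    {v : Finset (PF Ω) → ML k E ι} (hv : Adm (JT R Ω X) j v) (hvr : ∀ c, v c ∈ VR R (insert t S)) :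
    ∃ w : Finset (PF Ω) → ML k E ι, Adm (JT R Ω (insert t X)) j w ∧
      ∀ c, bd (rho Ω) v c - bd (rho Ω) w c ∈ VR R S := by
  classical
  have hτ : ∀ c : Finset (PF Ω), ∃ τ : (E → k) →ₗ[k] (E → k), (∀ x, τ x ∈ R) ∧
      (∀ x ∈ R, τ x = x) ∧ (IsChain (· ≤ ·) (c : Set (PF Ω)) →
        ∀ F ∈ c, ∀ x ∈ van k F.1, τ x ∈ van k F.1) := by
    intro c
    by_cases hc : IsChain (· ≤ ·) (c : Set (PF Ω))
    · obtain ⟨τ, h1, h2, h3⟩ := exists_proj_chain R c hc
      exact ⟨τ, h1, h2, fun _ => h3⟩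
    · obtain ⟨τ, h1, h2, h3⟩ := exists_proj_chain (Ω := Ω) R ∅ (by simp)
      exact ⟨τ, h1, h2, fun h => absurd h hc⟩
  choose τ h1 h2 h3 using hτ
  refine ⟨fun c => v c - slotMap t (τ c) (v c), ⟨?_, ?_, ?_⟩, ?_⟩
  · intro c hc
    apply hv.chain
    intro h0
    apply hc
    simp [h0]
  · intro c hc
    apply hv.card
    intro h0
    apply hc
    simp [h0]
  · intro c F hF
    by_cases h0 : v c = 0
    · simp only [h0, map_zero, sub_zero]
      exact (JT R Ω (insert t X) F).zero_mem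
    · have hch := hv.chain c h0
      obtain ⟨m1, m2⟩ := hv.mem c F hF
      refine ⟨?_, ?_⟩
      · exact sub_mem m1 (slotMap_jf t (τ c) F (h3 c hch F hF) m1)
      · exact sub_slotMap_tt t (τ c) (h2 c) htX m2
  · intro c
    have h4 : bd (rho Ω) (fun c => v c - slotMap t (τ c) (v c)) c =
        bd (rho Ω) v c - bd (rho Ω) (fun c => slotMap t (τ c) (v c)) c :=
      bd_sub (rho Ω) v (fun c => slotMap t (τ c) (v c)) c
    rw [h4, sub_sub_cancel]
    exact bd_mem_submodule (rho Ω) (VR R S) (fun c => slotMap_vr t (τ c) (h1 c) htS (hvr c)) c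

/-- the boundary of an admissible function is a cycle -/
theorem bd_bd_adm {X : Finset ι} (hΩ : Ω.E = Set.univ) {j : ℕ} {u : Finset (PF Ω) → ML k E ι}
    (hu : Adm (JT R Ω X) j u) (c : Finset (PF Ω)) : bd (rho Ω) (bd (rho Ω) u) c = 0 :=
  bd_bd (rho Ω) u (fun c hc => injOn_of_chain (rho_strictMono hΩ) (hu.chain c hc)) c

end Pool.Agent.W3
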