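import Pool.Agent.W3.PtsEmpty
import Pool.Agent.W3.SlotLem

/-!
`PTS Ω R X S` for all `X`.

Proof. Induction on `X.card` (or `Finset.induction` on `X`, generalizing `S`). `X = ∅`: `pts_empty`.
Let `X = insert t X'`, `t ∉ X'`; `t ∉ S`. Let `z` be given, `bd z c ∈ VR R S`. As `TT R X ≤ TT R X'`, the
case `(X', S)` gives `w` (`Adm (JT X') S.card`), `z - bd w ∈ VR R S`. For `S' := insert t S`:
`bd w c ∈ VR R S'` because `z c ∈ TT R X` vanishes if `y t ∈ R`. The case `(X', S')` gives `u`,
`Adm (JT X') (S.card + 1) u`, `w c - bd u c ∈ VR R S'`. Put `w1 c := (w - bd u) c -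
slotMap t τ_c ((w - bd u) c)` with `τ_c` from `exists_proj_chain` for chains `c` and
`w1 c = 0` otherwise. Then `Adm (JT X) S.card w1`. And `slotMap t τ_c ((w - bd u) c) ∈ VR R S`. So modulo
`VR R S` (which is preserved by `bd`), `w1 = w - bd u`, `bd w1 = bd w - bd (bd u) = bd w = z`
(`bd_bd` with `injOn_of_chain`).
-/

set_option autoImplicit false

namespace Pool.Agent.W3

open Finset

variable {E : Type*} [Fintype E] [DecidableEq E] {Ω : Matroid E} {k : Type*} [Field k]
  {R : Submodule k (E → k)} {ι : Type*} [Fintype ι] [DecidableEq ι]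

theorem pts (hΩ : Ω.E = Set.univ) (hrk : Ω.eRank = Fintype.card ι)
    (hTop : TopVan Ω R ι) (X S : Finset ι) (hXS : Disjoint X S) (hS : 2 ≤ S.card) :
    PTS Ω R X S := by
  induction X using Finset.induction_on generalizing S with
  | empty => exact pts_empty hΩ hrk hTop hS
  | insert t X htX ih =>
    have htS : t ∉ S := fun h => Finset.disjoint_left.mp hXS (Finset.mem_insert_self t X) h
    have hXS' : Disjoint X S := Finset.disjoint_of_subset_left (Finset.subset_insert t X) hXS
    intro z hz hbd
    have hsub : X ⊆ insert t X := Finset.subset_insert t X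
    obtain ⟨w, hw, hw2⟩ := ih S hXS' hS z (adm_anti hsub hz) hbd
    have hcard : (insert t S).card = S.card + 1 := Finset.card_insert_of_notMem htS
    have hdis : Disjoint X (insert t S) := by
      rw [Finset.disjoint_insert_right]
      exact ⟨htX, hXS'⟩
    have hSsub : S ⊆ insert t S := Finset.subset_insert t S
    have hbw : ∀ c, bd (rho Ω) w c ∈ VR R (insert t S) := by
      intro c
      have h1 : z c ∈ VR R (insert t S) :=
        TT_le_VR (Finset.mem_insert_self t X) (Finset.mem_insert_self t S)
          (adm_TT (by omega) hz c)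
      have h2 : z c - bd (rho Ω) w c ∈ VR R (insert t S) := VR_mono hSsub (hw2 c)
      have h3 := sub_mem h1 h2
      rwa [sub_sub_cancel] at h3
    have hw' : Adm (JT R Ω X) ((insert t S).card - 1) w := by
      rw [hcard, Nat.add_sub_cancel]
      exact hw
    obtain ⟨u, hu, hu2⟩ := ih (insert t S) hdis (by omega) w hw' hbw
    rw [hcard] at hu
    have hv : Adm (JT R Ω X) S.card (fun c => w c - bd (rho Ω) u c) := adm_sub hw (adm_bd hu)
    obtain ⟨w1, h1, h2⟩ := slot_step htX htS hv hu2
    refine ⟨w1, h1, ?_⟩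
    intro c
    have h3 : bd (rho Ω) (fun c => w c - bd (rho Ω) u c) c = bd (rho Ω) w c := by
      rw [bd_sub, bd_bd_adm hΩ hu c, sub_zero]
    have h4 := h2 c
    rw [h3] at h4
    have h5 := add_mem (hw2 c) h4
    have h6 : z c - bd (rho Ω) w c + (bd (rho Ω) w c - bd (rho Ω) w1 c) =
        z c - bd (rho Ω) w1 c := by abel
    rwa [h6] at h5

end Pool.Agent.W3
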