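import Pool.Agent.W3.ColA
import Pool.Agent.W3.Proj
import Pool.Agent.W3.MLspan

/-!
Exactness in all slots: the statement `PTS Ω R X S`, and composition in one slot.

Proofs.
* `slotMap_apply`: `MultilinearMap.compLinearMap_apply` and `congrArg f (funext ..)`.
* `slotMap_jf`: the number `nv F` of the new argument is at least the old one.
* `slotMap_tt`: if `s ∈ X` then `s ≠ t`, so the argument in the slot `s` is unchanged.
* `sub_slotMap_tt`: for `s ∈ X` both terms vanish; for `s = t` and `y t ∈ R` the two terms are equal.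
* `slotMap_vr`: `τ (y t) ∈ R`.
-/

set_option autoImplicit false

namespace Pool.Agent.W3

open Finset

variable {E : Type*} [Fintype E] [DecidableEq E] {Ω : Matroid E} {k : Type*} [Field k]
  {R : Submodule k (E → k)} {ι : Type*} [Fintype ι] [DecidableEq ι]

/-- Exactness modulo `VR R S`, with values in `TT R X`. -/
def PTS (Ω : Matroid E) (R : Submodule k (E → k)) (X S : Finset ι) : Prop :=
  ∀ z : Finset (PF Ω) → ML k E ι, Adm (JT R Ω X) (S.card - 1) z →
    (∀ c, bd (rho Ω) z c ∈ VR R S) →
    ∃ w : Finset (PF Ω) → ML k E ι, Adm (JT R Ω X) S.card w ∧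
      ∀ c, z c - bd (rho Ω) w c ∈ VR R S

/-- Precomposition with `τ` in the slot `t`. -/
noncomputable def slotMap (t : ι) (τ : (E → k) →ₗ[k] (E → k)) : ML k E ι →ₗ[k] ML k E ι where
  toFun f := f.compLinearMap (fun s => if s = t then τ else LinearMap.id)
  map_add' := by
    intro f g
    ext y
    simp
  map_smul' := by
    intro c f
    ext y
    simp

theorem slotMap_apply (t : ι) (τ : (E → k) →ₗ[k] (E → k)) (f : ML k E ι) (y : ι → E → k) :
    slotMap t τ f y = f (Function.update y t (τ (y t))) := by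
  show f.compLinearMap (fun s => if s = t then τ else LinearMap.id) y = _
  rw [MultilinearMap.compLinearMap_apply]
  congr 1
  funext s
  by_cases h : s = t
  · subst h
    simp
  · simp [h]

theorem slotMap_jf (t : ι) (τ : (E → k) →ₗ[k] (E → k)) (F : PF Ω)
    (hτ : ∀ x ∈ van k F.1, τ x ∈ van k F.1) {f : ML k E ι} (hf : f ∈ JF Ω F) :
    slotMap t τ f ∈ JF Ω F := by
  intro y hy
  rw [slotMap_apply]
  apply hf
  refine le_trans hy (Nat.add_le_add_left ?_ _)
  classical
  unfold nv
  apply Finset.card_le_card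
  intro s hs
  have hs' := Finset.mem_filter.1 hs
  refine Finset.mem_filter.2 ⟨hs'.1, ?_⟩
  clear hs
  have hs := hs'
  by_cases h : s = t
  · subst h
    rw [Function.update_self]
    exact hτ _ hs.2
  · rw [Function.update_of_ne h]
    exact hs.2

theorem slotMap_tt (t : ι) (τ : (E → k) →ₗ[k] (E → k)) {X : Finset ι} (ht : t ∉ X)
    {f : ML k E ι} (hf : f ∈ TT R X) : slotMap t τ f ∈ TT R X := by
  intro y s hs hy
  rw [slotMap_apply]
  apply hf _ s hs
  have hne : s ≠ t := by
    rintro rfl
    exact ht hs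
  rw [Function.update_of_ne hne]
  exact hy

theorem sub_slotMap_tt (t : ι) (τ : (E → k) →ₗ[k] (E → k)) (hR : ∀ x ∈ R, τ x = x)
    {X : Finset ι} (ht : t ∉ X) {f : ML k E ι} (hf : f ∈ TT R X) :
    f - slotMap t τ f ∈ TT R (insert t X) := by
  intro y s hs hy
  rw [sub_apply]
  rcases Finset.mem_insert.1 hs with h | h
  · subst h
    rw [slotMap_apply, hR _ hy, Function.update_eq_self, sub_self]
  · rw [hf y s h hy, slotMap_tt t τ ht hf y s h hy, sub_self]

theorem slotMap_vr (t : ι) (τ : (E → k) →ₗ[k] (E → k)) (hτ : ∀ x, τ x ∈ R) {S : Finset ι}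
    (ht : t ∉ S) {f : ML k E ι} (hf : f ∈ VR R (insert t S)) : slotMap t τ f ∈ VR R S := by
  intro y hy
  rw [slotMap_apply]
  apply hf
  intro s hs
  rcases Finset.mem_insert.1 hs with h | h
  · subst h
    rw [Function.update_self]
    exact hτ _
  · have hne : s ≠ t := by
      rintro rfl
      exact ht h
    rw [Function.update_of_ne hne]
    exact hy s h

end Pool.Agent.W3
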