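import Pool.Agent.W3.PtsDefs

/-!
`PTS Ω R ∅ S`: assembling the exactness for all choices of the elements outside `S`.

Proof. For `a : ι → E` apply `colA` to `z` (`JF F ≤ JA F`; `bd z c ∈ VR R S ≤ ZA R S a`) and get
`w_a`. Only the values of `a` outside `S` matter; let `a` run over the functions with a fixed value
`e0` on `S` (if `E` is empty then `ι → E` is empty or `ι` is empty; `2 ≤ S.card` excludes the latter,
and then every `ML` function is zero because `E → k` is trivial, so `w = 0`), or sum over all
`a : ι → E` with weights that vanish unless `a s = e0` on `S`. For a chain `c` let `τ_c` be as in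
`exists_proj_chain` (for `R` and `c`), for other `c` put `w c = 0`. Define
`w c y := ∑_a (∏_{s ∉ S} y s (a s)) * w_a c (y')`, `y' s = τ_c (y s)` for `s ∈ S`, `y' s =
Pi.single (a s) 1` for `s ∉ S`. As a multilinear map: for each `a` it is `w_a c` composed in each slot
with a linear map (`τ_c`, or `L ↦ L (a s) • Pi.single (a s) 1`).
(i) `w c ∈ JF F` for `F ∈ c`: let `card ι ≤ rho F + nv F y`. A term with `∏ ≠ 0` has `a s ∉ F` if
`s ∉ S`, `y s ∈ van k F`, so `Pi.single (a s) 1 ∈ van k F`; `τ_c (y s) ∈ van k F` if `y s` is. So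
`nv F y' ≥ nv F y`, and `YA R S a y'`, so `w_a c y' = 0`.
(ii) `z c - bd w c ∈ VR R S`: let `y s ∈ R` for `s ∈ S`; then `y' s = y s` for `s ∈ S`, for every `c`
and `bd w c y = ∑_a ∏ * (bd w_a c) (y') = ∑_a ∏ * z c (y') = z c y` (expand `z c y` in the slots outside
`S`, as in `ml_ext_single`). Note that `w c = 0` for `c` not a chain is consistent as then `w_a c = 0`.
-/

set_option autoImplicit false

namespace Pool.Agent.W3

open Finset

variable {E : Type*} [Fintype E] [DecidableEq E] {Ω : Matroid E} {k : Type*} [Field k]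
  {R : Submodule k (E → k)} {ι : Type*} [Fintype ι] [DecidableEq ι]

/-- the weight of the term `a` -/
private noncomputable def pcoef (S : Finset ι) (a : ι → E) (y : ι → E → k) : k :=
  ∏ s, (if s ∈ S then 1 else y s (a s))

/-- the argument of the term `a` -/
private noncomputable def parg (τ : (E → k) →ₗ[k] (E → k)) (S : Finset ι) (a : ι → E)
    (y : ι → E → k) : ι → E → k :=
  fun s => if s ∈ S then τ (y s) else Pi.single (a s) 1

/-- the term `a` -/
private noncomputable def pmap (τ : (E → k) →ₗ[k] (E → k)) (S : Finset ι) (a : ι → E)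
    (f : ML k E ι) : ML k E ι :=
  f.compLinearMap (fun s => if s ∈ S then τ else
    (LinearMap.proj (a s) : (E → k) →ₗ[k] k).smulRight (Pi.single (a s) (1 : k) : E → k))

omit [Fintype E] in
private theorem pmap_apply (τ : (E → k) →ₗ[k] (E → k)) (S : Finset ι) (a : ι → E)
    (f : ML k E ι) (y : ι → E → k) :
    pmap τ S a f y = pcoef S a y * f (parg τ S a y) := by
  unfold pmap pcoef
  rw [MultilinearMap.compLinearMap_apply, ← smul_eq_mul, ← MultilinearMap.map_smul_univ]
  congr 1
  funext s
  unfold parg
  by_cases h : s ∈ S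
  · simp only [h, if_true, one_smul]
  · simp only [h, if_false]
    rfl

omit [Fintype E] in
private theorem pmap_zero (τ : (E → k) →ₗ[k] (E → k)) (S : Finset ι) (a : ι → E) :
    pmap τ S a (0 : ML k E ι) = 0 := by
  refine MultilinearMap.ext fun y => ?_
  rw [pmap_apply]
  simp

omit [Fintype E] [Fintype ι] in
private theorem parg_ya {τ : (E → k) →ₗ[k] (E → k)} {S : Finset ι} {a : ι → E}
    {y : ι → E → k} (h : ∀ s ∈ S, τ (y s) ∈ R) : YA R S a (parg τ S a y) := by
  refine ⟨?_, ?_⟩
  · intro s hs
    unfold parg
    rw [if_pos hs]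
    exact h s hs
  · intro s hs
    unfold parg
    rw [if_neg hs]

private theorem ml_expand (S : Finset ι) (e0 : E) (f : ML k E ι) (y : ι → E → k) :
    f y = ∑ a ∈ univ.filter (fun a : ι → E => ∀ s ∈ S, a s = e0),
      pcoef S a y * f (parg LinearMap.id S a y) := by
  classical
  let g : ι → E → (E → k) := fun s e =>
    if s ∈ S then (if e = e0 then y s else 0) else y s e • (Pi.single e (1 : k) : E → k)
  have h1 : y = fun s => ∑ e : E, g s e := by
    funext s
    by_cases h : s ∈ S
    · have : ∑ e : E, g s e = ∑ e : E, (if e = e0 then y s else 0) :=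
        Finset.sum_congr rfl fun e _ => by
          change (if s ∈ S then (if e = e0 then y s else 0) else _) = _
          rw [if_pos h]
      rw [this, Finset.sum_ite_eq' univ e0, if_pos (Finset.mem_univ _)]
    · have : ∑ e : E, g s e = ∑ e : E, y s e • (Pi.single e (1 : k) : E → k) :=
        Finset.sum_congr rfl fun e _ => by
          change (if s ∈ S then (if e = e0 then y s else 0) else _) = _
          rw [if_neg h]
      rw [this]
      funext e
      simp [Finset.sum_apply, Pi.single_apply]
  conv_lhs => rw [h1]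
  rw [MultilinearMap.map_sum, Finset.sum_filter]
  refine Finset.sum_congr rfl fun a _ => ?_
  split_ifs with ha
  · unfold pcoef
    rw [← smul_eq_mul, ← MultilinearMap.map_smul_univ]
    congr 1
    funext s
    unfold parg
    by_cases h : s ∈ S
    · have h2 : g s (a s) = y s := by
        change (if s ∈ S then (if a s = e0 then y s else 0) else _) = _
        rw [if_pos h, if_pos (ha s h)]
      rw [h2, if_pos h, if_pos h, one_smul]
      rfl
    · have h2 : g s (a s) = y s (a s) • (Pi.single (a s) (1 : k) : E → k) := by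
        change (if s ∈ S then (if a s = e0 then y s else 0) else _) = _
        rw [if_neg h]
      rw [h2, if_neg h, if_neg h]
  · push Not at ha
    obtain ⟨s, hs, hne⟩ := ha
    apply MultilinearMap.map_coord_zero (i := s)
    change (if s ∈ S then (if a s = e0 then y s else 0) else _) = _
    rw [if_pos hs, if_neg hne]

omit [DecidableEq E] [Fintype ι] [DecidableEq ι] in
private theorem bd_eval (z : Finset (PF Ω) → ML k E ι) (c : Finset (PF Ω)) (y : ι → E → k) :
    bd (rho Ω) z c y = bd (rho Ω) (fun c => z c y) c := by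
  let φ : ML k E ι →+ k := 
    { toFun := fun f => f y
      map_zero' := rfl
      map_add' := fun _ _ => rfl }
  exact (bd_map (rho Ω) φ z c).symm

private theorem bd_finsum {P V α : Type*} [Fintype P] [AddCommGroup V] (ρ : P → ℕ)
    (A : Finset α) (h : α → Finset P → V) (c : Finset P) :
    bd ρ (fun c => ∑ a ∈ A, h a c) c = ∑ a ∈ A, bd ρ (h a) c := by
  classical
  induction A using Finset.induction_on with
  | empty =>
    simp only [Finset.sum_empty]
    unfold bd
    simp
  | insert a A ha ih =>
    simp only [Finset.sum_insert ha]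
    rw [← ih]
    exact bd_add _ (h a) (fun c => ∑ a ∈ A, h a c) c

omit [DecidableEq E] in
private theorem bd_mul (ρ : PF Ω → ℕ) (x : k) (h : Finset (PF Ω) → k) (c : Finset (PF Ω)) :
    bd ρ (fun c => x * h c) c = x * bd ρ h c :=
  bd_map ρ (AddMonoidHom.mulLeft x) h c

theorem pts_empty (hΩ : Ω.E = Set.univ) (hrk : Ω.eRank = Fintype.card ι)
    (hTop : TopVan Ω R ι) {S : Finset ι} (hS : 2 ≤ S.card) : PTS Ω R ∅ S := by
  classical
  intro z hz hbd
  rcases isEmpty_or_nonempty E with hE | ⟨⟨e0⟩⟩
  · have hne : S.Nonempty := by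
      rw [← Finset.card_pos]; omega
    obtain ⟨s0, _⟩ := hne
    have hzero : ∀ (f : ML k E ι) (y : ι → E → k), f y = 0 := by
      intro f y
      apply MultilinearMap.map_coord_zero (i := s0)
      exact Subsingleton.elim _ _
    refine ⟨fun _ => 0, ⟨?_, ?_, ?_⟩, ?_⟩
    · intro c hc; exact absurd rfl hc
    · intro c hc; exact absurd rfl hc
    · intro c F _; exact zero_mem _
    · intro c y _
      exact hzero _ y
  · -- the solutions for fixed elements
    have hcol : ∀ a : ι → E, ∃ w : Finset (PF Ω) → ML k E ι,
        (∀ c, w c ≠ 0 → IsChain (· ≤ ·) (c : Set (PF Ω)) ∧ c.card = S.card) ∧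
        (∀ c, ∀ F ∈ c, w c ∈ JA Ω R S a F) ∧ ∀ c, z c - bd (rho Ω) w c ∈ ZA R S a := by
      intro a
      refine colA hΩ hrk hTop hS a z ?_ ?_ ?_
      · intro c hc
        refine ⟨hz.chain c hc, ?_⟩
        have := hz.card c hc
        omega
      · intro c F hF
        exact jf_le_ja S a F (hz.mem c F hF).1
      · intro c y hy
        exact hbd c y hy.1
    choose wa hwa1 hwa2 hwa3 using hcol
    have hproj : ∀ c : Finset (PF Ω), ∃ τ : (E → k) →ₗ[k] (E → k), (∀ x, τ x ∈ R) ∧
        (∀ x ∈ R, τ x = x) ∧ (IsChain (· ≤ ·) (c : Set (PF Ω)) →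
          ∀ F ∈ c, ∀ x ∈ van k F.1, τ x ∈ van k F.1) := by
      intro c
      by_cases hc : IsChain (· ≤ ·) (c : Set (PF Ω))
      · obtain ⟨τ, t1, t2, t3⟩ := exists_proj_chain R c hc
        exact ⟨τ, t1, t2, fun _ => t3⟩
      · obtain ⟨τ, t1, t2, _⟩ := exists_proj_chain (Ω := Ω) R ∅ (by simp)
        exact ⟨τ, t1, t2, fun h => absurd h hc⟩
    choose τ ht1 ht2 ht3 using hproj
    set A : Finset (ι → E) := univ.filter (fun a : ι → E => ∀ s ∈ S, a s = e0) with hA
    have hwne : ∀ c, ∑ a ∈ A, pmap (τ c) S a (wa a c) ≠ 0 → ∃ a, wa a c ≠ 0 := by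
      intro c hc
      by_contra hne
      push Not at hne
      apply hc
      apply Finset.sum_eq_zero
      intro a _
      rw [hne a, pmap_zero]
    refine ⟨fun c => ∑ a ∈ A, pmap (τ c) S a (wa a c), ⟨?_, ?_, ?_⟩, ?_⟩
    · intro c hc
      obtain ⟨a, ha⟩ := hwne c hc
      exact (hwa1 a c ha).1
    · intro c hc
      obtain ⟨a, ha⟩ := hwne c hc
      exact (hwa1 a c ha).2
    · intro c F hF
      refine ⟨?_, fun y s hs => absurd hs (Finset.notMem_empty s)⟩
      apply Submodule.sum_mem
      intro a _
      by_cases h0 : wa a c = 0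
      · rw [h0, pmap_zero]
        exact zero_mem _
      have hch := (hwa1 a c h0).1
      intro y hy
      rw [pmap_apply]
      by_cases hp : pcoef S a y = 0
      · rw [hp, zero_mul]
      have hne : ∀ s, s ∉ S → y s (a s) ≠ 0 := by
        intro s hs h
        apply hp
        unfold pcoef
        apply Finset.prod_eq_zero (Finset.mem_univ s)
        rw [if_neg hs, h]
      have hYA : YA R S a (parg (τ c) S a y) := parg_ya fun s _ => ht1 c _
      have hnv : nv F.1 y ≤ nv F.1 (parg (τ c) S a y) := by
        unfold nv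
        apply Finset.card_le_card
        intro s hs
        rw [Finset.mem_filter] at hs ⊢
        refine ⟨Finset.mem_univ _, ?_⟩
        unfold parg
        by_cases hsS : s ∈ S
        · rw [if_pos hsS]
          exact ht3 c hch F hF _ hs.2
        · rw [if_neg hsS]
          intro e he
          have hae : a s ≠ e := by
            rintro rfl
            exact hne s hsS (hs.2 _ he)
          rw [Pi.single_apply, if_neg (Ne.symm hae)]
      rw [hwa2 a c F hF _ hYA (hy.trans (Nat.add_le_add_left hnv _)), mul_zero]
    · intro c y hy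
      have hfix : ∀ c' a, parg (τ c') S a y = parg LinearMap.id S a y := by
        intro c' a
        funext s
        unfold parg
        by_cases hs : s ∈ S
        · rw [if_pos hs, if_pos hs, ht2 c' _ (hy s hs)]
          rfl
        · rw [if_neg hs, if_neg hs]
      have e1 : (fun c' => (∑ a ∈ A, pmap (τ c') S a (wa a c')) y) =
          fun c' => ∑ a ∈ A, pcoef S a y * wa a c' (parg LinearMap.id S a y) := by
        funext c'
        rw [_root_.sum_apply]
        refine Finset.sum_congr rfl fun a _ => ?_
        rw [pmap_apply, hfix]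
      change z c y - bd (rho Ω) (fun c' => ∑ a ∈ A, pmap (τ c') S a (wa a c')) c y = 0
      rw [bd_eval, e1, bd_finsum, ml_expand S e0 (z c) y, ← hA, ← Finset.sum_sub_distrib]
      apply Finset.sum_eq_zero
      intro a _
      rw [bd_mul, ← bd_eval, ← mul_sub]
      have h5 := hwa3 a c (parg LinearMap.id S a y) (parg_ya fun s hs => hy s hs)
      have h6 : z c (parg LinearMap.id S a y) - bd (rho Ω) (wa a) c (parg LinearMap.id S a y) = 0 :=
        h5
      rw [h6, mul_zero]

end Pool.Agent.W3
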