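import Pool.Agent.W3.Defs
import Pool.Agent.WD.Augment

/-!
Reachable sets in the exchange digraph of a family of disjoint bases.

`RS N A x` is the set of `z` such that there is a walk from `x` to `z` (`WD.Walk` with
`J = univ`, `W = univ`; an edge `z → w` means: `w ∈ A l`, `z ∉ A l`, `insert z (A l \ {w})` is a
base).

Proofs.
* `rs_self`: walk of length 0.
* `rs_closure`: let `z ∈ RS` and `l` be given. If `z ∈ A l` then `z ∈ A l ∩ RS`. Otherwise every
  `w ∈ A l` for which `insert z (A l \ {w})` is a base is in `RS` (append one edge to the walk, see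
  `walk_snoc` in WD/Reach, which is private there), and `z` is in the closure of the set of these
  `w` (the fundamental circuit; the same argument is in `WD.Reach`, `reach_mem`).
* `rs_exchange`: `WD.augment` with `J = univ`, `W = univ` gives a family `A'` of disjoint bases with
  `⋃ A' = insert x (⋃ A \ {z})` (here `x ∈ B`, so `x ∉ A l` for all `l`, and `z ≠ x` because `z ∉ B`);
  together with `insert z (B \ {x})` it is a partition of `univ`.
* `rs_subset`: for `X` such that `x ∈ X` and `z ∈ X`, `w ∈ A l`, `z ∉ A l`, `insert z (A l \ {w})` base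
  implies `w ∈ X`, the whole `RS` is contained in `X` (induction on the length of the walk, read
  from the front: generalize the start).
-/

set_option autoImplicit false

namespace Pool.Agent.W3

open Set

variable {E : Type*} {N : Matroid E} {q : ℕ}

/-- The set reachable from `x`. -/
def RS (N : Matroid E) {q : ℕ} (A : Fin q → Set E) (x : E) : Set E :=
  {z | ∃ n, Pool.Agent.WD.Walk N A univ univ n x z}

theorem rs_self (A : Fin q → Set E) (x : E) : x ∈ RS N A x := ⟨0, rfl⟩

private theorem walk_snoc {A : Fin q → Set E} (n : ℕ) : ∀ x z v,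
    Pool.Agent.WD.Walk N A univ univ n x z → Pool.Agent.WD.Edge N A univ univ z v →
    Pool.Agent.WD.Walk N A univ univ (n + 1) x v := by
  induction n with
  | zero =>
    intro x z v h1 h2
    obtain rfl : x = z := h1
    exact ⟨v, h2, rfl⟩
  | succ n ih =>
    intro x z v h1 h2
    obtain ⟨u, hu, hw⟩ := h1
    exact ⟨u, hu, ih u z v hw h2⟩

theorem rs_closure (hN : N.E = univ) {A : Fin q → Set E} (hA : Pool.Agent.WD.IsFam N A) {x z : E}
    (hz : z ∈ RS N A x) (l : Fin q) : z ∈ N.closure (A l ∩ RS N A x) := by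
  obtain ⟨n, hz⟩ := hz
  have hAl := hA.1 l
  have hAE : A l ⊆ N.E := hAl.subset_ground
  by_cases hzA : z ∈ A l
  · exact N.mem_closure_of_mem ⟨hzA, n, hz⟩ (inter_subset_left.trans hAE)
  have hzE : z ∈ N.E := by rw [hN]; exact mem_univ z
  have hzcl : z ∈ N.closure (A l) := by rw [hAl.closure_eq]; exact hzE
  set Js : Set (Set E) := {K | K ⊆ A l ∧ z ∈ N.closure K} with hJs
  have h1 : A l ∈ Js := ⟨subset_rfl, hzcl⟩
  have h2 : z ∈ N.closure (⋂₀ Js) := by
    rw [hAl.indep.closure_sInter_eq_biInter_closure_of_forall_subset ⟨_, h1⟩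
      (fun K hK => hK.1)]
    exact mem_iInter₂.mpr fun K hK => hK.2
  refine N.closure_subset_closure ?_ h2
  intro v hv
  have hv1 := mem_sInter.mp hv _ h1
  refine ⟨hv1, n + 1, walk_snoc n x z v hz ⟨mem_univ _, mem_univ _, l, mem_univ _, hv1, hzA, ?_⟩⟩
  apply hAl.exchange_base_of_notMem_closure hv1 _ hzE
  intro hmem
  have := mem_sInter.mp hv (A l \ {v}) ⟨sdiff_subset, hmem⟩
  exact this.2 rfl

private theorem rs_subset_aux {A : Fin q → Set E} {X : Set E}
    (hX : ∀ l z w, z ∈ X → w ∈ A l → z ∉ A l → N.IsBase (insert z (A l \ {w})) → w ∈ X)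
    (n : ℕ) : ∀ x z : E, x ∈ X → Pool.Agent.WD.Walk N A univ univ n x z → z ∈ X := by
  induction n with
  | zero =>
    intro x z hx h
    obtain rfl : x = z := h
    exact hx
  | succ n ih =>
    intro x z hx h
    obtain ⟨v, ⟨_, _, l, _, h1, h2, h3⟩, hw⟩ := h
    exact ih v z (hX l x v hx h1 h2 h3) hw

theorem rs_subset {A : Fin q → Set E} {x : E} {X : Set E} (hx : x ∈ X)
    (hX : ∀ l z w, z ∈ X → w ∈ A l → z ∉ A l → N.IsBase (insert z (A l \ {w})) → w ∈ X) :
    RS N A x ⊆ X := by
  rintro z ⟨n, hz⟩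
  exact rs_subset_aux hX n x z hx hz

theorem rs_exchange (hN : N.E = univ) {B : Set E} {A : Fin q → Set E} (h : IsState N B A)
    {x z : E} (hx : x ∈ B) (hz : z ∈ RS N A x) (hzB : z ∉ B) :
    ∃ A' : Fin q → Set E, IsState N (insert z (B \ {x})) A' := by
  obtain ⟨n, hz⟩ := hz
  obtain ⟨hfam, hdis, hun⟩ := h
  have hxz : x ≠ z := fun h => hzB (h ▸ hx)
  have hxA : ∀ l, x ∉ A l := fun l hl => Set.disjoint_left.1 (hdis l) hx hl
  obtain ⟨A', hA', hU, -, -⟩ := Pool.Agent.WD.augment n A x z hfam hxA hxz hz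
  refine ⟨A', hA', ?_, ?_⟩
  · intro l
    rw [Set.disjoint_left]
    intro e he1 he2
    have he3 : e ∈ insert x ((⋃ l, A l) \ {z}) := by
      rw [← hU]
      exact mem_iUnion.2 ⟨l, he2⟩
    rcases he1 with rfl | ⟨he1, hex⟩
    · rcases he3 with h3 | h3
      · exact hxz h3.symm
      · exact h3.2 rfl
    · rcases he3 with h3 | h3
      · exact hex h3
      · obtain ⟨l', hl'⟩ := mem_iUnion.1 h3.1
        exact Set.disjoint_left.1 (hdis l') he1 hl'
  · rw [hU]
    apply eq_univ_of_forall
    intro e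
    have he : e ∈ B ∪ ⋃ l, A l := by rw [hun]; exact mem_univ e
    rcases he with he | he
    · by_cases hex : e = x
      · exact Or.inr (Or.inl hex)
      · exact Or.inl (Or.inr ⟨he, hex⟩)
    · by_cases hez : e = z
      · exact Or.inl (Or.inl hez)
      · exact Or.inr (Or.inr ⟨he, hez⟩)

end Pool.Agent.W3
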