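import Pool.Agent.W3.ColDefs

/-!
Cycles of top dimension have coefficients in `JA C`.

Proof. If the elements outside `S` are dependent, `JA C = ⊤` (`ja_dep`). Otherwise let `n = S.card`,
`eRk C + n = eRank` (`ja_indep`), `C ∉ c`. We may assume `z c ∉ ZA R S a` (`za_le_ja`). So `c` is a chain of
`n - 1` proper flats which contain `C` properly. By `exists_flag` there is a flag `l` from `C`
with `lset Ω l = c`. By `ja_indep` we have to show `z c y = 0` for all `y` with `YA R S a y` and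
`y s ∈ van k C` for `s ∈ S`. Apply `hTop` (TopVan) with `n`, `C.1`, `I := S`,
`y0 := fun s => Pi.single (a s) 1`, `Z l := z (lset Ω l)`: note that the arguments considered in TopVan are
exactly the `y` with `YA R S a y` and `y s ∈ van k C` for `s ∈ S`.
(cycle condition) `cyc_of_bd` for `ζ c := z c y`: `h1`: if `z c y ≠ 0` then `z c ∉ ZA`; `h2`: if `C ∈ c` then
`z c ∈ JA C`, and by `ja_indep` `z c y = 0`; `h3`: `bd (rho Ω) ζ c = (bd (rho Ω) z c) y = 0` (`bd_map` with
evaluation at `y`).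
(last hypothesis) flag `G :: l` from `C`, `J ⊆ S`, `n ≤ 1 + |J|`, `y s ∈ van k G` on `J`. As `n ≥ 2`, `G` is a
proper flat (`eRk G = eRk C + 1 < eRank`), it is in `lset Ω (G :: l)`, so
`z (lset Ω (G :: l)) ∈ JA G`, and `card ι = rho C + n = rho G + (n - 1) ≤ rho G + |J| ≤ rho G + nv G y`.
-/

set_option autoImplicit false

namespace Pool.Agent.W3

open Finset

variable {E : Type*} [Fintype E] [DecidableEq E] {Ω : Matroid E} {k : Type*} [Field k]
  {R : Submodule k (E → k)} {ι : Type*} [Fintype ι] [DecidableEq ι]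

theorem star (hΩ : Ω.E = Set.univ) (hrk : Ω.eRank = Fintype.card ι) (hTop : TopVan Ω R ι)
    {S : Finset ι} (hS : 2 ≤ S.card) (a : ι → E) (C : PF Ω) (hC : C.1 = CA Ω S a)
    (z : Finset (PF Ω) → ML k E ι)
    (h1 : ∀ c, z c ∉ ZA R S a → IsChain (· ≤ ·) (c : Set (PF Ω)) ∧ c.card + 1 = S.card ∧
      ∀ F ∈ c, C ≤ F)
    (h2 : ∀ c, ∀ F ∈ c, z c ∈ JA Ω R S a F)
    (h3 : ∀ c, bd (rho Ω) z c ∈ ZA R S a) : ∀ c, C ∉ c → z c ∈ JA Ω R S a C := by
  intro c hCc
  by_cases hind : Set.InjOn a (S : Set ι)ᶜ ∧ Ω.Indep (a '' (S : Set ι)ᶜ)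
  swap
  · rw [ja_dep hΩ hrk S a hind C hC]
    exact Submodule.mem_top
  obtain ⟨hrC, hJC⟩ := ja_indep (R := R) hΩ hrk S a hind C hC
  by_cases hz : z c ∈ ZA R S a
  · exact za_le_ja S a C hz
  obtain ⟨hch, hcard, hge⟩ := h1 c hz
  have hlt : ∀ F ∈ c, C.1 ⊂ F.1 := by
    intro F hF
    have h4 : C < F := lt_of_le_of_ne (hge F hF) (fun h => hCc (h ▸ hF))
    exact h4
  obtain ⟨l, hl, hlc⟩ := exists_flag hΩ C.2.1 c hch hlt (by rw [hcard]; exact hrC)
  intro y hy hcond
  have hyS := (hJC y hy).1 hcond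
  have hvan : ∀ f ∈ JA Ω R S a C, ∀ y : ι → E → k, YA R S a y → (∀ s ∈ S, y s ∈ van k C.1) →
      f y = 0 := fun f hf y hy h => hf y hy ((hJC y hy).2 h)
  have key := hTop S.card C.1 C.2.1 hrC (by omega) S (fun s => Pi.single (a s) 1)
    (fun l => z (lset Ω l)) rfl ?_ ?_ l hl y (fun s hs => hy.2 s hs)
    (fun s hs => ⟨hy.1 s hs, hyS s hs⟩)
  · have key2 : z (lset Ω l) y = 0 := key
    rw [hlc] at key2
    exact key2
  · intro y hy0 hyS
    have hyA : YA R S a y := ⟨fun s hs => (hyS s hs).1, hy0⟩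
    refine cyc_of_bd hΩ C hrC (fun c => z c y) ?_ ?_ ?_
    · intro c hc
      exact h1 c (fun h => hc (h y hyA))
    · intro c hc
      exact hvan _ (h2 c C hc) y hyA (fun s hs => (hyS s hs).2)
    · intro c
      have h5 := bd_map (rho Ω) (⟨⟨fun f : ML k E ι => f y, rfl⟩, fun _ _ => rfl⟩ : ML k E ι →+ k) z c
      exact h5.trans (h3 c y hyA)
  · rintro G l hG y hy0 hyS ⟨J, hJS, hJn, hJv⟩
    have hyA : YA R S a y := ⟨fun s hs => (hyS s hs).1, hy0⟩
    obtain ⟨hcov, -⟩ := hG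
    obtain ⟨-, hGf, hCG, hGr⟩ := hcov
    have hne : Ω.eRk C.1 ≠ ⊤ := by
      intro h
      rw [h, hrk, top_add] at hrC
      exact ENat.natCast_ne_top _ hrC.symm
    obtain ⟨r, hr⟩ := ENat.ne_top_iff_exists.1 hne
    have hrn : r + S.card = Fintype.card ι := by
      rw [← hr, hrk] at hrC
      exact_mod_cast hrC
    have hGr2 : Ω.eRk G = ((r + 1 : ℕ) : ℕ∞) := by
      rw [hGr, ← hr]
      push_cast
      rfl
    have hGu : G ≠ Set.univ := by
      intro h
      have h6 : Ω.eRk G = Ω.eRank := by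
        rw [h, ← hΩ, Matroid.eRk_ground]
      rw [hGr2, hrk] at h6
      have h7 : r + 1 = Fintype.card ι := by exact_mod_cast h6
      omega
    have hrG : rho Ω (⟨G, hGf, hGu⟩ : PF Ω) = r + 1 := by
      unfold rho
      rw [hGr2]
      rfl
    have hmem : (⟨G, hGf, hGu⟩ : PF Ω) ∈ lset Ω (G :: l) := by
      rw [mem_lset]
      exact List.mem_cons_self
    refine h2 (lset Ω (G :: l)) ⟨G, hGf, hGu⟩ hmem y hyA ?_
    have hnv : J.card ≤ nv G y := by
      unfold nv
      apply Finset.card_le_card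
      intro s hs
      classical
      exact Finset.mem_filter.2 ⟨Finset.mem_univ _, hJv s hs⟩
    rw [hrG]
    show Fintype.card ι ≤ r + 1 + nv G y
    omega

end Pool.Agent.W3
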